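import Mathlib

set_option autoImplicit false

/-!
# Eckmann–Hilton for path spaces
-/

namespace Pool.Agent.H57.EH

open unitInterval ContinuousMap Path.Homotopic

section General

variable {X : Type*} [TopologicalSpace X]

/-- In a space with a continuous product having a two sided unit up to homotopy, loops at the unit
commute up to homotopy. -/
theorem comm_of_unital (m : C(X × X, X)) (e : X)
    (R : (m.comp ((ContinuousMap.id X).prodMk (const X e))).Homotopy (ContinuousMap.id X))
    (L : (m.comp ((const X e).prodMk (ContinuousMap.id X))).Homotopy (ContinuousMap.id X))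
    (a b : Path.Homotopic.Quotient e e) : a.trans b = b.trans a := by
  let ρ : Path.Homotopic.Quotient (m (e, e)) e := Path.Homotopic.Quotient.mk (R.evalAt e)
  let l : Path.Homotopic.Quotient (m (e, e)) e := Path.Homotopic.Quotient.mk (L.evalAt e)
  let A : Path.Homotopic.Quotient e e → Path.Homotopic.Quotient (m (e, e)) (m (e, e)) := fun a =>
    Path.Homotopic.Quotient.map (Path.Homotopic.prod a (Path.Homotopic.Quotient.refl e)) m
  let B : Path.Homotopic.Quotient e e → Path.Homotopic.Quotient (m (e, e)) (m (e, e)) := fun b =>
    Path.Homotopic.Quotient.map (Path.Homotopic.prod (Path.Homotopic.Quotient.refl e) b) m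
  have hA : ∀ a, (A a).trans ρ = ρ.trans a := by
    intro a
    induction a using Path.Homotopic.Quotient.ind with
    | mk γ =>
      exact (Path.Homotopic.Quotient.eq).2 (Path.Homotopic.map_trans_evalAt R γ)
  have hB : ∀ b, (B b).trans l = l.trans b := by
    intro b
    induction b using Path.Homotopic.Quotient.ind with
    | mk γ =>
      exact (Path.Homotopic.Quotient.eq).2 (Path.Homotopic.map_trans_evalAt L γ)
  have hmap : ∀ (p q : Path.Homotopic.Quotient (e, e) (e, e)),
      Path.Homotopic.Quotient.map (p.trans q) m =
        (Path.Homotopic.Quotient.map p m).trans (Path.Homotopic.Quotient.map q m) := by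
    intro p q
    induction p, q using Path.Homotopic.Quotient.ind₂ with
    | mk p q =>
      rw [← Path.Homotopic.Quotient.mk_trans, ← Path.Homotopic.Quotient.mk_map,
        ← Path.Homotopic.Quotient.mk_map, ← Path.Homotopic.Quotient.mk_map,
        ← Path.Homotopic.Quotient.mk_trans, Path.map_trans]
  have hAB : ∀ a b, (A a).trans (B b) = (B b).trans (A a) := by
    intro a b
    simp only [A, B]
    rw [← hmap, ← hmap, Path.Homotopic.comp_prod_eq_prod_comp,
      Path.Homotopic.comp_prod_eq_prod_comp]
    simp
  have hA' : ∀ a, A a = (ρ.trans a).trans ρ.symm := by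
    intro a
    rw [← hA, Path.Homotopic.Quotient.trans_assoc]
    simp
  have hB' : ∀ b, B b = (l.trans b).trans l.symm := by
    intro b
    rw [← hB, Path.Homotopic.Quotient.trans_assoc]
    simp
  -- conjugating element
  have key : ∀ b, a.trans (((ρ.symm.trans l).trans b).trans (l.symm.trans ρ)) =
      (((ρ.symm.trans l).trans b).trans (l.symm.trans ρ)).trans a := by
    intro b
    have h := hAB a b
    rw [hA', hB'] at h
    have h2 := congrArg (fun x => (ρ.symm.trans x).trans ρ) h
    simp only [Path.Homotopic.Quotient.trans_assoc] at h2 ⊢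
    rw [← Path.Homotopic.Quotient.trans_assoc ρ.symm ρ, Path.Homotopic.Quotient.symm_trans,
      Path.Homotopic.Quotient.refl_trans] at h2
    rw [h2, Path.Homotopic.Quotient.trans_refl]
  have h := key (((l.symm.trans ρ).trans b).trans (ρ.symm.trans l))
  have e1 : ((ρ.symm.trans l).trans (((l.symm.trans ρ).trans b).trans (ρ.symm.trans l))).trans
      (l.symm.trans ρ) = b := by
    simp only [Path.Homotopic.Quotient.trans_assoc]
    rw [← Path.Homotopic.Quotient.trans_assoc l l.symm, Path.Homotopic.Quotient.trans_symm,
      Path.Homotopic.Quotient.refl_trans, ← Path.Homotopic.Quotient.trans_assoc ρ.symm ρ,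
      Path.Homotopic.Quotient.symm_trans, Path.Homotopic.Quotient.refl_trans,
      ← Path.Homotopic.Quotient.trans_assoc l l.symm, Path.Homotopic.Quotient.trans_symm,
      Path.Homotopic.Quotient.refl_trans, Path.Homotopic.Quotient.symm_trans,
      Path.Homotopic.Quotient.trans_refl]
  rw [e1] at h
  exact h

end General

end Pool.Agent.H57.EH
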