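import Mathlib
import Pool.Agent.H57.EH

set_option autoImplicit false

/-!
# The space of paths between two points has commutative fundamental group
-/

namespace Pool.Agent.H57.EH

open unitInterval ContinuousMap Path.Homotopic

section PathSpace

variable {Y : Type*} [TopologicalSpace Y] {x y : Y}

/-- the product `(ρ · μ⁻¹) · ρ'` -/
noncomputable def pmul (μ : Path x y) : C(Path x y × Path x y, Path x y) where
  toFun p := (p.1.trans μ.symm).trans p.2
  continuous_toFun := by
    refine Continuous.path_trans ?_ continuous_snd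
    exact Continuous.path_trans continuous_fst continuous_const

/-- first stage of the right unit homotopy -/
noncomputable def R1 (μ : Path x y) (p : I × Path x y) : Path x y where
  toFun s := if (s : ℝ) ≤ 1 / 4 then p.2.extend (4 * s) else
    μ.extend (max (p.1 : ℝ) (max (2 - 4 * s) (2 * s - 1)))
  continuous_toFun := by
    refine Continuous.if_le ?_ ?_ continuous_subtype_val continuous_const ?_
    · exact p.2.continuous_extend.comp (by fun_prop)
    · exact μ.continuous_extend.comp (by fun_prop)
    · intro s hs
      rw [hs, Path.extend_of_one_le _ (by norm_num), Path.extend_of_one_le]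
      refine le_max_of_le_right (le_max_of_le_left ?_)
      norm_num
  source' := by simp
  target' := by
    have h : ¬ (1 : ℝ) ≤ 1 / 4 := by norm_num
    simp only [Set.Icc.coe_one, h, if_false]
    rw [Path.extend_of_one_le]
    refine le_max_of_le_right (le_max_of_le_right ?_)
    norm_num

theorem continuous_R1 (μ : Path x y) : Continuous (R1 μ) := by
  refine Path.continuous_uncurry_iff.1 ?_
  show Continuous (fun q : (I × Path x y) × I => if (q.2 : ℝ) ≤ 1 / 4 then
    q.1.2.extend (4 * q.2) else μ.extend (max (q.1.1 : ℝ) (max (2 - 4 * q.2) (2 * q.2 - 1))))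
  refine Continuous.if_le ?_ ?_ (by fun_prop) continuous_const ?_
  · have h : ∀ q : (I × Path x y) × I, q.1.2.extend (4 * q.2) =
        q.1.2 (Set.projIcc 0 1 zero_le_one (4 * (q.2 : ℝ))) := fun q => rfl
    simp only [h]
    fun_prop
  · exact μ.continuous_extend.comp (by fun_prop)
  · intro q hs
    rw [hs, Path.extend_of_one_le _ (by norm_num), Path.extend_of_one_le]
    refine le_max_of_le_right (le_max_of_le_left ?_)
    norm_num

/-- second stage of the right unit homotopy -/
noncomputable def R2 (p : I × Path x y) : Path x y where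
  toFun s := p.2.extend ((4 - 3 * p.1) * s)
  continuous_toFun := p.2.continuous_extend.comp (by fun_prop)
  source' := by simp
  target' := by
    rw [Path.extend_of_one_le]
    have := p.1.2.2
    simp only [Set.Icc.coe_one, mul_one]
    linarith

theorem continuous_R2 : Continuous (R2 : I × Path x y → Path x y) := by
  refine Path.continuous_uncurry_iff.1 ?_
  show Continuous (fun q : (I × Path x y) × I => q.1.2.extend ((4 - 3 * q.1.1) * q.2))
  have h : ∀ q : (I × Path x y) × I, q.1.2.extend ((4 - 3 * q.1.1) * q.2) =
        q.1.2 (Set.projIcc 0 1 zero_le_one ((4 - 3 * q.1.1) * (q.2 : ℝ))) := fun q => rfl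
  simp only [h]
  fun_prop

theorem R1_zero (μ ρ : Path x y) : R1 μ (0, ρ) = (ρ.trans μ.symm).trans μ := by
  ext s
  have h0 := s.2.1
  have h1 := s.2.2
  simp only [R1, Path.trans_apply, Path.coe_mk_mk]
  by_cases h : (s : ℝ) ≤ 1 / 4
  · rw [if_pos h, dif_pos (by linarith), dif_pos (by linarith)]
    rw [Path.extend_apply _ ⟨by positivity, by linarith⟩]
    congr 1
    ext
    simp
    ring
  · rw [if_neg h]
    push Not at h
    by_cases h2 : (s : ℝ) ≤ 1 / 2
    · rw [dif_pos h2]
      by_cases h3 : 2 * (s : ℝ) ≤ 1 / 2
      · exfalso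
        linarith
      · rw [dif_neg h3]
        rw [max_eq_left (a := 2 - 4 * (s : ℝ)) (by linarith), Set.Icc.coe_zero,
          max_eq_right (by linarith), Path.extend_apply _ ⟨by linarith, by linarith⟩]
        simp only [Path.symm_apply]
        congr 1
        ext
        simp
        ring
    · rw [dif_neg h2]
      push Not at h2
      rw [max_eq_right (a := 2 - 4 * (s : ℝ)) (by linarith), Set.Icc.coe_zero,
          max_eq_right (by linarith), Path.extend_apply _ ⟨by linarith, by linarith⟩]

theorem R1_one (μ ρ : Path x y) : R1 μ (1, ρ) = R2 (0, ρ) := by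
  ext s
  simp only [R1, R2, Path.coe_mk_mk]
  by_cases h : (s : ℝ) ≤ 1 / 4
  · rw [if_pos h]
    simp
  · rw [if_neg h]
    push Not at h
    rw [Set.Icc.coe_one, Path.extend_of_one_le _ (le_max_left _ _), Path.extend_of_one_le]
    simp only [Set.Icc.coe_zero]
    linarith

theorem R2_one (ρ : Path x y) : R2 (1, ρ) = ρ := by
  ext s
  simp only [R2, Path.coe_mk_mk]
  have : (4 - 3 * ((1 : I) : ℝ)) * (s : ℝ) = s := by
    simp
    norm_num
  rw [this]
  simp

/-- first stage of the left unit homotopy -/
noncomputable def L1 (μ : Path x y) (p : I × Path x y) : Path x y where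
  toFun s := if (s : ℝ) ≤ 1 / 2 then
    μ.extend (min (1 - p.1 : ℝ) (min (4 * s) (2 - 4 * s))) else p.2.extend (2 * s - 1)
  continuous_toFun := by
    refine Continuous.if_le ?_ ?_ continuous_subtype_val continuous_const ?_
    · exact μ.continuous_extend.comp (by fun_prop)
    · exact p.2.continuous_extend.comp (by fun_prop)
    · intro s hs
      rw [hs, Path.extend_of_le_zero _ _, Path.extend_of_le_zero _ (by norm_num)]
      refine (min_le_right _ _).trans ((min_le_right _ _).trans ?_)
      norm_num
  source' := by
    have h : (0 : ℝ) ≤ 1 / 2 := by norm_num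
    simp only [Set.Icc.coe_zero, h, if_true]
    rw [Path.extend_of_le_zero]
    refine (min_le_right _ _).trans ((min_le_left _ _).trans ?_)
    norm_num
  target' := by
    have h : ¬ (1 : ℝ) ≤ 1 / 2 := by norm_num
    simp only [Set.Icc.coe_one, h, if_false]
    rw [Path.extend_of_one_le]
    norm_num

theorem continuous_L1 (μ : Path x y) : Continuous (L1 μ) := by
  refine Path.continuous_uncurry_iff.1 ?_
  show Continuous (fun q : (I × Path x y) × I => if (q.2 : ℝ) ≤ 1 / 2 then
    μ.extend (min (1 - q.1.1 : ℝ) (min (4 * q.2) (2 - 4 * q.2))) else q.1.2.extend (2 * q.2 - 1))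
  refine Continuous.if_le ?_ ?_ (by fun_prop) continuous_const ?_
  · exact μ.continuous_extend.comp (by fun_prop)
  · have h : ∀ q : (I × Path x y) × I, q.1.2.extend (2 * q.2 - 1) =
        q.1.2 (Set.projIcc 0 1 zero_le_one (2 * (q.2 : ℝ) - 1)) := fun q => rfl
    simp only [h]
    fun_prop
  · intro q hs
    rw [hs, Path.extend_of_le_zero _ _, Path.extend_of_le_zero _ (by norm_num)]
    refine (min_le_right _ _).trans ((min_le_right _ _).trans ?_)
    norm_num

theorem L1_zero (μ ρ : Path x y) : L1 μ (0, ρ) = (μ.trans μ.symm).trans ρ := by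
  ext s
  have h0 := s.2.1
  have h1 := s.2.2
  simp only [L1, Path.trans_apply, Path.coe_mk_mk]
  by_cases h : (s : ℝ) ≤ 1 / 2
  · rw [if_pos h, dif_pos h]
    by_cases h3 : 2 * (s : ℝ) ≤ 1 / 2
    · rw [dif_pos h3, Set.Icc.coe_zero, min_eq_left (a := 4 * (s : ℝ)) (by linarith),
        min_eq_right (by linarith), Path.extend_apply _ ⟨by linarith, by linarith⟩]
      congr 1
      ext
      simp
      ring
    · rw [dif_neg h3, Set.Icc.coe_zero, min_eq_right (a := 4 * (s : ℝ)) (by linarith),
        min_eq_right (by linarith), Path.extend_apply _ ⟨by linarith, by linarith⟩]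
      simp only [Path.symm_apply]
      congr 1
      ext
      simp
      ring
  · rw [if_neg h, dif_neg h]
    push Not at h
    rw [Path.extend_apply _ ⟨by linarith, by linarith⟩]

theorem L1_one (μ ρ : Path x y) : L1 μ (1, ρ) = (Path.refl x).trans ρ := by
  ext s
  have h0 := s.2.1
  have h1 := s.2.2
  simp only [L1, Path.trans_apply, Path.coe_mk_mk]
  by_cases h : (s : ℝ) ≤ 1 / 2
  · rw [if_pos h, dif_pos h, Path.extend_of_le_zero]
    · rfl
    · refine (min_le_left _ _).trans ?_
      simp
  · rw [if_neg h, dif_neg h]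
    push Not at h
    rw [Path.extend_apply _ ⟨by linarith, by linarith⟩]

/-- The fundamental group of the space of paths from `x` to `y` is commutative. -/
theorem path_comm (μ : Path x y) (a b : Path.Homotopic.Quotient μ μ) :
    a.trans b = b.trans a := by
  refine comm_of_unital (pmul μ) μ ?_ ?_ a b
  · refine ContinuousMap.Homotopy.trans (f₁ := ⟨fun ρ => R2 (0, ρ), ?_⟩)
      (⟨⟨R1 μ, continuous_R1 μ⟩, ?_, ?_⟩) (⟨⟨R2, continuous_R2⟩, ?_, ?_⟩)
    · exact continuous_R2.comp (by fun_prop)
    · intro ρ
      exact R1_zero μ ρ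
    · intro ρ
      exact R1_one μ ρ
    · intro ρ
      rfl
    · intro ρ
      exact R2_one ρ
  · refine ContinuousMap.Homotopy.trans (f₁ := ⟨fun ρ => (Path.refl x).trans ρ, ?_⟩)
      (⟨⟨L1 μ, continuous_L1 μ⟩, ?_, ?_⟩)
      (⟨⟨fun p => Path.delayReflLeft p.1 p.2, Path.continuous_delayReflLeft⟩, ?_, ?_⟩)
    · exact Continuous.path_trans continuous_const continuous_id
    · intro ρ
      exact L1_zero μ ρ
    · intro ρ
      exact L1_one μ ρ
    · intro ρ
      exact Path.delayReflLeft_zero ρ
    · intro ρ
      exact Path.delayReflLeft_one ρ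

end PathSpace

end Pool.Agent.H57.EH
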