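import Mathlib
import Pool.Agent.H57.PathH

set_option autoImplicit false

/-!
# Walks in a complete bipartite graph and their chains
-/

namespace Pool.Agent.H57.Chain

open unitInterval ContinuousMap Path.Homotopic

section General

variable {K : Type*} [TopologicalSpace K] {P Q : Type} [DecidableEq P] [DecidableEq Q]
  {e : P ⊕ Q → K} (seg : ∀ A C, Path (e (Sum.inl A)) (e (Sum.inr C)))

/-- `HasChain seg γ c`: the path `γ` is composed from edges, and `c` counts them. -/
inductive HasChain : ∀ {v w : P ⊕ Q}, Path (e v) (e w) → (P × Q → ℤ) → Prop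
  | refl (v : P ⊕ Q) : HasChain (Path.refl (e v)) 0
  | edge (A : P) (C : Q) : HasChain (v := Sum.inl A) (w := Sum.inr C) (seg A C)
      (Pi.single (A, C) 1)
  | symm {v w : P ⊕ Q} {γ : Path (e v) (e w)} {c : P × Q → ℤ} :
      HasChain γ c → HasChain γ.symm (-c)
  | trans {u v w : P ⊕ Q} {γ : Path (e u) (e v)} {δ : Path (e v) (e w)} {c d : P × Q → ℤ} :
      HasChain γ c → HasChain δ d → HasChain (γ.trans δ) (c + d)

/-- canonical path from `p0` -/
noncomputable def kap (p0 : P) (q0 : Q) : ∀ v : P ⊕ Q, Path (e (Sum.inl p0)) (e v)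
  | Sum.inl A => (seg p0 q0).trans (seg A q0).symm
  | Sum.inr C => seg p0 C

theorem homotopic_of_chain [Fintype P] [Fintype Q] (p0 : P) (q0 : Q) {X : Type*}
    [TopologicalSpace X] (S : C(K, X))
    (hcomm : ∀ a b : Path.Homotopic.Quotient (S (e (Sum.inl p0))) (S (e (Sum.inl p0))),
      a.trans b = b.trans a)
    {v w : P ⊕ Q} {γ γ' : Path (e v) (e w)} {c : P × Q → ℤ}
    (h : HasChain seg γ c) (h' : HasChain seg γ' c) :
    (γ.map S.continuous).Homotopic (γ'.map S.continuous) := by
  classical
  -- the commutative group of loops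
  let L := Path.Homotopic.Quotient (S (e (Sum.inl p0))) (S (e (Sum.inl p0)))
  let _ : CommGroup L :=
    { mul := fun a b => a.trans b
      one := Path.Homotopic.Quotient.refl _
      inv := fun a => a.symm
      mul_assoc := fun a b c => Path.Homotopic.Quotient.trans_assoc a b c
      one_mul := fun a => Path.Homotopic.Quotient.refl_trans a
      mul_one := fun a => Path.Homotopic.Quotient.trans_refl a
      inv_mul_cancel := fun a => Path.Homotopic.Quotient.symm_trans a
      mul_comm := hcomm }
  have hmul : ∀ a b : L, a * b = a.trans b := fun _ _ => rfl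
  have hone : (1 : L) = Path.Homotopic.Quotient.refl _ := rfl
  have hinv : ∀ a : L, a⁻¹ = a.symm := fun _ => rfl
  let m : ∀ {x y : K}, Path x y → Path.Homotopic.Quotient (S x) (S y) :=
    fun γ => Path.Homotopic.Quotient.mk (γ.map S.continuous)
  let k : ∀ v : P ⊕ Q, Path.Homotopic.Quotient (S (e (Sum.inl p0))) (S (e v)) :=
    fun v => m (kap seg p0 q0 v)
  let φ : P × Q → L := fun a => ((k (Sum.inl a.1)).trans (m (seg a.1 a.2))).trans
    (k (Sum.inr a.2)).symm
  let Φ : (P × Q → ℤ) → L := fun c => ∏ a, φ a ^ c a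
  have Φadd : ∀ c d, Φ (c + d) = Φ c * Φ d := by
    intro c d
    simp only [Φ, Pi.add_apply, zpow_add, Finset.prod_mul_distrib]
  have Φzero : Φ 0 = 1 := by simp [Φ]
  have Φneg : ∀ c, Φ (-c) = (Φ c)⁻¹ := by
    intro c
    simp only [Φ, Pi.neg_apply, zpow_neg, Finset.prod_inv_distrib]
  have Φsingle : ∀ a, Φ (Pi.single a 1) = φ a := by
    intro a
    simp only [Φ]
    rw [Finset.prod_eq_single a]
    · simp
    · intro b _ hb
      rw [Pi.single_eq_of_ne hb]
      simp
    · simp
  have main : ∀ {v w : P ⊕ Q} {γ : Path (e v) (e w)} {c : P × Q → ℤ}, HasChain seg γ c →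
      ((k v).trans (m γ)).trans (k w).symm = Φ c := by
    intro v w γ c h
    induction h with
    | refl v =>
      rw [Φzero, hone]
      have : m (Path.refl (e v)) = Path.Homotopic.Quotient.refl _ := by
        simp only [m]
        rfl
      rw [this, Path.Homotopic.Quotient.trans_refl, Path.Homotopic.Quotient.trans_symm]
    | edge A C =>
      rw [Φsingle]
    | @symm v w γ c h ih =>
      rw [Φneg, ← ih, hinv]
      have h1 : m γ.symm = (m γ).symm := by
        simp only [m]
        rw [← Path.Homotopic.Quotient.mk_symm, Path.map_symm]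
      have h2 : ∀ {a b c : X} (x : Path.Homotopic.Quotient a b) (y : Path.Homotopic.Quotient b c),
          (x.trans y).symm = y.symm.trans x.symm := by
        intro a b c x y
        induction x, y using Path.Homotopic.Quotient.ind₂ with
        | mk x y =>
          rw [← Path.Homotopic.Quotient.mk_trans, ← Path.Homotopic.Quotient.mk_symm,
            ← Path.Homotopic.Quotient.mk_symm, ← Path.Homotopic.Quotient.mk_symm,
            ← Path.Homotopic.Quotient.mk_trans, Path.trans_symm]
      have h3 : ∀ {a b : X} (x : Path.Homotopic.Quotient a b), x.symm.symm = x := by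
        intro a b x
        induction x using Path.Homotopic.Quotient.ind with
        | mk x =>
          rw [← Path.Homotopic.Quotient.mk_symm, ← Path.Homotopic.Quotient.mk_symm,
            Path.symm_symm]
      rw [h1, h2, h2, h3, Path.Homotopic.Quotient.trans_assoc]
    | @trans u v w γ δ c d h1 h2 ih1 ih2 =>
      rw [Φadd, ← ih1, ← ih2, hmul]
      have h1 : m (γ.trans δ) = (m γ).trans (m δ) := by
        simp only [m]
        rw [← Path.Homotopic.Quotient.mk_trans, Path.map_trans]
      rw [h1]
      simp only [Path.Homotopic.Quotient.trans_assoc]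
      rw [← Path.Homotopic.Quotient.trans_assoc (k v).symm,
        Path.Homotopic.Quotient.symm_trans, Path.Homotopic.Quotient.refl_trans]
  have h1 := main h
  have h2 := main h'
  rw [← h2] at h1
  have h3 := congrArg (fun x => ((k v).symm.trans x).trans (k w)) h1
  simp only [Path.Homotopic.Quotient.trans_assoc, Path.Homotopic.Quotient.symm_trans,
    Path.Homotopic.Quotient.trans_refl] at h3
  rw [← Path.Homotopic.Quotient.trans_assoc, ← Path.Homotopic.Quotient.trans_assoc,
    Path.Homotopic.Quotient.symm_trans, Path.Homotopic.Quotient.refl_trans,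
    Path.Homotopic.Quotient.refl_trans] at h3
  exact Path.Homotopic.Quotient.eq.1 h3

/-- the elementary cycle chain -/
def psi (p0 : P) (q0 : Q) (a : P × Q) : P × Q → ℤ :=
  Pi.single (p0, q0) 1 + -Pi.single (a.1, q0) 1 + Pi.single a 1 + -Pi.single (p0, a.2) 1

theorem hasChain_loop (p0 : P) (q0 : Q) (a : P × Q) :
    ∃ γ : Path (e (Sum.inl p0)) (e (Sum.inl p0)), HasChain seg γ (psi p0 q0 a) :=
  ⟨_, (((HasChain.edge p0 q0).trans (HasChain.edge a.1 q0).symm).trans
    (HasChain.edge a.1 a.2)).trans (HasChain.edge p0 a.2).symm⟩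

theorem exists_hasChain [Fintype P] [Fintype Q] (p0 : P) (q0 : Q) (c : P × Q → ℤ) :
    ∃ γ : Path (e (Sum.inl p0)) (e (Sum.inl p0)),
      HasChain seg γ (∑ a, c a • psi p0 q0 a) := by
  let T : AddSubgroup (P × Q → ℤ) :=
    { carrier := {c | ∃ γ : Path (e (Sum.inl p0)) (e (Sum.inl p0)), HasChain seg γ c}
      add_mem' := by
        rintro a b ⟨γ, hγ⟩ ⟨δ, hδ⟩
        exact ⟨_, hγ.trans hδ⟩
      zero_mem' := ⟨_, HasChain.refl _⟩
      neg_mem' := by
        rintro a ⟨γ, hγ⟩
        exact ⟨_, hγ.symm⟩ }
  have h : (∑ a, c a • psi p0 q0 a) ∈ T := by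
    refine T.sum_mem fun a _ => ?_
    exact T.zsmul_mem (hasChain_loop seg p0 q0 a) _
  exact h

/-- A chain with vanishing column sums and row sums `δ_{p0} - δ_{p1}` is the chain of a path
from `p0` to `p1`. -/
theorem exists_path_chain [Fintype P] [Fintype Q] (p0 p1 : P) (q0 : Q) (c : P × Q → ℤ)
    (hcol : ∀ C, ∑ A, c (A, C) = 0)
    (hrow : ∀ A, ∑ C, c (A, C) = (if A = p0 then 1 else 0) - (if A = p1 then 1 else 0)) :
    ∃ γ : Path (e (Sum.inl p0)) (e (Sum.inl p1)), HasChain seg γ c := by
  obtain ⟨γ, hγ⟩ := exists_hasChain seg p0 q0 c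
  have h := (hγ.trans (HasChain.edge p0 q0)).trans (HasChain.edge p1 q0).symm
  refine ⟨(γ.trans (seg p0 q0)).trans (seg p1 q0).symm, ?_⟩
  · convert h using 1
    funext ⟨A, C⟩
    simp only [Pi.add_apply, Pi.neg_apply, Finset.sum_apply, Pi.smul_apply, psi, smul_eq_mul,
      mul_add, mul_neg, Finset.sum_add_distrib, Finset.sum_neg_distrib]
    have e1 : ∑ a : P × Q, c a * (Pi.single (p0, q0) 1 : P × Q → ℤ) (A, C) = 0 := by
      rw [← Finset.sum_mul, Fintype.sum_prod_type_right]
      simp [hcol]
    have e2 : ∑ a : P × Q, c a * (Pi.single (a.1, q0) 1 : P × Q → ℤ) (A, C) =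
        if C = q0 then ∑ C', c (A, C') else 0 := by
      rw [Fintype.sum_prod_type, Finset.sum_eq_single A]
      · split_ifs with h
        · subst h
          simp
        · refine Finset.sum_eq_zero fun C' _ => ?_
          rw [Pi.single_apply, if_neg (by simp [h]), mul_zero]
      · intro A' _ hA'
        refine Finset.sum_eq_zero fun C' _ => ?_
        rw [Pi.single_apply, if_neg (by simp [hA'.symm]), mul_zero]
      · simp
    have e3 : ∑ a : P × Q, c a * (Pi.single a 1 : P × Q → ℤ) (A, C) = c (A, C) := by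
      rw [Finset.sum_eq_single (A, C)]
      · simp
      · intro a _ ha
        rw [Pi.single_eq_of_ne ha.symm, mul_zero]
      · simp
    have e4 : ∑ a : P × Q, c a * (Pi.single (p0, a.2) 1 : P × Q → ℤ) (A, C) = 0 := by
      rw [Fintype.sum_prod_type_right, Finset.sum_eq_single C]
      · by_cases h : A = p0
        · subst h
          simp [hcol]
        · refine Finset.sum_eq_zero fun C' _ => ?_
          rw [Pi.single_apply, if_neg (by simp [h]), mul_zero]
      · intro C' _ hC'
        refine Finset.sum_eq_zero fun A' _ => ?_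
        rw [Pi.single_apply, if_neg (by simp [hC'.symm]), mul_zero]
      · simp
    rw [e1, e2, e3, e4, hrow]
    simp only [Pi.single_apply, Prod.mk.injEq]
    by_cases hC : C = q0 <;> by_cases hA : A = p0 <;> by_cases hA1 : A = p1 <;>
      simp [hC, hA, hA1] <;> (try split_ifs) <;> simp_all

end General

end Pool.Agent.H57.Chain
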