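import Mathlib
import Pool.Agent.H57.Chain

set_option autoImplicit false
set_option linter.unusedSectionVars false

/-!
# The equivariant map from a fourfold join
-/

namespace Pool.Agent.H57.Null

open unitInterval ContinuousMap Path.Homotopic Pool.Agent.H57.Chain

/-- nonnegative with at most one nonzero coordinate -/
def Sp {α : Type} (x : α → ℝ) : Prop := (∀ i, 0 ≤ x i) ∧ ∀ i j, i ≠ j → x i = 0 ∨ x j = 0

theorem Sp.zero {α : Type} : Sp (0 : α → ℝ) := ⟨fun _ => le_rfl, fun _ _ _ => Or.inl rfl⟩

theorem Sp.single {α : Type} [DecidableEq α] (i : α) {r : ℝ} (hr : 0 ≤ r) :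
    Sp (Pi.single i r : α → ℝ) := by
  refine ⟨fun j => ?_, fun j k hjk => ?_⟩
  · by_cases h : j = i
    · subst h; simpa using hr
    · rw [Pi.single_eq_of_ne h]
  · by_cases h : j = i
    · right
      rw [Pi.single_eq_of_ne]
      rintro rfl
      exact hjk h
    · left
      rw [Pi.single_eq_of_ne h]

theorem Sp.smul {α : Type} {x : α → ℝ} (hx : Sp x) {r : ℝ} (hr : 0 ≤ r) : Sp (r • x) := by
  refine ⟨fun i => mul_nonneg hr (hx.1 i), fun i j hij => ?_⟩
  rcases hx.2 i j hij with h | h
  · left; simp [h]
  · right; simp [h]

theorem Sp.comp {α β : Type} {x : α → ℝ} (hx : Sp x) {f : β → α} (hf : Function.Injective f) :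
    Sp (fun b => x (f b)) :=
  ⟨fun _ => hx.1 _, fun _ _ hij => hx.2 _ _ (hf.ne hij)⟩

/-- the graph -/
abbrev K (P Q : Type) : Type := {v : (P → ℝ) × (Q → ℝ) // Sp v.1 ∧ Sp v.2 ∧ v ≠ 0}

/-- the join of the graph with a discrete set -/
abbrev U (P Q Z : Type) : Type :=
  {x : ((P → ℝ) × (Q → ℝ)) × (Z → ℝ) // Sp x.1.1 ∧ Sp x.1.2 ∧ Sp x.2 ∧ x ≠ 0}

section

variable {P Q Z : Type} [DecidableEq P] [DecidableEq Q] [DecidableEq Z]

/-- vertices of the graph -/
def e : P ⊕ Q → K P Q
  | Sum.inl A => ⟨(Pi.single A 1, 0), Sp.single A zero_le_one, Sp.zero, by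
      intro h
      have := congrFun (congrArg Prod.fst h) A
      simp at this⟩
  | Sum.inr C => ⟨(0, Pi.single C 1), Sp.zero, Sp.single C zero_le_one, by
      intro h
      have := congrFun (congrArg Prod.snd h) C
      simp at this⟩

/-- edges of the graph -/
def seg (A : P) (C : Q) : Path (e (Sum.inl A) : K P Q) (e (Sum.inr C)) where
  toFun t := ⟨(Pi.single A (1 - (t : ℝ)), Pi.single C (t : ℝ)),
    Sp.single A (by have := t.2.2; linarith), Sp.single C t.2.1, by
      intro h
      have h1 := congrFun (congrArg Prod.fst h) A
      have h2 := congrFun (congrArg Prod.snd h) C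
      simp at h1 h2
      rw [h2] at h1
      norm_num at h1⟩
  continuous_toFun := by
    refine Continuous.subtype_mk ?_ _
    refine Continuous.prodMk ?_ ?_
    · exact (continuous_single A).comp (by fun_prop)
    · exact (continuous_single C).comp (by fun_prop)
  source' := by
    apply Subtype.ext
    simp [e]
  target' := by
    apply Subtype.ext
    simp [e]

/-- the cone vertices -/
def vz (z : Z) : U P Q Z := ⟨(0, Pi.single z 1), Sp.zero, Sp.zero, Sp.single z zero_le_one, by
      intro h
      have := congrFun (congrArg Prod.snd h) z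
      simp at this⟩

theorem sp_two (n z : Z) (r : ℝ) :
    Sp (Pi.single n (max (1 - 2 * r) 0) + Pi.single z (max (2 * r - 1) 0) : Z → ℝ) := by
  rcases le_total r (1 / 2) with h | h
  · rw [max_eq_right (a := 2 * r - 1) (by linarith), Pi.single_zero, add_zero]
    exact Sp.single _ (le_max_right _ _)
  · rw [max_eq_right (a := 1 - 2 * r) (by linarith), Pi.single_zero, zero_add]
    exact Sp.single _ (le_max_right _ _)

theorem two_ne (n z : Z) (v : K P Q) (r : ℝ) :
    (((1 - |2 * r - 1|) • v.1, Pi.single n (max (1 - 2 * r) 0) + Pi.single z (max (2 * r - 1) 0)) :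
      ((P → ℝ) × (Q → ℝ)) × (Z → ℝ)) ≠ 0 := by
  intro h
  have h1 := congrArg Prod.fst h
  have h2 := congrArg Prod.snd h
  simp only [Prod.fst_zero, Prod.snd_zero] at h1 h2
  rcases smul_eq_zero.1 h1 with h3 | h3
  · rcases le_total r (1 / 2) with h4 | h4
    · rw [max_eq_right (a := 2 * r - 1) (by linarith), Pi.single_zero, add_zero,
        max_eq_left (by linarith)] at h2
      have h5 := congrFun h2 n
      simp only [Pi.single_eq_same, Pi.zero_apply] at h5
      rw [abs_of_nonpos (by linarith)] at h3
      linarith
    · rw [max_eq_right (a := 1 - 2 * r) (by linarith), Pi.single_zero, zero_add,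
        max_eq_left (by linarith)] at h2
      have h5 := congrFun h2 z
      simp only [Pi.single_eq_same, Pi.zero_apply] at h5
      rw [abs_of_nonneg (by linarith)] at h3
      linarith
  · exact v.2.2.2 h3

/-- the meridian map -/
def S (n z : Z) : C(K P Q, Path (vz n : U P Q Z) (vz z)) where
  toFun v :=
    { toFun := fun r => ⟨((1 - |2 * (r : ℝ) - 1|) • v.1,
        Pi.single n (max (1 - 2 * (r : ℝ)) 0) + Pi.single z (max (2 * (r : ℝ) - 1) 0)),
        v.2.1.smul (by rw [sub_nonneg, abs_le]; constructor <;> linarith [r.2.1, r.2.2]),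
        v.2.2.1.smul (by rw [sub_nonneg, abs_le]; constructor <;> linarith [r.2.1, r.2.2]),
        sp_two n z r, two_ne n z v r⟩
      continuous_toFun := by
        refine Continuous.subtype_mk ?_ _
        refine Continuous.prodMk (by fun_prop) ?_
        refine Continuous.add ?_ ?_
        · exact (continuous_single n).comp (by fun_prop)
        · exact (continuous_single z).comp (by fun_prop)
      source' := by
        apply Subtype.ext
        simp [vz]
      target' := by
        apply Subtype.ext
        have : (1 : ℝ) - |2 - 1| = 0 := by norm_num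
        simp [vz, this]
        norm_num }
  continuous_toFun := by
    refine Path.continuous_uncurry_iff.1 ?_
    refine Continuous.subtype_mk ?_ _
    refine Continuous.prodMk ?_ ?_
    · fun_prop
    · refine Continuous.add ?_ ?_
      · exact (continuous_single n).comp (by fun_prop)
      · exact (continuous_single z).comp (by fun_prop)

end

section action

variable {G : Type} [Group G] {P Q Z : Type} [DecidableEq P] [DecidableEq Q] [DecidableEq Z]
  [MulAction G P] [MulAction G Q] [MulAction G Z]

/-- action on the graph -/
def act (g : G) : C(K P Q, K P Q) where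
  toFun v := ⟨(fun A => v.1.1 (g⁻¹ • A), fun C => v.1.2 (g⁻¹ • C)),
    v.2.1.comp (MulAction.injective _), v.2.2.1.comp (MulAction.injective _), by
      intro h
      apply v.2.2.2
      have h1 := congrArg Prod.fst h
      have h2 := congrArg Prod.snd h
      refine Prod.ext (funext fun A => ?_) (funext fun C => ?_)
      · have := congrFun h1 (g • A)
        simpa using this
      · have := congrFun h2 (g • C)
        simpa using this⟩
  continuous_toFun := by
    refine Continuous.subtype_mk ?_ _
    fun_prop

/-- action on the join -/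
def actU (g : G) : C(U P Q Z, U P Q Z) where
  toFun x := ⟨((fun A => x.1.1.1 (g⁻¹ • A), fun C => x.1.1.2 (g⁻¹ • C)),
      fun z => x.1.2 (g⁻¹ • z)),
    x.2.1.comp (MulAction.injective _), x.2.2.1.comp (MulAction.injective _),
      x.2.2.2.1.comp (MulAction.injective _), by
      intro h
      apply x.2.2.2.2
      have h1 := congrArg (fun x => x.1.1) h
      have h2 := congrArg (fun x => x.1.2) h
      have h3 := congrArg Prod.snd h
      refine Prod.ext (Prod.ext (funext fun A => ?_) (funext fun C => ?_)) (funext fun z => ?_)
      · have := congrFun h1 (g • A)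
        simpa using this
      · have := congrFun h2 (g • C)
        simpa using this
      · have := congrFun h3 (g • z)
        simpa using this⟩
  continuous_toFun := by
    refine Continuous.subtype_mk ?_ _
    fun_prop

theorem actU_mul (g h : G) (x : U P Q Z) : actU (g * h) x = actU g (actU h x) := by
  apply Subtype.ext
  simp [actU, mul_smul]

theorem act_mul (g h : G) (x : K P Q) : act (g * h) x = act g (act h x) := by
  apply Subtype.ext
  simp [act, mul_smul]

theorem actU_one (x : U P Q Z) : actU (1 : G) x = x := by
  apply Subtype.ext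
  simp [actU]

theorem single_smul {α : Type} [DecidableEq α] [MulAction G α] (g : G) (a : α) (r : ℝ) :
    (fun b => (Pi.single a r : α → ℝ) (g⁻¹ • b)) = Pi.single (g • a) r := by
  funext b
  by_cases h : b = g • a
  · subst h; simp
  · rw [Pi.single_eq_of_ne h, Pi.single_eq_of_ne]
    intro h2
    apply h
    rw [← h2]
    simp

theorem act_e (g : G) (v : P ⊕ Q) : act g (e v) = e (g • v) := by
  apply Subtype.ext
  rcases v with A | C
  · simp only [act, e, ContinuousMap.coe_mk, Sum.smul_inl]
    refine Prod.ext ?_ rfl
    exact single_smul g A 1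
  · simp only [act, e, ContinuousMap.coe_mk, Sum.smul_inr]
    refine Prod.ext rfl ?_
    exact single_smul g C 1

/-- translate of a path -/
def pact (g : G) {v w : P ⊕ Q} (γ : Path (e v : K P Q) (e w)) : Path (e (g • v) : K P Q)
    (e (g • w)) :=
  (γ.map (act g).continuous).cast (act_e g v).symm (act_e g w).symm

theorem pact_apply (g : G) {v w : P ⊕ Q} (γ : Path (e v : K P Q) (e w)) (t : I) :
    pact g γ t = act g (γ t) := rfl

/-- translate of a chain -/
def cact (g : G) (c : P × Q → ℤ) : P × Q → ℤ := fun a => c (g⁻¹ • a.1, g⁻¹ • a.2)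

theorem hasChain_pact (g : G) {v w : P ⊕ Q} {γ : Path (e v : K P Q) (e w)} {c : P × Q → ℤ}
    (h : HasChain seg γ c) : HasChain seg (pact g γ) (cact g c) := by
  induction h with
  | refl v =>
    have h1 : pact g (Path.refl (e v : K P Q)) = Path.refl (e (g • v)) := by
      refine Path.ext (funext fun t => ?_)
      simp only [pact_apply, Path.refl_apply]
      rw [act_e]
    have h2 : cact g (0 : P × Q → ℤ) = 0 := rfl
    rw [h1, h2]
    exact HasChain.refl _
  | edge A C =>
    have h1 : pact g (seg A C : Path (e (Sum.inl A) : K P Q) (e (Sum.inr C))) =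
        seg (g • A) (g • C) := by
      refine Path.ext (funext fun t => ?_)
      rw [pact_apply]
      apply Subtype.ext
      simp only [act, seg, ContinuousMap.coe_mk, Path.coe_mk_mk]
      exact Prod.ext (single_smul g A _) (single_smul g C _)
    have h2 : cact g (Pi.single (A, C) 1 : P × Q → ℤ) = Pi.single (g • A, g • C) 1 := by
      funext a
      simp only [cact]
      by_cases h : a = (g • A, g • C)
      · subst h; simp
      · rw [Pi.single_eq_of_ne h, Pi.single_eq_of_ne]
        intro h2
        apply h
        have h3 := congrArg Prod.fst h2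
        have h4 := congrArg Prod.snd h2
        refine Prod.ext ?_ ?_
        · simp only at h3 ⊢
          rw [← h3]; simp
        · simp only at h4 ⊢
          rw [← h4]; simp
    rw [h1, h2]
    exact HasChain.edge _ _
  | @symm v w γ c h ih =>
    have h1 : pact g γ.symm = (pact g γ).symm := by
      refine Path.ext (funext fun t => ?_)
      rfl
    have h2 : cact g (-c) = -cact g c := rfl
    rw [h1, h2]
    exact HasChain.symm ih
  | @trans u v w γ δ c d h1 h2 ih1 ih2 =>
    have h1 : pact g (γ.trans δ) = (pact g γ).trans (pact g δ) := by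
      refine Path.ext (funext fun t => ?_)
      simp only [pact_apply, Path.trans_apply]
      split_ifs <;> rfl
    have h2 : cact g (c + d) = cact g c + cact g d := rfl
    rw [h1, h2]
    exact HasChain.trans ih1 ih2

theorem hasChain_cast {v w w' : P ⊕ Q} {γ : Path (e v : K P Q) (e w)} {c : P × Q → ℤ}
    (h : HasChain seg γ c) (hw : w' = w) :
    HasChain seg (γ.cast rfl (congrArg e hw)) c := by
  subst hw
  exact h

end action

end Pool.Agent.H57.Null
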