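import Mathlib
import Pool.Agent.H57.Null

set_option autoImplicit false
set_option linter.unusedSectionVars false

/-!
# The equivariant map from a fourfold join, continued
-/

namespace Pool.Agent.H57.Null

open unitInterval ContinuousMap Path.Homotopic Pool.Agent.H57.Chain

section main

variable {G : Type} [Group G] {P Q Z : Type} [Fintype P] [Fintype Q]
  [DecidableEq P] [DecidableEq Q] [DecidableEq Z]
  [MulAction G P] [MulAction G Q] [MulAction G Z]

theorem actU_S (n : Z) (u : G) (z : Z) (v : K P Q) (s : I) (hs : 1 / 2 ≤ (s : ℝ)) :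
    actU u (S n z v s) = S n (u • z) (act u v) s := by
  apply Subtype.ext
  have h : max (1 - 2 * (s : ℝ)) 0 = 0 := max_eq_right (by linarith)
  simp only [actU, S, act, ContinuousMap.coe_mk, Path.coe_mk_mk, h, Pi.single_zero, zero_add,
    single_smul]
  rfl

theorem S_indep (n z z' : Z) (v : K P Q) (s : I) (hs : (s : ℝ) ≤ 1 / 2) :
    S n z v s = S n z' v s := by
  apply Subtype.ext
  have h : max (2 * (s : ℝ) - 1) 0 = 0 := max_eq_right (by linarith)
  simp only [S, ContinuousMap.coe_mk, Path.coe_mk_mk, h, Pi.single_zero]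

/-- the basic chain -/
def c0 (μ : Q → P) : P × Q → ℤ := fun a => if a.1 = μ a.2 then 1 else 0

theorem exists_lam (p0 : P) (q0 : Q) (μ : Q → P) (hμ : Function.Injective μ)
    (hμ' : ∀ A, A ≠ p0 ↔ ∃ C, μ C = A) (g : G) :
    ∃ γ : Path (e (Sum.inl p0) : K P Q) (e (Sum.inl (g • p0))),
      HasChain seg γ (cact g (c0 μ) - c0 μ) := by
  refine exists_path_chain seg p0 (g • p0) q0 _ ?_ ?_
  · intro C
    simp only [Pi.sub_apply, Finset.sum_sub_distrib, cact, c0]
    rw [sub_eq_zero]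
    have h := Equiv.sum_comp (MulAction.toPerm g⁻¹ : Equiv.Perm P)
      (fun A => if A = μ (g⁻¹ • C) then (1 : ℤ) else 0)
    simp only [MulAction.toPerm_apply] at h
    rw [h]
    simp
  · intro A
    have hr : ∀ A, ∑ C, c0 μ (A, C) = if A = p0 then 0 else 1 := by
      intro A
      simp only [c0]
      by_cases hA : A = p0
      · rw [if_pos hA]
        refine Finset.sum_eq_zero fun C _ => ?_
        rw [if_neg]
        intro h
        exact (hμ' A).2 ⟨C, h.symm⟩ hA
      · rw [if_neg hA]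
        obtain ⟨C, hC⟩ := (hμ' A).1 hA
        rw [Finset.sum_eq_single C]
        · rw [if_pos hC.symm]
        · intro C' _ hC'
          rw [if_neg]
          intro h
          exact hC' (hμ (h.symm.trans hC.symm))
        · simp
    simp only [Pi.sub_apply, Finset.sum_sub_distrib]
    have h := Equiv.sum_comp (MulAction.toPerm g⁻¹ : Equiv.Perm Q)
      (fun C => c0 μ (g⁻¹ • A, C))
    simp only [MulAction.toPerm_apply] at h
    have h2 : ∑ C, cact g (c0 μ) (A, C) = ∑ C, c0 μ (g⁻¹ • A, C) := h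
    rw [h2, hr, hr]
    have h3 : g⁻¹ • A = p0 ↔ A = g • p0 := by
      rw [inv_smul_eq_iff]
    by_cases h4 : A = g • p0
    · rw [if_pos (h3.2 h4), if_pos h4]
      by_cases h5 : A = p0
      · rw [if_pos h5, if_pos h5]
        norm_num
      · rw [if_neg h5, if_neg h5]
    · rw [if_neg (fun h => h4 (h3.1 h)), if_neg h4]
      by_cases h5 : A = p0
      · rw [if_pos h5, if_pos h5]
      · rw [if_neg h5, if_neg h5]
        norm_num

variable {p0 : P} (lam : ∀ g : G, Path (e (Sum.inl p0) : K P Q) (e (Sum.inl (g • p0))))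

/-- the composite path -/
noncomputable def cmp (g h : G) : Path (e (Sum.inl p0) : K P Q) (e (Sum.inl (h • p0))) :=
  (lam g).trans ((pact g (lam (g⁻¹ * h))).cast rfl
    (congrArg e (by rw [Sum.smul_inl, smul_smul, mul_inv_cancel_left])))

theorem hasChain_cmp (μ : Q → P)
    (hlam : ∀ g : G, HasChain seg (lam g) (cact g (c0 μ) - c0 μ)) (g h : G) :
    HasChain seg (cmp lam g h) (cact h (c0 μ) - c0 μ) := by
  have h1 := hasChain_pact g (hlam (g⁻¹ * h))
  have h2 := hasChain_cast (w' := Sum.inl (h • p0)) h1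
    (by rw [Sum.smul_inl, smul_smul, mul_inv_cancel_left])
  have h3 := (hlam g).trans h2
  have h4 : cact g (c0 μ) - c0 μ + cact g (cact (g⁻¹ * h) (c0 μ) - c0 μ) =
      cact h (c0 μ) - c0 μ := by
    funext a
    simp only [cact, Pi.add_apply, Pi.sub_apply, smul_smul, mul_inv_rev, inv_inv]
    rw [mul_assoc]
    simp
  rw [h4] at h3
  exact h3

/-- clamping to the unit interval -/
noncomputable def pI (x : ℝ) : I := Set.projIcc 0 1 zero_le_one x

@[fun_prop]
theorem continuous_pI : Continuous pI := continuous_projIcc (h := zero_le_one)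

theorem pI_of_le_zero {x : ℝ} (h : x ≤ 0) : pI x = 0 := Set.projIcc_of_le_left _ h

theorem pI_of_one_le {x : ℝ} (h : 1 ≤ x) : pI x = 1 := Set.projIcc_of_right_le _ h

theorem pI_coe {x : ℝ} (h0 : 0 ≤ x) (h1 : x ≤ 1) : ((pI x : I) : ℝ) = x := by
  unfold pI
  rw [Set.projIcc_of_mem _ ⟨h0, h1⟩]

theorem pI_eq {x : ℝ} (h0 : 0 ≤ x) (h1 : x ≤ 1) : pI x = ⟨x, h0, h1⟩ := by
  unfold pI
  rw [Set.projIcc_of_mem _ ⟨h0, h1⟩]

theorem cmp_left (g h : G) {v : ℝ} (h0 : 0 ≤ v) (h1 : v ≤ 1) :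
    cmp lam g h (pI (v / 2)) = lam g (pI v) := by
  have h2 : ((pI (v / 2) : I) : ℝ) = v / 2 := pI_coe (by linarith) (by linarith)
  rw [cmp, Path.trans_apply, dif_pos (by rw [h2]; linarith)]
  congr 1
  ext
  rw [pI_coe h0 h1]
  simp only [h2]
  ring

theorem cmp_right (g h : G) {v : ℝ} (h0 : 0 ≤ v) (h1 : v ≤ 1) :
    cmp lam g h (pI ((1 + v) / 2)) = act g (lam (g⁻¹ * h) (pI v)) := by
  have h2 : ((pI ((1 + v) / 2) : I) : ℝ) = (1 + v) / 2 := pI_coe (by linarith) (by linarith)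
  rcases h0.eq_or_lt with h3 | h3
  · have h4 := cmp_left lam g h (v := 1) zero_le_one le_rfl
    subst h3
    rw [add_zero, h4, pI_of_one_le le_rfl, pI_of_le_zero le_rfl, Path.source, Path.target, act_e]
    rfl
  · rw [cmp, Path.trans_apply, dif_neg (by rw [h2]; linarith), Path.cast_coe, pact_apply]
    congr 2
    ext
    rw [pI_coe h0 h1]
    simp only [h2]
    ring

variable (n : Z)
  (F : ∀ (g h : G) (z : Z), Path.Homotopy ((cmp lam g h).map (S n z).continuous)
    ((lam h).map (S n z).continuous))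

/-- clamp as a real number -/
noncomputable def cl (x : ℝ) : ℝ := max 0 (min 1 x)

@[fun_prop]
theorem continuous_cl : Continuous cl := by unfold cl; fun_prop

theorem cl_nonneg (x : ℝ) : 0 ≤ cl x := le_max_left _ _

theorem cl_le_one (x : ℝ) : cl x ≤ 1 := max_le zero_le_one (min_le_left _ _)

theorem cl_of_le {x : ℝ} (h : x ≤ 0) : cl x = 0 := by
  unfold cl
  rw [max_eq_left]
  exact (min_le_right _ _).trans h

theorem cl_of_ge {x : ℝ} (h : 1 ≤ x) : cl x = 1 := by
  unfold cl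
  rw [min_eq_left h, max_eq_right zero_le_one]

/-- the null homotopy -/
noncomputable def NN (z0 : Z) (g h k : G) (a0 a1 a2 θ : ℝ) : U P Q Z :=
  F g h (k • z0)
    (pI (cl ((1 + a1 - a0) / 2) * min 1 (2 - 2 * cl (2 - θ))),
      pI (min 1 (2 * cl (2 - θ)) * (1 + cl ((1 + a1 - a0) / 2)) / 2))
    (pI ((1 + a2 * (1 + min θ 1) - min θ 1) / 2 * min 1 (3 - θ)))

/-- path valued slice of a homotopy -/
theorem F_zero (g h : G) (z : Z) (x : I) :
    F g h z (0, x) = S n z (cmp lam g h x) := (F g h z).apply_zero x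

theorem F_one (g h : G) (z : Z) (x : I) :
    F g h z (1, x) = S n z (lam h x) := (F g h z).apply_one x

theorem NN_three (z0 : Z) (g h k : G) (a0 a1 a2 : ℝ) :
    NN lam n F z0 g h k a0 a1 a2 3 = vz n := by
  unfold NN
  rw [pI_of_le_zero (x := _ * min 1 ((3 : ℝ) - 3)) (by norm_num)]
  exact Path.source _

theorem NN_zero (z0 : Z) (g h k : G) (a0 a1 a2 : ℝ) :
    NN lam n F z0 g h k a0 a1 a2 0 =
      S n (k • z0) (act g (lam (g⁻¹ * h) (pI (cl ((1 + a1 - a0) / 2))))) (pI ((1 + a2) / 2)) := by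
  unfold NN
  have h1 : cl ((2 : ℝ) - 0) = 1 := cl_of_ge (by norm_num)
  have h2 : min (1 : ℝ) (2 - 2 * 1) = 0 := by norm_num
  have h3 : min (1 : ℝ) (2 * 1) = 1 := by norm_num
  have h4 : min (0 : ℝ) 1 = 0 := by norm_num
  have h5 : min (1 : ℝ) (3 - 0) = 1 := by norm_num
  rw [h1, h2, h3, h4, h5, mul_zero, one_mul, pI_of_le_zero (x := 0) le_rfl, F_zero,
    cmp_right lam g h (cl_nonneg _) (cl_le_one _)]
  congr 2
  ring

theorem NN_equiv (z0 : Z) (u g h k : G) (a0 a1 a2 : ℝ) (h0 : 0 ≤ a2) :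
    NN lam n F z0 (u * g) (u * h) (u * k) a0 a1 a2 0 =
      actU u (NN lam n F z0 g h k a0 a1 a2 0) := by
  rw [NN_zero, NN_zero, actU_S]
  · rw [← act_mul]
    have h1 : (u * g)⁻¹ * (u * h) = g⁻¹ * h := by group
    rw [h1, mul_smul]
  · rcases le_total ((1 + a2) / 2) 1 with h1 | h1
    · rw [pI_coe (by linarith) h1]
      linarith
    · rw [pI_of_one_le h1]
      norm_num

theorem NN_indep_k (z0 : Z) (g h k k' : G) (a0 a1 θ : ℝ) (h0 : 0 ≤ θ) :
    NN lam n F z0 g h k a0 a1 0 θ = NN lam n F z0 g h k' a0 a1 0 θ := by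
  unfold NN
  rcases le_total 1 θ with h1 | h1
  · have h2 : ((1 : ℝ) + 0 * (1 + min θ 1) - min θ 1) / 2 * min 1 (3 - θ) = 0 := by
      rw [min_eq_right h1]; ring
    rw [h2, pI_of_le_zero (x := 0) le_rfl]
    rw [Path.source, Path.source]
  · have h2 : cl (2 - θ) = 1 := cl_of_ge (by linarith)
    have h3 : min (1 : ℝ) (2 - 2 * 1) = 0 := by norm_num
    rw [h2, h3, mul_zero, pI_of_le_zero (x := 0) le_rfl, F_zero, F_zero]
    refine S_indep _ _ _ _ _ ?_
    rw [min_eq_left h1, min_eq_left (by linarith), pI_coe]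
    · linarith
    · linarith
    · linarith

theorem NN_two_one (z0 : Z) (g h g' h' k : G) (a0 a1 θ : ℝ) :
    NN lam n F z0 g h k a0 a1 1 θ = NN lam n F z0 g' h' k a0 a1 1 θ := by
  unfold NN
  have h4 : ((1 : ℝ) + 1 * (1 + min θ 1) - min θ 1) / 2 * min 1 (3 - θ) = min 1 (3 - θ) := by
    ring
  rw [h4]
  rcases le_total θ 2 with h1 | h1
  · rw [min_eq_left (a := 1) (b := 3 - θ) (by linarith), pI_of_one_le (x := 1) le_rfl, Path.target,
      Path.target]
  · have h2 : cl (2 - θ) = 0 := cl_of_le (by linarith)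
    rw [h2]
    have h5 : min (1 : ℝ) (2 * 0) * (1 + cl ((1 + a1 - a0) / 2)) / 2 = 0 := by
      rw [mul_zero, min_eq_right zero_le_one]; ring
    rw [h5, pI_of_le_zero (x := 0) le_rfl, Path.Homotopy.source, Path.Homotopy.source]

theorem NN_indep_h (z0 : Z) (g h h' k : G) (a0 a2 θ : ℝ)
    (ha : a0 = 1 ∨ a2 = 1) :
    NN lam n F z0 g h k a0 0 a2 θ = NN lam n F z0 g h' k a0 0 a2 θ := by
  rcases ha with rfl | rfl
  · unfold NN
    have h2 : cl ((1 + 0 - 1) / 2) = 0 := cl_of_le (by norm_num)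
    rw [h2, zero_mul, pI_of_le_zero (x := 0) le_rfl, F_zero, F_zero, add_zero, mul_one,
      cmp_left, cmp_left]
    · exact le_min zero_le_one (mul_nonneg zero_le_two (cl_nonneg _))
    · exact min_le_left _ _
    · exact le_min zero_le_one (mul_nonneg zero_le_two (cl_nonneg _))
    · exact min_le_left _ _
  · exact NN_two_one lam n F z0 g h g h' k a0 0 θ

theorem NN_indep_g (z0 : Z) (g g' h k : G) (a1 a2 θ : ℝ)
    (ha : a1 = 1 ∨ a2 = 1) :
    NN lam n F z0 g h k 0 a1 a2 θ = NN lam n F z0 g' h k 0 a1 a2 θ := by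
  rcases ha with rfl | rfl
  · unfold NN
    have h2 : cl ((1 + 1 - 0) / 2) = 1 := cl_of_ge (by norm_num)
    rw [h2, one_mul]
    rcases le_total (cl (2 - θ)) (1 / 2) with h4 | h4
    · rw [min_eq_left (by linarith), pI_of_one_le (x := 1) le_rfl, F_one, F_one]
    · rw [min_eq_left (a := 1) (b := 2 * cl (2 - θ)) (by linarith)]
      have h5 : (1 : ℝ) * (1 + 1) / 2 = 1 := by norm_num
      rw [h5, pI_of_one_le (x := 1) le_rfl, Path.Homotopy.target, Path.Homotopy.target]
  · exact NN_two_one lam n F z0 g h g' h k 0 a1 θ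

theorem continuous_NN (z0 : Z) (g h k : G) {A : Type} [TopologicalSpace A]
    {a0 a1 a2 θ : A → ℝ} (h0 : Continuous a0) (h1 : Continuous a1) (h2 : Continuous a2)
    (h3 : Continuous θ) :
    Continuous (fun x => NN lam n F z0 g h k (a0 x) (a1 x) (a2 x) (θ x)) := by
  unfold NN
  have hF : Continuous (F g h (k • z0)) := (F g h (k • z0)).continuous
  refine Continuous.eval (hF.comp ?_) ?_
  · fun_prop
  · fun_prop

/-- The equivariant family on the fourfold join. -/
theorem exists_family (p0 : P) (q0 : Q) (z0 n : Z) (μ : Q → P) (hμ : Function.Injective μ)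
    (hμ' : ∀ A, A ≠ p0 ↔ ∃ C, μ C = A) :
    ∃ f : (Fin 4 → G) → (Fin 4 → ℝ) → U P Q Z,
      (∀ g, Continuous (f g)) ∧
      (∀ (h : G) (g : Fin 4 → G) (a : Fin 4 → ℝ), (∀ i, 0 ≤ a i) →
        f (fun i => h * g i) a = actU h (f g a)) ∧
      (∀ a : Fin 4 → ℝ, (∀ i, 0 ≤ a i) → (∀ i, a i ≤ 1) → (∃ i, a i = 1) →
        ∀ g g' : Fin 4 → G, (∀ i, a i ≠ 0 → g i = g' i) → f g a = f g' a) := by
  choose lam hlam using exists_lam (G := G) p0 q0 μ hμ hμ'
  have hF : ∀ (g h : G) (z : Z), Nonempty (Path.Homotopy ((cmp lam g h).map (S n z).continuous)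
      ((lam h).map (S n z).continuous)) := by
    intro g h z
    exact homotopic_of_chain seg p0 q0 (S n z) (fun a b => EH.path_comm _ a b)
      (hasChain_cmp lam μ hlam g h) (hlam h)
  let F := fun (g h : G) (z : Z) => Classical.choice (hF g h z)
  let N := NN lam n F z0
  let f4 : G → G → G → G → (Fin 4 → ℝ) → U P Q Z := fun g0 g1 g2 g3 a =>
    actU g3 (N (g3⁻¹ * g0) (g3⁻¹ * g1) (g3⁻¹ * g2) (a 0) (a 1) (a 2) (3 * a 3))
  refine ⟨fun g a => f4 (g 0) (g 1) (g 2) (g 3) a, ?_, ?_, ?_⟩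
  · intro g
    refine (actU (g 3)).continuous.comp ?_
    exact continuous_NN lam n F z0 _ _ _ (by fun_prop) (by fun_prop) (by fun_prop) (by fun_prop)
  · intro h g a _
    simp only [f4]
    rw [actU_mul]
    simp only [mul_inv_rev, mul_assoc, inv_mul_cancel_left]
  · intro a ha0 ha1 hex g g' hgg
    have k3 : ∀ g0 g1 g2 g3 g3', a 3 = 0 → f4 g0 g1 g2 g3 a = f4 g0 g1 g2 g3' a := by
      have : ∀ g0 g1 g2 g3, a 3 = 0 → f4 g0 g1 g2 g3 a = N g0 g1 g2 (a 0) (a 1) (a 2) 0 := by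
        intro g0 g1 g2 g3 h3
        simp only [f4, N]
        rw [h3, mul_zero, ← NN_equiv lam n F z0 g3 _ _ _ _ _ _ (ha0 2)]
        simp only [mul_inv_cancel_left]
      intro g0 g1 g2 g3 g3' h3
      rw [this _ _ _ _ h3, this _ _ _ _ h3]
    have k2 : ∀ g0 g1 g2 g2' g3, a 2 = 0 → f4 g0 g1 g2 g3 a = f4 g0 g1 g2' g3 a := by
      intro g0 g1 g2 g2' g3 h2
      simp only [f4, N]
      rw [h2]
      congr 1
      exact NN_indep_k lam n F z0 _ _ _ _ _ _ _ (by have := ha0 3; positivity)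
    have k1 : ∀ g0 g1 g1' g2 g3, a 1 = 0 → f4 g0 g1 g2 g3 a = f4 g0 g1' g2 g3 a := by
      intro g0 g1 g1' g2 g3 h1
      simp only [f4, N]
      congr 1
      by_cases h3 : a 3 = 1
      · rw [h3, mul_one, NN_three, NN_three]
      · rw [h1]
        refine NN_indep_h lam n F z0 _ _ _ _ _ _ _ ?_
        obtain ⟨i, hi⟩ := hex
        fin_cases i
        · exact Or.inl hi
        · exfalso
          simp only [Fin.mk_one] at hi
          rw [h1] at hi
          exact zero_ne_one hi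
        · exact Or.inr hi
        · exact absurd hi h3
    have k0 : ∀ g0 g0' g1 g2 g3, a 0 = 0 → f4 g0 g1 g2 g3 a = f4 g0' g1 g2 g3 a := by
      intro g0 g0' g1 g2 g3 h1
      simp only [f4, N]
      congr 1
      by_cases h3 : a 3 = 1
      · rw [h3, mul_one, NN_three, NN_three]
      · rw [h1]
        refine NN_indep_g lam n F z0 _ _ _ _ _ _ _ ?_
        obtain ⟨i, hi⟩ := hex
        fin_cases i
        · exfalso
          simp only [Fin.zero_eta] at hi
          rw [h1] at hi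
          exact zero_ne_one hi
        · exact Or.inl hi
        · exact Or.inr hi
        · exact absurd hi h3
    have s0 : f4 (g 0) (g 1) (g 2) (g 3) a = f4 (g' 0) (g 1) (g 2) (g 3) a := by
      by_cases h : a 0 = 0
      · exact k0 _ _ _ _ _ h
      · rw [hgg 0 h]
    have s1 : f4 (g' 0) (g 1) (g 2) (g 3) a = f4 (g' 0) (g' 1) (g 2) (g 3) a := by
      by_cases h : a 1 = 0
      · exact k1 _ _ _ _ _ h
      · rw [hgg 1 h]
    have s2 : f4 (g' 0) (g' 1) (g 2) (g 3) a = f4 (g' 0) (g' 1) (g' 2) (g 3) a := by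
      by_cases h : a 2 = 0
      · exact k2 _ _ _ _ _ h
      · rw [hgg 2 h]
    have s3 : f4 (g' 0) (g' 1) (g' 2) (g 3) a = f4 (g' 0) (g' 1) (g' 2) (g' 3) a := by
      by_cases h : a 3 = 0
      · exact k3 _ _ _ _ _ h
      · rw [hgg 3 h]
    simp only
    rw [s0, s1, s2, s3]

end main

end Pool.Agent.H57.Null
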