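import Mathlib
import Pool.Agent.H57.Null2

set_option autoImplicit false
set_option linter.unusedSectionVars false

/-!
# The linear map and the full test family
-/

namespace Pool.Agent.H57.Lin

open Pool.Agent.H57.Null
open scoped Pointwise

/-- the group -/
abbrev G : Type := Equiv.Perm (Fin 6)

/-- sets of size one or two -/
def P : Type := {s : Finset (Fin 6) // s.card = 1 ∨ s.card = 2}

/-- sets of size three -/
def Q : Type := {s : Finset (Fin 6) // s.card = 3}

instance : DecidableEq P := inferInstanceAs (DecidableEq {s : Finset (Fin 6) // s.card = 1 ∨ s.card = 2})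
instance : Fintype P := inferInstanceAs (Fintype {s : Finset (Fin 6) // s.card = 1 ∨ s.card = 2})
instance : DecidableEq Q := inferInstanceAs (DecidableEq {s : Finset (Fin 6) // s.card = 3})
instance : Fintype Q := inferInstanceAs (Fintype {s : Finset (Fin 6) // s.card = 3})

instance : MulAction G P where
  smul g A := ⟨g • A.1, by rw [Finset.card_smul_finset]; exact A.2⟩
  one_smul A := Subtype.ext (one_smul G A.1)
  mul_smul g h A := Subtype.ext (mul_smul g h A.1)

instance : MulAction G Q where
  smul g A := ⟨g • A.1, by rw [Finset.card_smul_finset]; exact A.2⟩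
  one_smul A := Subtype.ext (one_smul G A.1)
  mul_smul g h A := Subtype.ext (mul_smul g h A.1)

theorem mem_smul_P (g : G) (A : P) (j : Fin 6) : g j ∈ (g • A).1 ↔ j ∈ A.1 := by
  have : (g • A).1 = g • A.1 := rfl
  rw [this, ← Finset.smul_mem_smul_finset_iff g (s := A.1)]
  rfl

theorem mem_smul_Q (g : G) (A : Q) (j : Fin 6) : g j ∈ (g • A).1 ↔ j ∈ A.1 := by
  have : (g • A).1 = g • A.1 := rfl
  rw [this, ← Finset.smul_mem_smul_finset_iff g (s := A.1)]
  rfl

theorem card_P : Fintype.card P = 21 := by decide +kernel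
theorem card_Q : Fintype.card Q = 20 := by decide +kernel

/-- the second coordinate of the linear map -/
noncomputable def sec (yP : P → ℝ) (yQ : Q → ℝ) (yS : Fin 8 → Fin 6 → ℝ) (j : Fin 6) : ℝ :=
  (∑ i : Fin 8, (2 : ℝ) ^ (i : ℕ) * yS i j) - (∑ A : P, if j ∈ A.1 then yP A else 0) +
    ∑ C : Q, if j ∈ C.1 then yQ C else 0

theorem sidon : ∀ a b c d : Fin 8, 2 ^ (a : ℕ) + 2 ^ (d : ℕ) = 2 ^ (b : ℕ) + 2 ^ (c : ℕ) →
    a = b ∨ a = c := by
  decide +kernel

theorem exists_of_sp {α : Type} [Nonempty α] {x : α → ℝ} (hx : Sp x) :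
    ∃ a, ∀ b, b ≠ a → x b = 0 := by
  by_cases h : ∃ a, x a ≠ 0
  · obtain ⟨a, ha⟩ := h
    refine ⟨a, fun b hb => ?_⟩
    rcases hx.2 b a hb with h | h
    · exact h
    · exact absurd h ha
  · push Not at h
    exact ⟨Classical.arbitrary α, fun b _ => h b⟩

instance : Nonempty P := ⟨⟨{0}, Or.inl rfl⟩⟩
instance : Nonempty Q := ⟨⟨{0, 1, 2}, rfl⟩⟩

theorem nonconst (yP : P → ℝ) (yQ : Q → ℝ) (yS : Fin 8 → Fin 6 → ℝ) (hP : Sp yP) (hQ : Sp yQ)
    (hS : ∀ i, Sp (yS i)) (hne : yP ≠ 0 ∨ yQ ≠ 0 ∨ yS ≠ 0) :
    ¬ ∃ w v : ℝ, ∀ j, (∑ i, yS i j = w ∧ sec yP yQ yS j = v) := by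
  rintro ⟨w, v, hwv⟩
  obtain ⟨A, hA⟩ := exists_of_sp hP
  obtain ⟨C, hC⟩ := exists_of_sp hQ
  have hsec : ∀ j, sec yP yQ yS j = (∑ i : Fin 8, (2 : ℝ) ^ (i : ℕ) * yS i j) -
      (if j ∈ A.1 then yP A else 0) + (if j ∈ C.1 then yQ C else 0) := by
    intro j
    unfold sec
    congr 1
    · congr 1
      refine Finset.sum_eq_single A ?_ (by simp)
      intro b _ hb
      simp [hA b hb]
    · refine Finset.sum_eq_single C ?_ (by simp)
      intro b _ hb
      simp [hC b hb]
  have hw0 : 0 ≤ w := by
    rw [← (hwv 0).1]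
    exact Finset.sum_nonneg fun i _ => (hS i).1 _
  rcases hw0.eq_or_lt with hw | hw
  · -- weight zero
    have hS0 : ∀ i j, yS i j = 0 := by
      intro i j
      have h := (hwv j).1
      rw [← hw] at h
      exact (Finset.sum_eq_zero_iff_of_nonneg (fun i _ => (hS i).1 _)).1 h i (Finset.mem_univ _)
    have h2 : ∀ j, -(if j ∈ A.1 then yP A else 0) + (if j ∈ C.1 then yQ C else 0) = v := by
      intro j
      have h := (hwv j).2
      rw [hsec] at h
      simp only [hS0, mul_zero, Finset.sum_const_zero, zero_sub] at h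
      exact h
    have hAc : A.1.card ≤ 2 := by rcases A.2 with h | h <;> omega
    have hA1 : 1 ≤ A.1.card := by rcases A.2 with h | h <;> omega
    have hCc : C.1.card = 3 := C.2
    obtain ⟨j0, hj0⟩ : ∃ j, j ∉ A.1 ∪ C.1 := by
      by_contra hcon
      push Not at hcon
      have h1 : A.1 ∪ C.1 = Finset.univ := Finset.eq_univ_iff_forall.2 hcon
      have h2 := Finset.card_union_le A.1 C.1
      rw [h1, Finset.card_univ, Fintype.card_fin] at h2
      omega
    obtain ⟨j1, hj1, hj1'⟩ : ∃ j ∈ C.1, j ∉ A.1 := by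
      by_contra hcon
      push Not at hcon
      have := Finset.card_le_card (show C.1 ⊆ A.1 from hcon)
      omega
    obtain ⟨j2, hj2⟩ : A.1.Nonempty := Finset.card_pos.1 (by omega)
    rw [Finset.mem_union, not_or] at hj0
    have e0 := h2 j0
    have e1 := h2 j1
    have e2 := h2 j2
    rw [if_neg hj0.1, if_neg hj0.2] at e0
    rw [if_neg hj1', if_pos hj1] at e1
    rw [if_pos hj2] at e2
    have hq : yQ C = 0 := by linarith
    have hp : yP A = 0 := by
      rw [hq] at e2
      simp only [ite_self] at e2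
      linarith
    rcases hne with h | h | h
    · apply h
      funext b
      by_cases hb : b = A
      · rw [hb, hp]; rfl
      · exact hA b hb
    · apply h
      funext b
      by_cases hb : b = C
      · rw [hb, hq]; rfl
      · exact hC b hb
    · apply h
      funext i j
      exact hS0 i j
  · -- positive weight
    classical
    let n : Fin 6 → ℕ := fun j => (Finset.univ.filter fun i => yS i j ≠ 0).card
    have hn1 : ∀ j, 1 ≤ n j := by
      intro j
      by_contra hcon
      have h0 : n j = 0 := by omega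
      have h1 := Finset.card_eq_zero.1 h0
      rw [Finset.filter_eq_empty_iff] at h1
      have h2 : ∑ i, yS i j = 0 := Finset.sum_eq_zero fun i hi => by
        have := h1 hi
        push Not at this
        exact this
      rw [(hwv j).1] at h2
      linarith
    have hn8 : ∑ j, n j ≤ 8 := by
      have h1 : ∑ j, n j = ∑ i : Fin 8, (Finset.univ.filter fun j => yS i j ≠ 0).card := by
        simp only [n, Finset.card_filter]
        exact Finset.sum_comm
      rw [h1]
      calc _ ≤ ∑ i : Fin 8, 1 := by
            refine Finset.sum_le_sum fun i _ => ?_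
            refine Finset.card_le_one.2 ?_
            intro a ha b hb
            rw [Finset.mem_filter] at ha hb
            by_contra hab
            rcases (hS i).2 a b hab with h | h
            · exact ha.2 h
            · exact hb.2 h
        _ = 8 := by simp
    let J : Finset (Fin 6) := Finset.univ.filter fun j => n j = 1
    have hJ : 4 ≤ J.card := by
      have h1 : ∑ j : Fin 6, (2 - if n j = 1 then 1 else 0) ≤ ∑ j, n j := by
        refine Finset.sum_le_sum fun j _ => ?_
        have := hn1 j
        split_ifs with h <;> omega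
      have h2 : ∑ j : Fin 6, (2 - if n j = 1 then 1 else 0) + J.card = 12 := by
        simp only [J, Finset.card_filter]
        rw [← Finset.sum_add_distrib]
        have : ∀ j : Fin 6, ((2 - if n j = 1 then 1 else 0) + if n j = 1 then 1 else 0) = 2 := by
          intro j
          split_ifs <;> rfl
        simp only [this]
        simp
      omega
    -- the single of a class
    have hex : ∀ j ∈ J, ∃ i, yS i j = w ∧ (∑ i : Fin 8, (2 : ℝ) ^ (i : ℕ) * yS i j) = 2 ^ (i : ℕ) * w := by
      intro j hj
      rw [Finset.mem_filter] at hj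
      obtain ⟨i, hi⟩ := Finset.card_eq_one.1 hj.2
      have hi0 : ∀ i', i' ≠ i → yS i' j = 0 := by
        intro i' hi'
        by_contra hcon
        have : i' ∈ Finset.univ.filter fun i => yS i j ≠ 0 := by simp [hcon]
        rw [hi, Finset.mem_singleton] at this
        exact hi' this
      have hw1 : yS i j = w := by
        have h5 : ∑ i, yS i j = yS i j :=
          Finset.sum_eq_single i (fun i' _ hi' => hi0 i' hi')
            (fun h => absurd (Finset.mem_univ i) h)
        rw [← (hwv j).1, h5]
      refine ⟨i, hw1, ?_⟩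
      rw [Finset.sum_eq_single i]
      · rw [hw1]
      · intro i' _ hi'
        rw [hi0 i' hi', mul_zero]
      · simp
    choose! ι hι1 hι2 using hex
    have hval : ∀ j ∈ J, 2 ^ (ι j : ℕ) * w - (if j ∈ A.1 then yP A else 0) +
        (if j ∈ C.1 then yQ C else 0) = v := by
      intro j hj
      rw [← hι2 j hj, ← hsec, (hwv j).2]
    have hιinj : ∀ j ∈ J, ∀ j' ∈ J, ι j = ι j' → j = j' := by
      intro j hj j' hj' h
      by_contra hne'
      rcases (hS (ι j)).2 j j' hne' with h1 | h1
      · rw [hι1 j hj] at h1; linarith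
      · rw [h, hι1 j' hj'] at h1; linarith
    have hpow : ∀ a b : Fin 8, (2 : ℝ) ^ (a : ℕ) * w = 2 ^ (b : ℕ) * w → a = b := by
      intro a b h
      have h1 := mul_right_cancel₀ hw.ne' h
      have h2 : (a : ℕ) = b := by
        exact pow_right_injective₀ (by norm_num : (0 : ℝ) < 2) (by norm_num) h1
      exact Fin.ext h2
    let τ : Fin 6 → Bool × Bool := fun j => (decide (j ∈ A.1), decide (j ∈ C.1))
    have hτ : Set.InjOn τ (J : Set (Fin 6)) := by
      intro j hj j' hj' h
      have h1 : (j ∈ A.1 ↔ j' ∈ A.1) := by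
        have := congrArg Prod.fst h
        simpa [τ] using this
      have h2 : (j ∈ C.1 ↔ j' ∈ C.1) := by
        have := congrArg Prod.snd h
        simpa [τ] using this
      have e1 := hval j hj
      have e2 := hval j' hj'
      simp only [h1, h2] at e1
      exact hιinj j hj j' hj' (hpow _ _ (by linarith))
    have himg : J.image τ = Finset.univ := by
      rw [← Finset.card_eq_iff_eq_univ]
      refine le_antisymm (Finset.card_le_univ _) ?_
      rw [Finset.card_image_of_injOn hτ]
      simpa using hJ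
    have hget : ∀ b c : Bool, ∃ j ∈ J, decide (j ∈ A.1) = b ∧ decide (j ∈ C.1) = c := by
      intro b c
      have : (b, c) ∈ J.image τ := by rw [himg]; exact Finset.mem_univ _
      obtain ⟨j, hj, hjj⟩ := Finset.mem_image.1 this
      exact ⟨j, hj, congrArg Prod.fst hjj, congrArg Prod.snd hjj⟩
    obtain ⟨a, ha, ha1, ha2⟩ := hget false false
    obtain ⟨b, hb, hb1, hb2⟩ := hget true false
    obtain ⟨c, hc, hc1, hc2⟩ := hget false true
    obtain ⟨d, hd, hd1, hd2⟩ := hget true true
    simp only [decide_eq_false_iff_not, decide_eq_true_eq] at ha1 ha2 hb1 hb2 hc1 hc2 hd1 hd2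
    have ea := hval a ha
    have eb := hval b hb
    have ec := hval c hc
    have ed := hval d hd
    rw [if_neg ha1, if_neg ha2] at ea
    rw [if_pos hb1, if_neg hb2] at eb
    rw [if_neg hc1, if_pos hc2] at ec
    rw [if_pos hd1, if_pos hd2] at ed
    have hsum : ((2 : ℝ) ^ (ι a : ℕ) + 2 ^ (ι d : ℕ)) * w = (2 ^ (ι b : ℕ) + 2 ^ (ι c : ℕ)) * w := by
      linarith
    have hsum2 := mul_right_cancel₀ hw.ne' hsum
    have hsum3 : 2 ^ (ι a : ℕ) + 2 ^ (ι d : ℕ) = 2 ^ (ι b : ℕ) + 2 ^ (ι c : ℕ) := by
      exact_mod_cast hsum2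
    rcases sidon _ _ _ _ hsum3 with h | h
    · have := hιinj a ha b hb h
      subst this
      exact ha1 hb1
    · have := hιinj a ha c hc h
      subst this
      exact ha2 hc2

end Pool.Agent.H57.Lin
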