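import Mathlib
import Pool.Agent.H57.Lin

set_option autoImplicit false
set_option linter.unusedSectionVars false

/-!
# The full equivariant family
-/

namespace Pool.Agent.H57.Lin

open Pool.Agent.H57.Null
open scoped Pointwise

/-- first four indices -/
def i4 (i : Fin 4) : Fin 11 := ⟨i.1, by omega⟩

/-- last seven indices -/
def i7 (i : Fin 7) : Fin 11 := ⟨i.1 + 4, by omega⟩

theorem i_cases (i : Fin 11) : (∃ k, i = i4 k) ∨ ∃ k, i = i7 k := by
  by_cases h : i.1 < 4
  · exact Or.inl ⟨⟨i.1, h⟩, rfl⟩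
  · refine Or.inr ⟨⟨i.1 - 4, by omega⟩, ?_⟩
    ext
    simp only [i7]
    omega

/-- the size of the first four coordinates -/
noncomputable def rho (a : Fin 11 → ℝ) : ℝ :=
  max (max (a (i4 0)) (a (i4 1))) (max (a (i4 2)) (a (i4 3)))

@[fun_prop]
theorem continuous_rho : Continuous rho := by unfold rho; fun_prop

theorem le_rho (a : Fin 11 → ℝ) (i : Fin 4) : a (i4 i) ≤ rho a := by
  unfold rho
  fin_cases i
  · exact le_max_of_le_left (le_max_left _ _)
  · exact le_max_of_le_left (le_max_right _ _)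
  · exact le_max_of_le_right (le_max_left _ _)
  · exact le_max_of_le_right (le_max_right _ _)

theorem exists_rho (a : Fin 11 → ℝ) : ∃ i : Fin 4, a (i4 i) = rho a := by
  unfold rho
  rcases max_choice (max (a (i4 0)) (a (i4 1))) (max (a (i4 2)) (a (i4 3))) with h | h
  · rcases max_choice (a (i4 0)) (a (i4 1)) with h2 | h2
    · exact ⟨0, by rw [h, h2]⟩
    · exact ⟨1, by rw [h, h2]⟩
  · rcases max_choice (a (i4 2)) (a (i4 3)) with h2 | h2
    · exact ⟨2, by rw [h, h2]⟩
    · exact ⟨3, by rw [h, h2]⟩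

section

variable (f : (Fin 4 → G) → (Fin 4 → ℝ) → U P Q (Fin 6))

/-- the part in the join of `P`, `Q`, `Z` -/
noncomputable def Psi (g : Fin 11 → G) (a : Fin 11 → ℝ) : ((P → ℝ) × (Q → ℝ)) × (Fin 6 → ℝ) :=
  max 0 (2 * rho a - 1) • (f (fun i => g (i4 i)) (fun i => a (i4 i) / max (rho a) (1 / 2))).1

/-- the singles -/
noncomputable def yS (g : Fin 11 → G) (a : Fin 11 → ℝ) : Fin 8 → Fin 6 → ℝ :=
  Fin.cases (Psi f g a).2 (fun i : Fin 7 => Pi.single (g (i7 i) 0) (a (i7 i)))

/-- the family -/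
noncomputable def FF (g : Fin 11 → G) (a : Fin 11 → ℝ) (j : Fin 6) : ℝ × ℝ :=
  (∑ i, yS f g a i j, sec (Psi f g a).1.1 (Psi f g a).1.2 (yS f g a) j)

theorem yS_zero (g : Fin 11 → G) (a : Fin 11 → ℝ) : yS f g a 0 = (Psi f g a).2 := rfl

theorem yS_succ (g : Fin 11 → G) (a : Fin 11 → ℝ) (i : Fin 7) :
    yS f g a i.succ = Pi.single (g (i7 i) 0) (a (i7 i)) := rfl

variable {f}

theorem continuous_Psi (hf : ∀ g, Continuous (f g)) (g : Fin 11 → G) :
    Continuous (Psi f g) := by
  unfold Psi
  have h1 : Continuous (fun a => max 0 (2 * rho a - 1)) := by fun_prop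
  refine h1.smul ?_
  refine continuous_subtype_val.comp ((hf _).comp ?_)
  refine continuous_pi fun i => ?_
  refine Continuous.div (by fun_prop) (by fun_prop) fun x => ?_
  have : (1 / 2 : ℝ) ≤ max (rho x) (1 / 2) := le_max_right _ _
  linarith

theorem continuous_yS (hf : ∀ g, Continuous (f g)) (g : Fin 11 → G) (i : Fin 8) :
    Continuous (fun a => yS f g a i) := by
  refine Fin.cases ?_ (fun i => ?_) i
  · simp only [yS_zero]
    exact continuous_snd.comp (continuous_Psi hf g)
  · simp only [yS_succ]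
    exact (continuous_single _).comp (by fun_prop)

theorem continuous_FF (hf : ∀ g, Continuous (f g)) (g : Fin 11 → G) (j : Fin 6) :
    Continuous (fun a => FF f g a j) := by
  have h1 : ∀ i, Continuous (fun a => yS f g a i j) := fun i =>
    (continuous_apply j).comp (continuous_yS hf g i)
  have h2 : ∀ A, Continuous (fun a => (Psi f g a).1.1 A) := fun A =>
    (continuous_apply A).comp (continuous_fst.comp (continuous_fst.comp (continuous_Psi hf g)))
  have h3 : ∀ C, Continuous (fun a => (Psi f g a).1.2 C) := fun C =>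
    (continuous_apply C).comp (continuous_snd.comp (continuous_fst.comp (continuous_Psi hf g)))
  unfold FF sec
  refine Continuous.prodMk (by fun_prop) ?_
  refine Continuous.add (Continuous.sub (by fun_prop) ?_) ?_
  · refine continuous_finsetSum _ fun A _ => ?_
    split_ifs
    · exact h2 A
    · exact continuous_const
  · refine continuous_finsetSum _ fun A _ => ?_
    split_ifs
    · exact h3 A
    · exact continuous_const

theorem FF_equiv (hf : ∀ (h : G) (g : Fin 4 → G) (a : Fin 4 → ℝ), (∀ i, 0 ≤ a i) →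
      f (fun i => h * g i) a = actU h (f g a)) (h : G) (g : Fin 11 → G) (a : Fin 11 → ℝ)
      (ha : ∀ i, 0 ≤ a i) (j : Fin 6) : FF f (fun i => h * g i) a (h j) = FF f g a j := by
  have hnn : ∀ i, 0 ≤ (fun i => a (i4 i) / max (rho a) (1 / 2)) i := fun i =>
    div_nonneg (ha _) (le_max_of_le_right (by norm_num))
  have hPsi := hf h (fun i => g (i4 i)) _ hnn
  have hP : ∀ A, (Psi f (fun i => h * g i) a).1.1 A = (Psi f g a).1.1 (h⁻¹ • A) := by
    intro A
    simp only [Psi, Prod.smul_fst, Pi.smul_apply]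
    rw [hPsi]
    rfl
  have hQ : ∀ A, (Psi f (fun i => h * g i) a).1.2 A = (Psi f g a).1.2 (h⁻¹ • A) := by
    intro A
    simp only [Psi, Prod.smul_fst, Prod.smul_snd, Pi.smul_apply]
    rw [hPsi]
    rfl
  have hS : ∀ i, yS f (fun i => h * g i) a i (h j) = yS f g a i j := by
    intro i
    refine Fin.cases ?_ (fun i => ?_) i
    · rw [yS_zero, yS_zero]
      simp only [Psi, Prod.smul_snd, Pi.smul_apply]
      rw [hPsi]
      have : (actU h (f (fun i => g (i4 i)) fun i => a (i4 i) / max (rho a) (1 / 2))).1.2 (h j) =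
        (f (fun i => g (i4 i)) fun i => a (i4 i) / max (rho a) (1 / 2)).1.2 (h⁻¹ • (h j)) := rfl
      rw [this]
      simp
    · rw [yS_succ, yS_succ]
      by_cases hj : j = g (i7 i) 0
      · subst hj
        simp
      · rw [Pi.single_eq_of_ne hj, Pi.single_eq_of_ne]
        intro h2
        exact hj (h.injective h2)
  unfold FF sec
  refine Prod.ext ?_ ?_
  · simp only [hS]
  · simp only [hS, hP, hQ]
    congr 1
    · congr 1
      have h1 := Equiv.sum_comp (MulAction.toPerm h : Equiv.Perm P)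
        (fun A => if h j ∈ A.1 then (Psi f g a).1.1 (h⁻¹ • A) else 0)
      rw [← h1]
      refine Finset.sum_congr rfl fun A _ => ?_
      simp only [MulAction.toPerm_apply, mem_smul_P, inv_smul_smul]
    · have h1 := Equiv.sum_comp (MulAction.toPerm h : Equiv.Perm Q)
        (fun A => if h j ∈ A.1 then (Psi f g a).1.2 (h⁻¹ • A) else 0)
      rw [← h1]
      refine Finset.sum_congr rfl fun A _ => ?_
      simp only [MulAction.toPerm_apply, mem_smul_Q, inv_smul_smul]

theorem FF_compat (hf : ∀ a : Fin 4 → ℝ, (∀ i, 0 ≤ a i) → (∀ i, a i ≤ 1) → (∃ i, a i = 1) →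
        ∀ g g' : Fin 4 → G, (∀ i, a i ≠ 0 → g i = g' i) → f g a = f g' a)
    (a : Fin 11 → ℝ) (ha : ∀ i, 0 ≤ a i) (g g' : Fin 11 → G)
    (hg : ∀ i, a i ≠ 0 → g i = g' i) : FF f g a = FF f g' a := by
  have hPsi : Psi f g a = Psi f g' a := by
    unfold Psi
    rcases le_total (rho a) (1 / 2) with h1 | h1
    · rw [max_eq_left (a := 0) (b := 2 * rho a - 1) (by linarith), zero_smul, zero_smul]
    · have hm : max (rho a) (1 / 2) = rho a := max_eq_left h1
      have hpos : 0 < rho a := by linarith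
      rw [hm]
      congr 2
      apply hf
      · intro i
        exact div_nonneg (ha _) hpos.le
      · intro i
        rw [div_le_one hpos]
        exact le_rho a i
      · obtain ⟨i, hi⟩ := exists_rho a
        exact ⟨i, by rw [hi, div_self hpos.ne']⟩
      · intro i hi
        apply hg
        intro h2
        apply hi
        rw [h2, zero_div]
  have hyS : yS f g a = yS f g' a := by
    funext i
    refine Fin.cases ?_ (fun i => ?_) i
    · rw [yS_zero, yS_zero, hPsi]
    · rw [yS_succ, yS_succ]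
      by_cases h : a (i7 i) = 0
      · rw [h, Pi.single_zero, Pi.single_zero]
      · rw [hg _ h]
  unfold FF
  rw [hPsi, hyS]

theorem FF_nonconst (a : Fin 11 → ℝ) (ha : ∀ i, 0 ≤ a i) (ha1 : ∀ i, a i ≤ 1)
    (hex : ∃ i, a i = 1) (g : Fin 11 → G) : ¬ ∃ c, ∀ j, FF f g a j = c := by
  rintro ⟨⟨w, v⟩, hc⟩
  have hx := (f (fun i => g (i4 i)) (fun i => a (i4 i) / max (rho a) (1 / 2))).2
  refine nonconst (Psi f g a).1.1 (Psi f g a).1.2 (yS f g a) ?_ ?_ ?_ ?_ ⟨w, v, ?_⟩
  · exact hx.1.smul (le_max_left _ _)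
  · exact hx.2.1.smul (le_max_left _ _)
  · intro i
    refine Fin.cases ?_ (fun i => ?_) i
    · rw [yS_zero]
      exact hx.2.2.1.smul (le_max_left _ _)
    · rw [yS_succ]
      exact Sp.single _ (ha _)
  · obtain ⟨i, hi⟩ := hex
    rcases i_cases i with ⟨k, rfl⟩ | ⟨k, rfl⟩
    · have hrho : rho a = 1 := by
        refine le_antisymm ?_ ?_
        · obtain ⟨k', hk'⟩ := exists_rho a
          rw [← hk']
          exact ha1 _
        · rw [← hi]
          exact le_rho a k
      have hPsi : Psi f g a ≠ 0 := by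
        unfold Psi
        rw [hrho] at hx ⊢
        have : max (0 : ℝ) (2 * 1 - 1) = 1 := by norm_num
        rw [this, one_smul]
        exact hx.2.2.2
      by_contra hcon
      push Not at hcon
      apply hPsi
      refine Prod.ext (Prod.ext hcon.1 hcon.2.1) ?_
      rw [← yS_zero, hcon.2.2]
      rfl
    · right; right
      intro h0
      have h1 := congrFun (congrFun h0 k.succ) (g (i7 k) 0)
      rw [yS_succ, hi] at h1
      simp at h1
  · intro j
    have := hc j
    exact ⟨congrArg Prod.fst this, congrArg Prod.snd this⟩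

end

/-- The main existence statement of the test family. -/
theorem exists_F : ∃ F : (Fin 11 → G) → (Fin 11 → ℝ) → Fin 6 → ℝ × ℝ,
    (∀ g j, Continuous (fun a => F g a j)) ∧
    (∀ (h : G) (g : Fin 11 → G) (a : Fin 11 → ℝ), (∀ i, 0 ≤ a i) → ∀ j,
      F (fun i => h * g i) a (h j) = F g a j) ∧
    (∀ a : Fin 11 → ℝ, (∀ i, 0 ≤ a i) → ∀ g g' : Fin 11 → G,
      (∀ i, a i ≠ 0 → g i = g' i) → F g a = F g' a) ∧
    (∀ a : Fin 11 → ℝ, (∀ i, 0 ≤ a i) → (∀ i, a i ≤ 1) → (∃ i, a i = 1) →
      ∀ g, ¬ ∃ c, ∀ j, F g a j = c) := by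
  have p0 : P := ⟨{0}, Or.inl rfl⟩
  have q0 : Q := ⟨{0, 1, 2}, rfl⟩
  have hcard : Fintype.card Q = Fintype.card {A : P // A ≠ p0} := by
    rw [card_Q, Fintype.card_subtype_compl, card_P]
    simp
  let μ' : Q ≃ {A : P // A ≠ p0} := Fintype.equivOfCardEq hcard
  obtain ⟨f, hf1, hf2, hf3⟩ := exists_family (G := G) p0 q0 (0 : Fin 6) (0 : Fin 6)
    (fun C => (μ' C).1) (Subtype.val_injective.comp μ'.injective) (by
      intro A
      constructor
      · intro hA
        refine ⟨μ'.symm ⟨A, hA⟩, ?_⟩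
        simp
      · rintro ⟨C, rfl⟩
        exact (μ' C).2)
  exact ⟨FF f, fun g j => continuous_FF hf1 g j, fun h g a ha j => FF_equiv hf2 h g a ha j,
    fun a ha g g' hg => FF_compat hf3 a ha g g' hg,
    fun a ha ha1 hex g => FF_nonconst a ha ha1 hex g⟩

end Pool.Agent.H57.Lin
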