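import Mathlib

set_option autoImplicit false
set_option linter.unusedSectionVars false

/-!
# Extension properties
-/

namespace Pool.Agent.H57.Cn

open Metric Set

/-- every map from the unit sphere of `E` into `Y` extends to the unit ball -/
def ExtE (E : Type) [NormedAddCommGroup E] {F : Type} [TopologicalSpace F] (Y : Set F) : Prop :=
  ∀ g : E → F, ContinuousOn g (sphere 0 1) → MapsTo g (sphere 0 1) Y →
    ∃ h : E → F, ContinuousOn h (closedBall 0 1) ∧ MapsTo h (closedBall 0 1) Y ∧
      EqOn h g (sphere 0 1)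

theorem exists_ball_homeo (E E' : Type) [NormedAddCommGroup E] [NormedSpace ℝ E]
    [NormedAddCommGroup E'] [NormedSpace ℝ E'] [FiniteDimensional ℝ E] [FiniteDimensional ℝ E']
    (h : Module.finrank ℝ E = Module.finrank ℝ E') :
    ∃ φ : E ≃ₜ E', φ '' closedBall 0 1 = closedBall 0 1 ∧ φ '' sphere 0 1 = sphere 0 1 := by
  let L : E ≃L[ℝ] E' := ContinuousLinearEquiv.ofFinrankEq h
  let s : Set E' := L '' closedBall 0 1
  have hcl : IsClosed s := (L.toHomeomorph.isClosed_image).2 isClosed_closedBall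
  have hconv : Convex ℝ s := (convex_closedBall (0 : E) 1).linear_image L.toLinearEquiv.toLinearMap
  have hint : (interior s).Nonempty := by
    refine ⟨0, ?_⟩
    rw [mem_interior]
    refine ⟨L '' ball 0 1, image_mono ball_subset_closedBall,
      (L.toHomeomorph.isOpen_image).2 isOpen_ball, ⟨0, ?_, map_zero _⟩⟩
    simp
  have hb : Bornology.IsBounded s :=
    (((isCompact_closedBall (0 : E) 1).image L.continuous)).isBounded
  have hfr : frontier s = L '' sphere 0 1 := by
    have h1 := L.toHomeomorph.image_frontier (closedBall (0 : E) 1)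
    rw [frontier_closedBall (0 : E) one_ne_zero] at h1
    exact h1.symm
  obtain ⟨φ, _, h2, h3⟩ := exists_homeomorph_image_interior_closure_frontier_eq_unitBall hconv hint hb
  refine ⟨L.toHomeomorph.trans φ, ?_, ?_⟩
  · rw [hcl.closure_eq] at h2
    rw [← h2]
    exact image_comp φ L _
  · rw [hfr] at h3
    rw [← h3]
    exact image_comp φ L _

theorem ExtE.transfer {E E' : Type} [NormedAddCommGroup E] [NormedSpace ℝ E]
    [NormedAddCommGroup E'] [NormedSpace ℝ E'] [FiniteDimensional ℝ E] [FiniteDimensional ℝ E']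
    (h : Module.finrank ℝ E = Module.finrank ℝ E') {F : Type} [TopologicalSpace F] {Y : Set F}
    (hE : ExtE E Y) : ExtE E' Y := by
  obtain ⟨φ, hφ1, hφ2⟩ := exists_ball_homeo E E' h
  intro g hg hgY
  have hs : MapsTo φ (sphere 0 1) (sphere 0 1) := by
    rw [← hφ2]; exact mapsTo_image _ _
  have hs' : MapsTo φ.symm (sphere 0 1) (sphere 0 1) := by
    intro x hx
    rw [← hφ2] at hx
    obtain ⟨y, hy, rfl⟩ := hx
    rwa [φ.symm_apply_apply]
  have hb' : MapsTo φ.symm (closedBall 0 1) (closedBall 0 1) := by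
    intro x hx
    rw [← hφ1] at hx
    obtain ⟨y, hy, rfl⟩ := hx
    rwa [φ.symm_apply_apply]
  obtain ⟨k, hk1, hk2, hk3⟩ := hE (g ∘ φ) (hg.comp φ.continuous.continuousOn hs)
    (hgY.comp hs)
  refine ⟨k ∘ φ.symm, hk1.comp φ.symm.continuous.continuousOn hb', hk2.comp hb', ?_⟩
  intro x hx
  have h1 := hk3 (hs' hx)
  simp only [Function.comp_apply, φ.apply_symm_apply] at h1 ⊢
  exact h1

/-- the extension property in dimension `m` -/
def Ext (m : ℕ) {F : Type} [TopologicalSpace F] (Y : Set F) : Prop :=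
  ExtE (EuclideanSpace ℝ (Fin m)) Y

theorem Ext.toE {m : ℕ} {F : Type} [TopologicalSpace F] {Y : Set F} (h : Ext m Y)
    (E : Type) [NormedAddCommGroup E] [NormedSpace ℝ E] [FiniteDimensional ℝ E]
    (hE : Module.finrank ℝ E = m) : ExtE E Y :=
  ExtE.transfer (by rw [hE, finrank_euclideanSpace, Fintype.card_fin]) h

theorem Ext.ofE {m : ℕ} {F : Type} [TopologicalSpace F] {Y : Set F}
    {E : Type} [NormedAddCommGroup E] [NormedSpace ℝ E] [FiniteDimensional ℝ E]
    (hE : Module.finrank ℝ E = m) (h : ExtE E Y) : Ext m Y :=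
  ExtE.transfer (by rw [hE, finrank_euclideanSpace, Fintype.card_fin]) h

/-- If `g` can be deformed along segments in `Y` to an extendable map, it is extendable. -/
theorem ext_of_segment {E : Type} [NormedAddCommGroup E] [NormedSpace ℝ E]
    {F : Type} [AddCommGroup F] [TopologicalSpace F] [IsTopologicalAddGroup F] [Module ℝ F]
    [ContinuousSMul ℝ F] {Y : Set F} {g g' : E → F} (hg : ContinuousOn g (sphere 0 1))
    (hg' : ContinuousOn g' (sphere 0 1))
    (hseg : ∀ x ∈ sphere (0 : E) 1, ∀ t : ℝ, 0 ≤ t → t ≤ 1 → (1 - t) • g x + t • g' x ∈ Y)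
    (hext : ∃ h : E → F, ContinuousOn h (closedBall 0 1) ∧ MapsTo h (closedBall 0 1) Y ∧
      EqOn h g' (sphere 0 1)) :
    ∃ h : E → F, ContinuousOn h (closedBall 0 1) ∧ MapsTo h (closedBall 0 1) Y ∧
      EqOn h g (sphere 0 1) := by
  classical
  obtain ⟨k, hk1, hk2, hk3⟩ := hext
  let a : E → F := fun x => k ((2 : ℝ) • x)
  let b : E → F := fun x => (2 * ‖x‖ - 1) • g (‖x‖⁻¹ • x) + (2 - 2 * ‖x‖) • g' (‖x‖⁻¹ • x)
  let S : Set E := {x | ‖x‖ ≤ 1 / 2}
  let T : Set E := {x | 1 / 2 ≤ ‖x‖ ∧ ‖x‖ ≤ 1}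
  have hS : IsClosed S := isClosed_le continuous_norm continuous_const
  have hT : IsClosed T := (isClosed_le continuous_const continuous_norm).inter
    (isClosed_le continuous_norm continuous_const)
  have hST : closedBall (0 : E) 1 = S ∪ T := by
    ext x
    simp only [mem_closedBall, dist_zero_right, mem_union, S, T, mem_ofPred_eq]
    constructor
    · intro h
      rcases le_total ‖x‖ (1 / 2) with h1 | h1
      · exact Or.inl h1
      · exact Or.inr ⟨h1, h⟩
    · rintro (h | h)
      · linarith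
      · exact h.2
  have hnorm : ∀ x ∈ T, ‖x‖⁻¹ • x ∈ sphere (0 : E) 1 := by
    intro x hx
    have : ‖x‖ ≠ 0 := by
      have := hx.1
      intro h0
      rw [h0] at this
      norm_num at this
    rw [mem_sphere, dist_zero_right, norm_smul, norm_inv, norm_norm, inv_mul_cancel₀ this]
  have ha : ContinuousOn a S := by
    refine hk1.comp (by fun_prop) ?_
    intro x hx
    have : ‖x‖ ≤ 1 / 2 := hx
    rw [mem_closedBall, dist_zero_right, norm_smul]
    norm_num
    linarith
  have hb : ContinuousOn b T := by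
    have hmap : ContinuousOn (fun x : E => ‖x‖⁻¹ • x) T := by
      refine ContinuousOn.smul ?_ continuousOn_id
      refine ContinuousOn.inv₀ (by fun_prop) ?_
      intro x hx h0
      have := hx.1
      rw [h0] at this
      norm_num at this
    refine ContinuousOn.add ?_ ?_
    · exact ContinuousOn.smul (by fun_prop) (hg.comp hmap hnorm)
    · exact ContinuousOn.smul (by fun_prop) (hg'.comp hmap hnorm)
  have hab : ∀ x, ‖x‖ = 1 / 2 → a x = b x := by
    intro x hx
    have h1 : ‖x‖⁻¹ • x ∈ sphere (0 : E) 1 := hnorm x ⟨hx.ge, by rw [hx]; norm_num⟩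
    simp only [a, b]
    have h2 : ‖x‖⁻¹ • x = (2 : ℝ) • x := by rw [hx]; norm_num
    rw [h2] at h1 ⊢
    rw [hx, hk3 h1]
    norm_num
  let f : E → F := fun x => if ‖x‖ ≤ 1 / 2 then a x else b x
  have hfa : EqOn f a S := fun x hx => if_pos hx
  have hfb : EqOn f b T := by
    intro x hx
    simp only [f]
    by_cases h : ‖x‖ ≤ 1 / 2
    · rw [if_pos h]
      exact hab x (le_antisymm h hx.1)
    · rw [if_neg h]
  refine ⟨f, ?_, ?_, ?_⟩
  · rw [hST]
    exact ContinuousOn.union_of_isClosed (ha.congr hfa) (hb.congr hfb) hS hT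
  · rw [hST]
    intro x hx
    rcases hx with hx | hx
    · rw [hfa hx]
      refine hk2 ?_
      have : ‖x‖ ≤ 1 / 2 := hx
      rw [mem_closedBall, dist_zero_right, norm_smul]
      norm_num
      linarith
    · rw [hfb hx]
      simp only [b]
      have h1 := hseg _ (hnorm x hx) (2 - 2 * ‖x‖) (by linarith [hx.2]) (by linarith [hx.1])
      have h2 : (1 : ℝ) - (2 - 2 * ‖x‖) = 2 * ‖x‖ - 1 := by ring
      rwa [h2] at h1
  · intro x hx
    rw [mem_sphere, dist_zero_right] at hx
    have hxT : x ∈ T := ⟨by rw [hx]; norm_num, hx.le⟩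
    rw [hfb hxT]
    simp only [b]
    rw [hx]
    norm_num

end Pool.Agent.H57.Cn
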