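import Mathlib
import Pool.Agent.H57.Ext

set_option autoImplicit false
set_option linter.unusedSectionVars false

/-!
# The carrier lemma on a cubical grid
-/

namespace Pool.Agent.H57.Cn

open Metric Set

section onedim

theorem ty1_odd (x : ℝ) (e : ℤ) (he : Odd e) : ⌊x⌋ + ⌈x⌉ = e ↔ |2 * x - e| < 1 := by
  have h1 := Int.floor_le x
  have h2 := Int.lt_floor_add_one x
  have h3 := Int.le_ceil x
  have h4 := Int.ceil_lt_add_one x
  have h5 : ⌈x⌉ ≤ ⌊x⌋ + 1 := Int.ceil_le_floor_add_one x
  have h6 : ⌊x⌋ ≤ ⌈x⌉ := Int.floor_le_ceil x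
  obtain ⟨k, hk⟩ := he
  rw [abs_lt]
  constructor
  · intro h
    have h7 : ⌊x⌋ = k := by omega
    have h8 : ⌈x⌉ = k + 1 := by omega
    have h9 : (e : ℝ) = 2 * k + 1 := by rw [hk]; push_cast; ring
    have h10 : (k : ℝ) ≤ x := by rw [← h7]; exact h1
    have h11 : x ≤ k + 1 := by
      have : ((⌈x⌉ : ℤ) : ℝ) = k + 1 := by rw [h8]; push_cast; ring
      rw [← this]; exact h3
    have h12 : x ≠ k := by
      intro hx
      have : ⌈x⌉ = k := by rw [hx]; exact Int.ceil_intCast k
      omega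
    have h13 : x ≠ k + 1 := by
      intro hx
      have : ⌊x⌋ = k + 1 := by
        rw [hx]
        have := Int.floor_intCast (R := ℝ) (k + 1)
        push_cast at this
        exact this
      omega
    have h14 : (k : ℝ) < x := lt_of_le_of_ne h10 (Ne.symm h12)
    have h15 : x < k + 1 := lt_of_le_of_ne h11 h13
    rw [h9]
    constructor <;> linarith
  · rintro ⟨ha, hb⟩
    have h9 : (e : ℝ) = 2 * k + 1 := by rw [hk]; push_cast; ring
    rw [h9] at ha hb
    have h7 : ⌊x⌋ = k := by
      rw [Int.floor_eq_iff]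
      constructor <;> linarith
    have h8 : ⌈x⌉ = k + 1 := by
      rw [Int.ceil_eq_iff]
      push_cast
      constructor <;> linarith
    omega

theorem ty1_even (x : ℝ) (e : ℤ) (he : Even e) : ⌊x⌋ + ⌈x⌉ = e ↔ 2 * x = e := by
  have h1 := Int.floor_le x
  have h3 := Int.le_ceil x
  have h5 : ⌈x⌉ ≤ ⌊x⌋ + 1 := Int.ceil_le_floor_add_one x
  have h6 : ⌊x⌋ ≤ ⌈x⌉ := Int.floor_le_ceil x
  obtain ⟨k, hk⟩ := he
  constructor
  · intro h
    have h7 : ⌊x⌋ = k := by omega
    have h8 : ⌈x⌉ = k := by omega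
    have h10 : (k : ℝ) ≤ x := by rw [← h7]; exact h1
    have h11 : x ≤ k := by rw [← h8]; exact h3
    have : x = k := le_antisymm h11 h10
    rw [this, hk]
    push_cast
    ring
  · intro h
    have h9 : x = k := by
      rw [hk] at h
      push_cast at h
      linarith
    rw [h9, Int.floor_intCast, Int.ceil_intCast]
    omega

theorem ty1_face (x : ℝ) (e : ℤ) : |2 * x - e| ≤ (if Odd e then 1 else 0) ↔
    (⌊x⌋ + ⌈x⌉ = e ∨ (Odd e ∧ (⌊x⌋ + ⌈x⌉ = e + 1 ∨ ⌊x⌋ + ⌈x⌉ = e - 1))) := by
  by_cases he : Odd e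
  · rw [if_pos he]
    have hp : Even (e + 1) := Odd.add_one he
    have hm : Even (e - 1) := Odd.sub_odd he odd_one
    rw [ty1_odd x e he, ty1_even x _ hp, ty1_even x _ hm]
    push_cast
    constructor
    · intro h
      rcases h.lt_or_eq with h1 | h1
      · exact Or.inl h1
      · right
        refine ⟨he, ?_⟩
        rcases (abs_eq zero_le_one).1 h1 with h2 | h2
        · left; linarith
        · right; linarith
    · rintro (h | ⟨_, h | h⟩)
      · exact h.le
      · rw [h]; norm_num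
      · rw [h]; norm_num
  · rw [if_neg he]
    rw [Int.not_odd_iff_even] at he
    rw [ty1_even x e he]
    constructor
    · intro h
      left
      have := abs_nonpos_iff.1 h
      linarith
    · rintro (h | ⟨h1, _⟩)
      · rw [h]; simp
      · exact absurd he (Int.not_even_iff_odd.2 h1)

end onedim

section grid

variable {J : Type} [Fintype J] [DecidableEq J]

/-- type of a point -/
noncomputable def ty (x : J → ℝ) : J → ℤ := fun j => ⌊x j⌋ + ⌈x j⌉

/-- face relation -/
def Face (e' e : J → ℤ) : Prop :=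
  ∀ j, e' j = e j ∨ (Odd (e j) ∧ (e' j = e j + 1 ∨ e' j = e j - 1))

/-- closed cells -/
def cell (e : J → ℤ) : Set (J → ℝ) := {x | ∀ j, |2 * x j - e j| ≤ if Odd (e j) then 1 else 0}

theorem mem_cell (e : J → ℤ) (x : J → ℝ) : x ∈ cell e ↔ Face (ty x) e :=
  forall_congr' fun _ => ty1_face _ _

theorem isClosed_cell (e : J → ℤ) : IsClosed (cell e) := by
  have : cell e = ⋂ j, {x : J → ℝ | |2 * x j - e j| ≤ if Odd (e j) then 1 else 0} := by
    ext x; simp [cell]
  rw [this]
  refine isClosed_iInter fun j => isClosed_le ?_ continuous_const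
  fun_prop

/-- number of odd coordinates -/
def dm (e : J → ℤ) : ℕ := (Finset.univ.filter fun j => Odd (e j)).card

theorem Face.refl (e : J → ℤ) : Face e e := fun _ => Or.inl rfl

theorem Face.odd {e' e : J → ℤ} (h : Face e' e) {j : J} (hj : Odd (e' j)) : Odd (e j) := by
  rcases h j with h1 | ⟨h1, _⟩
  · rw [← h1]; exact hj
  · exact h1

theorem Face.trans {e'' e' e : J → ℤ} (h : Face e'' e') (h' : Face e' e) : Face e'' e := by
  intro j
  rcases h j with h1 | ⟨h1, h2⟩
  · rw [h1]; exact h' j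
  · rcases h' j with h3 | ⟨h3, h4⟩
    · rw [← h3]; exact Or.inr ⟨h1, h2⟩
    · exfalso
      rcases h4 with h4 | h4 <;> rw [h4] at h1
      · exact (Int.not_odd_iff_even.2 (Odd.add_one h3)) h1
      · exact (Int.not_odd_iff_even.2 (Odd.sub_odd h3 odd_one)) h1

theorem Face.dm_lt {e' e : J → ℤ} (h : Face e' e) (hne : e' ≠ e) : dm e' < dm e := by
  obtain ⟨j, hj⟩ := Function.ne_iff.1 hne
  refine Finset.card_lt_card ?_
  rw [Finset.ssubset_iff_of_subset]
  · rcases h j with h1 | ⟨h1, h2⟩
    · exact absurd h1 hj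
    · refine ⟨j, by simp [h1], ?_⟩
      simp only [Finset.mem_filter, Finset.mem_univ, true_and]
      rcases h2 with h2 | h2 <;> rw [h2]
      · exact Int.not_odd_iff_even.2 (Odd.add_one h1)
      · exact Int.not_odd_iff_even.2 (Odd.sub_odd h1 odd_one)
  · intro i hi
    simp only [Finset.mem_filter, Finset.mem_univ, true_and] at hi ⊢
    exact h.odd hi

/-- parametrisation of a cell -/
noncomputable def par (e : J → ℤ) (u : {j // Odd (e j)} → ℝ) : J → ℝ :=
  fun j => if h : Odd (e j) then (e j + u ⟨j, h⟩) / 2 else e j / 2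

/-- inverse parametrisation of a cell -/
def inv (e : J → ℤ) (x : J → ℝ) : {j // Odd (e j)} → ℝ := fun j => 2 * x j - e j

theorem continuous_par (e : J → ℤ) : Continuous (par e) := by
  refine continuous_pi fun j => ?_
  unfold par
  by_cases h : Odd (e j)
  · simp only [h, dite_true]
    fun_prop
  · simp only [h, dite_false]
    fun_prop

theorem continuous_inv (e : J → ℤ) : Continuous (inv e) := by
  unfold inv
  fun_prop

theorem inv_par (e : J → ℤ) (u : {j // Odd (e j)} → ℝ) : inv e (par e u) = u := by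
  funext ⟨j, h⟩
  simp only [inv, par, h, dite_true]
  ring

theorem par_inv (e : J → ℤ) {x : J → ℝ} (hx : x ∈ cell e) : par e (inv e x) = x := by
  funext j
  by_cases h : Odd (e j)
  · simp only [inv, par, h, dite_true]
    ring
  · simp only [par, h, dite_false]
    have := hx j
    rw [if_neg h] at this
    have := abs_nonpos_iff.1 this
    linarith

theorem inv_mem_ball (e : J → ℤ) {x : J → ℝ} (hx : x ∈ cell e) :
    inv e x ∈ closedBall (0 : {j // Odd (e j)} → ℝ) 1 := by
  rw [mem_closedBall, dist_zero_right, pi_norm_le_iff_of_nonneg zero_le_one]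
  rintro ⟨j, h⟩
  have := hx j
  rw [if_pos h] at this
  exact this

theorem par_mem_cell (e : J → ℤ) {u : {j // Odd (e j)} → ℝ}
    (hu : u ∈ closedBall (0 : {j // Odd (e j)} → ℝ) 1) : par e u ∈ cell e := by
  rw [mem_closedBall, dist_zero_right, pi_norm_le_iff_of_nonneg zero_le_one] at hu
  intro j
  by_cases h : Odd (e j)
  · rw [if_pos h]
    simp only [par, h, dite_true]
    have := hu ⟨j, h⟩
    rw [Real.norm_eq_abs] at this
    have h2 : 2 * ((e j + u ⟨j, h⟩) / 2) - e j = u ⟨j, h⟩ := by ring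
    rw [h2]
    exact this
  · rw [if_neg h]
    simp only [par, h, dite_false]
    have h2 : 2 * ((e j : ℝ) / 2) - e j = 0 := by ring
    rw [h2]
    simp

theorem ty_ne_of_sphere (e : J → ℤ) {u : {j // Odd (e j)} → ℝ}
    (hu : u ∈ sphere (0 : {j // Odd (e j)} → ℝ) 1) : ty (par e u) ≠ e := by
  rw [mem_sphere, dist_zero_right] at hu
  intro h
  have h1 : ‖u‖ < 1 := by
    rw [pi_norm_lt_iff zero_lt_one]
    rintro ⟨j, hj⟩
    have h2 := congrFun h j
    have h3 := (ty1_odd (par e u j) (e j) hj).1 h2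
    simp only [par, hj, dite_true] at h3
    have h4 : 2 * ((e j + u ⟨j, hj⟩) / 2) - e j = u ⟨j, hj⟩ := by ring
    rw [h4] at h3
    exact h3
  linarith

theorem inv_mem_sphere (e : J → ℤ) {x : J → ℝ} (hx : x ∈ cell e) (hne : ty x ≠ e) :
    inv e x ∈ sphere (0 : {j // Odd (e j)} → ℝ) 1 := by
  have h1 := inv_mem_ball e hx
  rw [mem_closedBall, dist_zero_right] at h1
  rw [mem_sphere, dist_zero_right]
  refine le_antisymm h1 ?_
  by_contra hcon
  push Not at hcon
  rw [pi_norm_lt_iff zero_lt_one] at hcon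
  apply hne
  funext j
  by_cases h : Odd (e j)
  · exact (ty1_odd (x j) (e j) h).2 (hcon ⟨j, h⟩)
  · have h2 := hx j
    rw [if_neg h] at h2
    have h3 := abs_nonpos_iff.1 h2
    exact (ty1_even (x j) (e j) (Int.not_odd_iff_even.1 h)).2 (by linarith)

/-- cells in the cube -/
noncomputable def cells (K : ℕ) : Finset (J → ℤ) := Fintype.piFinset fun _ => Finset.Icc (-(2 * K : ℤ)) (2 * K)

/-- boundary cells -/
def Bd (K : ℕ) (e : J → ℤ) : Prop := ∃ j, |e j| = 2 * K

theorem ty_abs_le (x : ℝ) (K : ℕ) : |⌊x⌋ + ⌈x⌉| ≤ 2 * (K : ℤ) ↔ |x| ≤ K := by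
  have h1 := Int.floor_le x
  have h3 := Int.le_ceil x
  have h6 : ⌊x⌋ ≤ ⌈x⌉ := Int.floor_le_ceil x
  rw [abs_le, abs_le]
  constructor
  · rintro ⟨ha, hb⟩
    constructor
    · by_contra hcon
      push Not at hcon
      have h7 : ⌈x⌉ ≤ -(K : ℤ) := by
        rw [Int.ceil_le]; push_cast; exact hcon.le
      have h8 : ⌊x⌋ < -(K : ℤ) := by
        rw [Int.floor_lt]; push_cast; exact hcon
      omega
    · by_contra hcon
      push Not at hcon
      have h7 : (K : ℤ) ≤ ⌊x⌋ := by
        rw [Int.le_floor]; push_cast; exact hcon.le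
      have h8 : (K : ℤ) < ⌈x⌉ := by
        rw [Int.lt_ceil]; push_cast; exact hcon
      omega
  · rintro ⟨ha, hb⟩
    have h7 : ⌈x⌉ ≤ (K : ℤ) := by
      rw [Int.ceil_le]; push_cast; exact hb
    have h8 : -(K : ℤ) ≤ ⌊x⌋ := by
      rw [Int.le_floor]; push_cast; exact ha
    constructor <;> omega

theorem ty_abs_eq (x : ℝ) (K : ℕ) : |⌊x⌋ + ⌈x⌉| = 2 * (K : ℤ) ↔ |x| = K := by
  have hp : Even (2 * (K : ℤ)) := even_two_mul _
  have hm : Even (-(2 * (K : ℤ))) := hp.neg
  have h1 := ty1_even x _ hp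
  have h2 := ty1_even x _ hm
  push_cast at h1 h2
  have hK : (0 : ℝ) ≤ K := Nat.cast_nonneg _
  have hK2 : (0 : ℤ) ≤ 2 * K := by positivity
  rw [abs_eq hK, abs_eq hK2, h1, h2]
  constructor
  · rintro (h | h)
    · left; linarith
    · right; linarith
  · rintro (h | h)
    · left; linarith
    · right; linarith

theorem mem_cells (K : ℕ) (e : J → ℤ) : e ∈ cells K ↔ ∀ j, |e j| ≤ 2 * K := by
  simp only [cells, Fintype.mem_piFinset, Finset.mem_Icc, abs_le]

theorem ty_mem_cells (K : ℕ) (x : J → ℝ) : ty x ∈ cells K ↔ x ∈ closedBall (0 : J → ℝ) K := by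
  rw [mem_cells, mem_closedBall, dist_zero_right, pi_norm_le_iff_of_nonneg (Nat.cast_nonneg _)]
  exact forall_congr' fun j => ty_abs_le _ _

theorem ty_bd (K : ℕ) (hK : 0 < K) (x : J → ℝ) : (ty x ∈ cells K ∧ Bd K (ty x)) ↔
    x ∈ sphere (0 : J → ℝ) K := by
  have hK' : (0 : ℝ) < K := by exact_mod_cast hK
  rw [ty_mem_cells, mem_closedBall, mem_sphere, dist_zero_right]
  constructor
  · rintro ⟨h1, j, hj⟩
    refine le_antisymm h1 ?_
    have h2 := (ty_abs_eq (x j) K).1 hj
    rw [← h2]
    exact norm_le_pi_norm x j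
  · intro h
    refine ⟨h.le, ?_⟩
    by_contra hcon
    have h1 : ‖x‖ < K := by
      rw [pi_norm_lt_iff hK']
      intro j
      refine lt_of_le_of_ne ((norm_le_pi_norm x j).trans h.le) ?_
      intro h3
      exact hcon ⟨j, (ty_abs_eq (x j) K).2 h3⟩
    linarith

theorem Face.bd {K : ℕ} {e' e : J → ℤ} (h : Face e' e) (hb : Bd K e) : Bd K e' := by
  obtain ⟨j, hj⟩ := hb
  refine ⟨j, ?_⟩
  rcases h j with h1 | ⟨h1, _⟩
  · rw [h1]; exact hj
  · exfalso
    rcases (abs_eq (by positivity)).1 hj with h2 | h2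
    · rw [h2] at h1
      exact (Int.not_odd_iff_even.2 (even_two_mul _)) h1
    · rw [h2] at h1
      exact (Int.not_odd_iff_even.2 (even_two_mul _).neg) h1

theorem Face.cells {K : ℕ} {e' e : J → ℤ} (h : Face e' e) (hb : e ∈ cells K) :
    e' ∈ Cn.cells K := by
  rw [mem_cells] at hb ⊢
  intro j
  have h0 := hb j
  rw [abs_le] at h0 ⊢
  rcases h j with h1 | ⟨⟨k, hk⟩, h1⟩
  · rw [h1]; exact h0
  · constructor <;> omega

theorem carrier_aux {F : Type} [TopologicalSpace F] (K : ℕ) (hK : 0 < K)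
    (Car : (J → ℤ) → Set F) (hmono : ∀ e' e, Face e' e → Car e' ⊆ Car e)
    (hext : ∀ e, ExtE ({j // Odd (e j)} → ℝ) (Car e)) (g : (J → ℝ) → F)
    (hg : ContinuousOn g (sphere 0 K)) (hgC : ∀ x ∈ sphere (0 : J → ℝ) K, g x ∈ Car (ty x)) :
    ∀ (n : ℕ) (L : Finset (J → ℤ)), L ⊆ cells K → (∀ e ∈ L, ∀ e', Face e' e → e' ∈ L) →
      (∀ e ∈ cells K, Bd K e → e ∈ L) → {e | e ∈ L ∧ ¬ Bd K e}.ncard = n →
      ∃ h : (J → ℝ) → F, ContinuousOn h {x | ty x ∈ L} ∧ (∀ x, ty x ∈ L → h x ∈ Car (ty x)) ∧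
        EqOn h g (sphere 0 K) := by
  classical
  intro n
  induction n with
  | zero =>
    intro L hL hLf hLb hn
    have hfin : {e | e ∈ L ∧ ¬ Bd K e}.Finite := L.finite_toSet.subset fun e he => he.1
    rw [Set.ncard_eq_zero hfin] at hn
    have hset : {x : J → ℝ | ty x ∈ L} = sphere 0 K := by
      ext x
      rw [← ty_bd K hK]
      constructor
      · intro hx
        refine ⟨hL hx, ?_⟩
        by_contra hcon
        have : ty x ∈ {e | e ∈ L ∧ ¬ Bd K e} := ⟨hx, hcon⟩
        rw [hn] at this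
        exact this
      · rintro ⟨h1, h2⟩
        exact hLb _ h1 h2
    refine ⟨g, ?_, ?_, fun _ _ => rfl⟩
    · rw [hset]; exact hg
    · intro x hx
      apply hgC
      rw [← hset]
      exact hx
  | succ n ih =>
    intro L hL hLf hLb hn
    have hfin : {e | e ∈ L ∧ ¬ Bd K e}.Finite := L.finite_toSet.subset fun e he => he.1
    have hne : {e | e ∈ L ∧ ¬ Bd K e}.Nonempty := by
      rw [← Set.ncard_pos hfin]
      omega
    obtain ⟨e0, ⟨he0L, he0b⟩, he0max⟩ := Set.exists_max_image _ dm hfin hne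
    have hmax : ∀ e ∈ L, Face e0 e → e = e0 := by
      intro e he hf
      by_contra hne'
      have h1 := hf.dm_lt (Ne.symm hne')
      have h2 : ¬ Bd K e := fun hb => he0b (hf.bd hb)
      have h3 := he0max e ⟨he, h2⟩
      omega
    obtain ⟨h', hh1, hh2, hh3⟩ := ih (L.erase e0) ((Finset.erase_subset _ _).trans hL) (by
        intro e he e' hf
        rw [Finset.mem_erase] at he ⊢
        refine ⟨?_, hLf e he.2 e' hf⟩
        rintro rfl
        exact he.1 (hmax e he.2 hf)) (by
        intro e he hb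
        rw [Finset.mem_erase]
        refine ⟨?_, hLb e he hb⟩
        rintro rfl
        exact he0b hb) (by
        have : {e | e ∈ L.erase e0 ∧ ¬ Bd K e} = {e | e ∈ L ∧ ¬ Bd K e} \ {e0} := by
          ext e
          simp only [Finset.mem_erase, Set.mem_sdiff, mem_singleton_iff, mem_ofPred_eq]
          tauto
        rw [this, Set.ncard_sdiff_singleton_of_mem (show e0 ∈ {e | e ∈ L ∧ ¬ Bd K e} from ⟨he0L, he0b⟩), hn]
        rfl)
    have hbd : ∀ x ∈ cell e0, ty x ≠ e0 → ty x ∈ L.erase e0 := by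
      intro x hx hne'
      rw [Finset.mem_erase]
      exact ⟨hne', hLf e0 he0L _ ((mem_cell e0 x).1 hx)⟩
    have hmaps : ∀ u ∈ sphere (0 : {j // Odd (e0 j)} → ℝ) 1, ty (par e0 u) ∈ L.erase e0 := by
      intro u hu
      exact hbd _ (par_mem_cell e0 (sphere_subset_closedBall hu)) (ty_ne_of_sphere e0 hu)
    obtain ⟨k, hk1, hk2, hk3⟩ := hext e0 (fun u => h' (par e0 u))
      (hh1.comp (continuous_par e0).continuousOn hmaps) (by
        intro u hu
        refine hmono _ _ ?_ (hh2 _ (hmaps u hu))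
        exact (mem_cell e0 _).1 (par_mem_cell e0 (sphere_subset_closedBall hu)))
    let f : (J → ℝ) → F := fun x => if ty x = e0 then k (inv e0 x) else h' x
    have hf1 : EqOn f h' {x | ty x ∈ L.erase e0} := by
      intro x hx
      have : ty x ≠ e0 := (Finset.mem_erase.1 hx).1
      simp only [f, if_neg this]
    have hf2 : EqOn f (fun x => k (inv e0 x)) (cell e0) := by
      intro x hx
      simp only [f]
      by_cases h : ty x = e0
      · rw [if_pos h]
      · rw [if_neg h]
        have h1 : k (inv e0 x) = h' (par e0 (inv e0 x)) := hk3 (inv_mem_sphere e0 hx h)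
        rw [h1, par_inv e0 hx]
    have hset : {x : J → ℝ | ty x ∈ L} = {x | ty x ∈ L.erase e0} ∪ cell e0 := by
      ext x
      simp only [mem_union, mem_ofPred_eq]
      constructor
      · intro hx
        by_cases h : ty x = e0
        · right
          rw [mem_cell, h]
          exact Face.refl _
        · left
          rw [Finset.mem_erase]
          exact ⟨h, hx⟩
      · rintro (hx | hx)
        · exact Finset.mem_of_mem_erase hx
        · exact hLf e0 he0L _ ((mem_cell e0 x).1 hx)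
    have hclosed : IsClosed {x : J → ℝ | ty x ∈ L.erase e0} := by
      have : {x : J → ℝ | ty x ∈ L.erase e0} = ⋃ e ∈ L.erase e0, cell e := by
        ext x
        simp only [mem_ofPred_eq, mem_iUnion, exists_prop]
        constructor
        · intro hx
          refine ⟨ty x, hx, ?_⟩
          rw [mem_cell]
          exact Face.refl _
        · rintro ⟨e, he, hx⟩
          rw [mem_cell] at hx
          rw [Finset.mem_erase] at he ⊢
          refine ⟨?_, hLf e he.2 _ hx⟩
          intro h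
          rw [h] at hx
          exact he.1 (hmax e he.2 hx)
      rw [this]
      exact isClosed_biUnion_finset fun e _ => isClosed_cell e
    refine ⟨f, ?_, ?_, ?_⟩
    · rw [hset]
      refine ContinuousOn.union_of_isClosed (hh1.congr hf1) ?_ hclosed (isClosed_cell e0)
      refine ContinuousOn.congr ?_ hf2
      exact hk1.comp (continuous_inv e0).continuousOn fun x hx => inv_mem_ball e0 hx
    · intro x hx
      by_cases h : ty x = e0
      · simp only [f, if_pos h]
        rw [h]
        refine hk2 (inv_mem_ball e0 ?_)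
        rw [mem_cell, h]
        exact Face.refl _
      · simp only [f, if_neg h]
        exact hh2 x (Finset.mem_erase.2 ⟨h, hx⟩)
    · intro x hx
      have h1 := (ty_bd K hK x).2 hx
      have h2 : ty x ≠ e0 := by
        intro h
        rw [h] at h1
        exact he0b h1.2
      simp only [f, if_neg h2]
      exact hh3 hx

/-- the carrier lemma -/
theorem carrier {F : Type} [TopologicalSpace F] (K : ℕ) (hK : 0 < K)
    (Car : (J → ℤ) → Set F) (hmono : ∀ e' e, Face e' e → Car e' ⊆ Car e)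
    (hext : ∀ e, ExtE ({j // Odd (e j)} → ℝ) (Car e)) (g : (J → ℝ) → F)
    (hg : ContinuousOn g (sphere 0 K)) (hgC : ∀ x ∈ sphere (0 : J → ℝ) K, g x ∈ Car (ty x)) :
      ∃ h : (J → ℝ) → F, ContinuousOn h (closedBall 0 K) ∧
        (∀ x ∈ closedBall (0 : J → ℝ) K, h x ∈ Car (ty x)) ∧
        EqOn h g (sphere 0 K) := by
  obtain ⟨h, h1, h2, h3⟩ := carrier_aux K hK Car hmono hext g hg hgC _ (cells K)
    (Finset.Subset.refl _) (fun e he e' hf => hf.cells he) (fun e he _ => he) rfl
  have hset : {x : J → ℝ | ty x ∈ cells K} = closedBall 0 K := by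
    ext x
    exact ty_mem_cells K x
  rw [hset] at h1
  exact ⟨h, h1, fun x hx => h2 x ((ty_mem_cells K x).2 hx), h3⟩

end grid

end Pool.Agent.H57.Cn
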