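import Mathlib
import Pool.Agent.H57.Grid

set_option autoImplicit false
set_option linter.unusedSectionVars false

/-!
# Connectivity of a union of two complexes
-/

namespace Pool.Agent.H57.Cn

open Metric Set

variable {ι : Type} [Fintype ι]

/-- realisation of a family of sets -/
def Re (A : Set (Set ι)) : Set (ι → ℝ) :=
  {x | (∀ i, 0 ≤ x i) ∧ ∑ i, x i = 1 ∧ Function.support x ∈ A}

/-- closed under subsets -/
def Down (A : Set (Set ι)) : Prop := ∀ s ∈ A, ∀ t, t ⊆ s → t ∈ A

theorem Re_mono {A B : Set (Set ι)} (h : A ⊆ B) : Re A ⊆ Re B :=
  fun _ hx => ⟨hx.1, hx.2.1, h hx.2.2⟩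

/-- a small number -/
noncomputable def eps (ι : Type) [Fintype ι] : ℝ := 1 / (2 * (Fintype.card ι + 1))

theorem eps_pos : 0 < eps ι := by unfold eps; positivity

/-- the denominator of the threshold map -/
noncomputable def thd (y : ι → ℝ) : ℝ := ∑ k, max (y k - eps ι) 0

/-- the threshold map -/
noncomputable def th (y : ι → ℝ) : ι → ℝ := fun i => max (y i - eps ι) 0 / thd y

theorem thd_pos {y : ι → ℝ} (h : ∑ i, y i = 1) : 0 < thd y := by
  have h1 : ∑ k, (y k - eps ι) ≤ thd y := Finset.sum_le_sum fun k _ => le_max_left _ _
  rw [Finset.sum_sub_distrib, h, Finset.sum_const, Finset.card_univ, nsmul_eq_mul] at h1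
  have h2 : (Fintype.card ι : ℝ) * eps ι < 1 := by
    unfold eps
    rw [mul_one_div, div_lt_one (by positivity)]
    have : (0 : ℝ) ≤ Fintype.card ι := Nat.cast_nonneg _
    linarith
  linarith

theorem th_nonneg {y : ι → ℝ} (h : ∑ i, y i = 1) (i : ι) : 0 ≤ th y i :=
  div_nonneg (le_max_right _ _) (thd_pos h).le

theorem th_sum {y : ι → ℝ} (h : ∑ i, y i = 1) : ∑ i, th y i = 1 := by
  unfold th
  rw [← Finset.sum_div]
  exact div_self (thd_pos h).ne'

theorem th_support {y : ι → ℝ} {i : ι} (h : th y i ≠ 0) : eps ι < y i := by
  by_contra hcon
  push Not at hcon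
  apply h
  unfold th
  rw [max_eq_right (by linarith), zero_div]

theorem continuousOn_th : ContinuousOn (th : (ι → ℝ) → ι → ℝ) {y | ∑ i, y i = 1} := by
  refine continuousOn_pi.2 fun i => ?_
  unfold th
  refine ContinuousOn.div (by fun_prop) ?_ fun y hy => (thd_pos hy).ne'
  unfold thd
  fun_prop

theorem union_ext (A B : Set (Set ι)) (hA : Down A) (hB : Down B) (n : ℕ)
    (eA : ∀ m < n + 1, Ext m (Re A)) (eB : ∀ m < n + 1, Ext m (Re B))
    (eAB : ∀ m < n, Ext m (Re (A ∩ B))) : ∀ m < n + 1, Ext m (Re (A ∪ B)) := by
  classical
  intro m hm
  refine Ext.ofE (E := Fin m → ℝ) (by simp) ?_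
  intro g hg hgY
  have hsum : ∀ x ∈ sphere (0 : Fin m → ℝ) 1, ∑ i, g x i = 1 := fun x hx => (hgY hx).2.1
  have hg' : ContinuousOn (fun x => th (g x)) (sphere (0 : Fin m → ℝ) 1) :=
    continuousOn_th.comp hg hsum
  refine ext_of_segment hg hg' ?_ ?_
  · intro x hx t ht0 ht1
    have h1 := hgY hx
    have h2 := hsum x hx
    refine ⟨fun i => ?_, ?_, ?_⟩
    · simp only [Pi.add_apply, Pi.smul_apply, smul_eq_mul]
      have := h1.1 i
      have := th_nonneg h2 i
      have : 0 ≤ 1 - t := by linarith
      positivity
    · simp only [Pi.add_apply, Pi.smul_apply, smul_eq_mul]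
      rw [Finset.sum_add_distrib, ← Finset.mul_sum, ← Finset.mul_sum, h2, th_sum h2]
      ring
    · have hsub : Function.support ((1 - t) • g x + t • th (g x)) ⊆ Function.support (g x) := by
        intro i hi
        rw [Function.mem_support] at hi ⊢
        intro h0
        apply hi
        have h3 : th (g x) i = 0 := by
          by_contra hcon
          have := th_support hcon
          rw [h0] at this
          have := eps_pos (ι := ι)
          linarith
        simp [h0, h3]
      rcases h1.2.2 with h | h
      · exact Or.inl (hA _ h _ hsub)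
      · exact Or.inr (hB _ h _ hsub)
  · -- uniform continuity
    have hcomp : IsCompact (sphere (0 : Fin m → ℝ) 1) := isCompact_sphere 0 1
    have huc := hcomp.uniformContinuousOn_of_continuous hg
    rw [Metric.uniformContinuousOn_iff] at huc
    obtain ⟨δ, hδ, hunif⟩ := huc (eps ι) eps_pos
    obtain ⟨K', hK'⟩ := exists_nat_gt (1 / δ)
    let K := K' + 1
    have hK0 : 0 < K := Nat.succ_pos _
    have hKr : (0 : ℝ) < K := by exact_mod_cast hK0
    have hKδ : (K : ℝ)⁻¹ < δ := by
      have h1 : 1 / δ < K := by
        simp only [K]; push_cast; linarith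
      rw [inv_lt_comm₀ hKr hδ]
      simpa using h1
    let sc : (Fin m → ℝ) → (Fin m → ℝ) := fun x => (K : ℝ)⁻¹ • x
    have hsc : ∀ x ∈ sphere (0 : Fin m → ℝ) K, sc x ∈ sphere (0 : Fin m → ℝ) 1 := by
      intro x hx
      rw [mem_sphere, dist_zero_right] at hx ⊢
      simp only [sc, norm_smul, hx, norm_inv]
      rw [Real.norm_of_nonneg hKr.le, inv_mul_cancel₀ hKr.ne']
    have hdist : ∀ (q : Fin m → ℤ) (x y : Fin m → ℝ), x ∈ cell q → y ∈ cell q →
        dist (sc x) (sc y) < δ := by
      intro q x y hx hy
      refine lt_of_le_of_lt ?_ hKδ
      simp only [sc]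
      rw [dist_smul₀, norm_inv, Real.norm_of_nonneg hKr.le]
      have : dist x y ≤ 1 := by
        rw [dist_pi_le_iff zero_le_one]
        intro j
        have h1 := hx j
        have h2 := hy j
        have h3 : (if Odd (q j) then (1 : ℝ) else 0) ≤ 1 := by split_ifs <;> norm_num
        have h4 := abs_le.1 (h1.trans h3)
        have h5 := abs_le.1 (h2.trans h3)
        rw [Real.dist_eq, abs_le]
        constructor <;> linarith [h4.1, h4.2, h5.1, h5.2]
      have hpos : 0 ≤ (K : ℝ)⁻¹ := by positivity
      nlinarith
    -- labels
    have hlab : ∀ q : Fin m → ℤ, ∃ D : Set (Set ι), (D = A ∨ D = B) ∧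
        ∀ x ∈ cell q, x ∈ sphere (0 : Fin m → ℝ) K → Function.support (th (g (sc x))) ∈ D := by
      intro q
      by_cases hq : ∃ x0 ∈ cell q, x0 ∈ sphere (0 : Fin m → ℝ) K
      · obtain ⟨x0, hx0, hx0s⟩ := hq
        have hsub : ∀ x ∈ cell q, x ∈ sphere (0 : Fin m → ℝ) K →
            Function.support (th (g (sc x))) ⊆ Function.support (g (sc x0)) := by
          intro x hx hxs i hi
          rw [Function.mem_support] at hi ⊢
          have h1 := th_support hi
          have h2 := hunif _ (hsc x hxs) _ (hsc x0 hx0s) (hdist q x x0 hx hx0)
          have h3 := (dist_le_pi_dist (g (sc x)) (g (sc x0)) i).trans_lt h2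
          rw [Real.dist_eq, abs_lt] at h3
          intro h0
          rw [h0] at h3
          linarith [h3.2]
        rcases (hgY (hsc x0 hx0s)).2.2 with h | h
        · exact ⟨A, Or.inl rfl, fun x hx hxs => hA _ h _ (hsub x hx hxs)⟩
        · exact ⟨B, Or.inr rfl, fun x hx hxs => hB _ h _ (hsub x hx hxs)⟩
      · exact ⟨A, Or.inl rfl, fun x hx hxs => absurd ⟨x, hx, hxs⟩ hq⟩
    choose lab hlab1 hlab2 using hlab
    let C : (Fin m → ℤ) → Set (Set ι) := fun e =>
      {s | ∀ q : Fin m → ℤ, (∀ j, Odd (q j)) → Face e q → s ∈ lab q}
    have htop : ∀ e : Fin m → ℤ, ∃ q : Fin m → ℤ, (∀ j, Odd (q j)) ∧ Face e q := by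
      intro e
      refine ⟨fun j => if Odd (e j) then e j else e j + 1, fun j => ?_, fun j => ?_⟩
      · by_cases h : Odd (e j)
        · simp only [if_pos h]; exact h
        · simp only [if_neg h]
          exact (Int.not_odd_iff_even.1 h).add_one
      · by_cases h : Odd (e j)
        · left
          simp only [if_pos h]
        · simp only [if_neg h]
          right
          exact ⟨(Int.not_odd_iff_even.1 h).add_one, Or.inr (by ring)⟩
    obtain ⟨k, hk1, hk2, hk3⟩ := carrier K hK0 (fun e => Re (C e))
      (by
        intro e' e hf
        refine Re_mono ?_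
        intro s hs q hq hfq
        exact hs q hq (hf.trans hfq))
      (by
        intro e
        have hfin : Module.finrank ℝ ({j // Odd (e j)} → ℝ) = Fintype.card {j // Odd (e j)} :=
          Module.finrank_fintype_fun_eq_card ℝ
        by_cases hodd : ∀ j, Odd (e j)
        · have hC : C e = lab e := by
            ext s
            constructor
            · intro hs
              exact hs e hodd (Face.refl e)
            · intro hs q hq hf
              have : e = q := by
                funext j
                rcases hf j with h | ⟨h1, h2⟩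
                · exact h
                · exfalso
                  have h3 := hodd j
                  rcases h2 with h2 | h2 <;> rw [h2] at h3
                  · exact (Int.not_odd_iff_even.2 (Odd.add_one h1)) h3
                  · exact (Int.not_odd_iff_even.2 (Odd.sub_odd h1 odd_one)) h3
              rw [← this]
              exact hs
          have hle : Fintype.card {j // Odd (e j)} ≤ m := by
            have := Fintype.card_subtype_le (fun j : Fin m => Odd (e j))
            rwa [Fintype.card_fin] at this
          rw [hC]
          rcases hlab1 e with h | h <;> rw [h]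
          · exact (eA _ (by omega)).toE _ hfin
          · exact (eB _ (by omega)).toE _ hfin
        · push Not at hodd
          obtain ⟨j0, hj0⟩ := hodd
          have hlt : Fintype.card {j // Odd (e j)} < m := by
            have := Fintype.card_subtype_lt (p := fun j : Fin m => Odd (e j)) (x := j0)
              (by simpa using hj0)
            rwa [Fintype.card_fin] at this
          have hcase : C e = A ∨ C e = B ∨ C e = A ∩ B := by
            by_cases h1 : ∀ q : Fin m → ℤ, (∀ j, Odd (q j)) → Face e q → lab q = A
            · left
              obtain ⟨q, hq1, hq2⟩ := htop e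
              ext s
              constructor
              · intro hs
                rw [← h1 q hq1 hq2]
                exact hs q hq1 hq2
              · intro hs q hq hf
                rw [h1 q hq hf]
                exact hs
            · by_cases h2 : ∀ q : Fin m → ℤ, (∀ j, Odd (q j)) → Face e q → lab q = B
              · right; left
                obtain ⟨q, hq1, hq2⟩ := htop e
                ext s
                constructor
                · intro hs
                  rw [← h2 q hq1 hq2]
                  exact hs q hq1 hq2
                · intro hs q hq hf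
                  rw [h2 q hq hf]
                  exact hs
              · right; right
                push Not at h1 h2
                obtain ⟨q1, h11, h12, h13⟩ := h1
                obtain ⟨q2, h21, h22, h23⟩ := h2
                have e1 : lab q1 = B := (hlab1 q1).resolve_left h13
                have e2 : lab q2 = A := (hlab1 q2).resolve_right h23
                ext s
                constructor
                · intro hs
                  constructor
                  · rw [← e2]; exact hs q2 h21 h22
                  · rw [← e1]; exact hs q1 h11 h12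
                · intro hs q _ _
                  rcases hlab1 q with h | h <;> rw [h]
                  · exact hs.1
                  · exact hs.2
          rcases hcase with h | h | h <;> rw [h]
          · exact (eA _ (by omega)).toE _ hfin
          · exact (eB _ (by omega)).toE _ hfin
          · exact (eAB _ (by omega)).toE _ hfin)
      (fun x => th (g (sc x)))
      (hg'.comp (by simp only [sc]; fun_prop) hsc)
      (by
        intro x hx
        have h2 := hsum _ (hsc x hx)
        refine ⟨fun i => th_nonneg h2 i, th_sum h2, ?_⟩
        intro q _ hf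
        exact hlab2 q x ((mem_cell q x).2 hf) hx)
    refine ⟨fun x => k ((K : ℝ) • x), ?_, ?_, ?_⟩
    · refine hk1.comp (by fun_prop) ?_
      intro x hx
      rw [mem_closedBall, dist_zero_right] at hx ⊢
      rw [norm_smul, Real.norm_of_nonneg hKr.le]
      nlinarith
    · intro x hx
      have hx' : (K : ℝ) • x ∈ closedBall (0 : Fin m → ℝ) K := by
        rw [mem_closedBall, dist_zero_right] at hx ⊢
        rw [norm_smul, Real.norm_of_nonneg hKr.le]
        nlinarith
      have h1 := hk2 _ hx'
      refine Re_mono ?_ h1
      intro s hs
      obtain ⟨q, hq1, hq2⟩ := htop (ty ((K : ℝ) • x))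
      have h2 := hs q hq1 hq2
      rcases hlab1 q with h | h <;> rw [h] at h2
      · exact Or.inl h2
      · exact Or.inr h2
    · intro x hx
      have hx' : (K : ℝ) • x ∈ sphere (0 : Fin m → ℝ) K := by
        rw [mem_sphere, dist_zero_right] at hx ⊢
        rw [norm_smul, Real.norm_of_nonneg hKr.le, hx, mul_one]
      have h1 := hk3 hx'
      simp only [sc] at h1
      rw [smul_smul, inv_mul_cancel₀ hKr.ne', one_smul] at h1
      exact h1

end Pool.Agent.H57.Cn
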