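import Mathlib
import Pool.Agent.H57.Union

set_option autoImplicit false
set_option linter.unusedSectionVars false

/-!
# Clique complexes of tuples and folds
-/

namespace Pool.Agent.H57.Cn

open Metric Set

section flag

variable {C : Type} (cl : C → C → Prop)

/-- cliques of tuples with all entries in `R` -/
def Cliq (R : Set C) : Set (Set (Fin 6 → C)) :=
  {S | ∀ τ ∈ S, (∀ j, τ j ∈ R) ∧ ∀ τ' ∈ S, ∀ j j', j ≠ j' → cl (τ j) (τ' j')}

variable {cl}

theorem down_cliq (R : Set C) : Down (Cliq cl R) := by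
  intro s hs t ht τ hτ
  exact ⟨(hs τ (ht hτ)).1, fun τ' hτ' => (hs τ (ht hτ)).2 τ' (ht hτ')⟩

theorem cliq_mono {R R' : Set C} (h : R ⊆ R') : Cliq cl R ⊆ Cliq cl R' :=
  fun _ hS τ hτ => ⟨fun j => h ((hS τ hτ).1 j), (hS τ hτ).2⟩

theorem cliq_inter (R R' : Set C) : Cliq cl R ∩ Cliq cl R' = Cliq cl (R ∩ R') := by
  ext S
  constructor
  · rintro ⟨h1, h2⟩ τ hτ
    exact ⟨fun j => ⟨(h1 τ hτ).1 j, (h2 τ hτ).1 j⟩, (h1 τ hτ).2⟩
  · intro h
    exact ⟨cliq_mono inter_subset_left h, cliq_mono inter_subset_right h⟩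

theorem empty_mem_cliq (R : Set C) : (∅ : Set (Fin 6 → C)) ∈ Cliq cl R :=
  fun _ hτ => absurd hτ (Set.notMem_empty _)

theorem cliq_empty {S : Set (Fin 6 → C)} (h : S ∈ Cliq cl (∅ : Set C)) : S = ∅ := by
  rw [Set.eq_empty_iff_forall_notMem]
  intro τ hτ
  exact (h τ hτ).1 0

variable [Fintype C] [DecidableEq C]

/-- push forward along a map -/
noncomputable def push (f : C → C) (x : (Fin 6 → C) → ℝ) : (Fin 6 → C) → ℝ :=
  fun τ' => ∑ τ, if f ∘ τ = τ' then x τ else 0

theorem continuous_push (f : C → C) : Continuous (push f) := by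
  unfold push
  refine continuous_pi fun τ' => continuous_finsetSum _ fun τ _ => ?_
  split_ifs
  · exact continuous_apply τ
  · exact continuous_const

theorem push_nonneg (f : C → C) {x : (Fin 6 → C) → ℝ} (hx : ∀ τ, 0 ≤ x τ) (τ : Fin 6 → C) :
    0 ≤ push f x τ := by
  refine Finset.sum_nonneg fun τ' _ => ?_
  split_ifs
  · exact hx _
  · exact le_rfl

theorem push_sum (f : C → C) {x : (Fin 6 → C) → ℝ} : ∑ τ, push f x τ = ∑ τ, x τ := by
  unfold push
  rw [Finset.sum_comm]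
  refine Finset.sum_congr rfl fun τ _ => ?_
  simp

theorem push_support (f : C → C) {x : (Fin 6 → C) → ℝ} {τ' : Fin 6 → C}
    (h : push f x τ' ≠ 0) : ∃ τ ∈ Function.support x, f ∘ τ = τ' := by
  obtain ⟨τ, _, hτ⟩ := Finset.exists_ne_zero_of_sum_ne_zero h
  refine ⟨τ, ?_, ?_⟩
  · rw [Function.mem_support]
    intro h0
    apply hτ
    rw [h0]
    simp
  · by_contra hcon
    rw [if_neg hcon] at hτ
    exact hτ rfl

theorem fold_ext {R R' : Set C} (hR : R' ⊆ R) (f : C → C) (hf : ∀ c ∈ R, f c ∈ R')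
    (hsymm : ∀ c c', cl c c' → cl c' c)
    (h1 : ∀ c ∈ R, ∀ c' ∈ R, cl c c' → cl c (f c'))
    (h2 : ∀ c ∈ R, ∀ c' ∈ R, cl c c' → cl (f c) (f c')) {m : ℕ}
    (h : Ext m (Re (Cliq cl R'))) : Ext m (Re (Cliq cl R)) := by
  have hmem : ∀ x ∈ Re (Cliq cl R), push f x ∈ Re (Cliq cl R') := by
    rintro x ⟨hx1, hx2, hx3⟩
    refine ⟨fun τ => push_nonneg f hx1 τ, by rw [push_sum, hx2], ?_⟩
    intro τ hτ
    obtain ⟨σ, hσ, rfl⟩ := push_support f hτ
    refine ⟨fun j => hf _ ((hx3 σ hσ).1 j), ?_⟩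
    intro τ' hτ' j j' hjj
    obtain ⟨σ', hσ', rfl⟩ := push_support f hτ'
    exact h2 _ ((hx3 σ hσ).1 j) _ ((hx3 σ' hσ').1 j') ((hx3 σ hσ).2 σ' hσ' j j' hjj)
  have hseg : ∀ x ∈ Re (Cliq cl R), ∀ t : ℝ, 0 ≤ t → t ≤ 1 →
      (1 - t) • x + t • push f x ∈ Re (Cliq cl R) := by
    rintro x ⟨hx1, hx2, hx3⟩ t ht0 ht1
    refine ⟨fun τ => ?_, ?_, ?_⟩
    · simp only [Pi.add_apply, Pi.smul_apply, smul_eq_mul]
      have := hx1 τ
      have := push_nonneg f hx1 τ
      have : 0 ≤ 1 - t := by linarith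
      positivity
    · simp only [Pi.add_apply, Pi.smul_apply, smul_eq_mul]
      rw [Finset.sum_add_distrib, ← Finset.mul_sum, ← Finset.mul_sum, push_sum, hx2]
      ring
    · -- the union of the support and its image
      have hT : Function.support x ∪ (fun τ => f ∘ τ) '' Function.support x ∈ Cliq cl R := by
        have key : ∀ σ ∈ Function.support x, ∀ σ' ∈ Function.support x, ∀ j j', j ≠ j' →
            cl (σ j) (σ' j') := fun σ hσ σ' hσ' j j' hjj => (hx3 σ hσ).2 σ' hσ' j j' hjj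
        have keyR : ∀ σ ∈ Function.support x, ∀ j, σ j ∈ R := fun σ hσ j => (hx3 σ hσ).1 j
        intro τ hτ
        refine ⟨fun j => ?_, fun τ' hτ' j j' hjj => ?_⟩
        · rcases hτ with hτ | ⟨σ, hσ, rfl⟩
          · exact keyR τ hτ j
          · exact hR (hf _ (keyR σ hσ j))
        · rcases hτ with hτ | ⟨σ, hσ, rfl⟩ <;> rcases hτ' with hτ' | ⟨σ', hσ', rfl⟩
          · exact key τ hτ τ' hτ' j j' hjj
          · exact h1 _ (keyR τ hτ j) _ (keyR σ' hσ' j') (key τ hτ σ' hσ' j j' hjj)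
          · exact hsymm _ _ (h1 _ (keyR τ' hτ' j') _ (keyR σ hσ j)
              (key τ' hτ' σ hσ j' j hjj.symm))
          · exact h2 _ (keyR σ hσ j) _ (keyR σ' hσ' j') (key σ hσ σ' hσ' j j' hjj)
      refine down_cliq R _ hT _ ?_
      intro τ hτ
      rw [Function.mem_support] at hτ
      by_cases h0 : x τ = 0
      · right
        have h3 : push f x τ ≠ 0 := by
          intro h4
          apply hτ
          simp [h0, h4]
        obtain ⟨σ, hσ, hσ2⟩ := push_support f h3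
        exact ⟨σ, hσ, hσ2⟩
      · left
        exact h0
  intro g hg hgY
  have hg' : ContinuousOn (fun x => push f (g x)) (sphere 0 1) :=
    (continuous_push f).comp_continuousOn hg
  obtain ⟨k, hk1, hk2, hk3⟩ := h (fun x => push f (g x)) hg' (fun x hx => hmem _ (hgY hx))
  refine ext_of_segment hg hg' (fun x hx t ht0 ht1 => hseg _ (hgY hx) t ht0 ht1)
    ⟨k, hk1, fun x hx => Re_mono (cliq_mono hR) (hk2 hx), hk3⟩

theorem point_ext (c : C) (hcl : cl c c) (m : ℕ) : Ext m (Re (Cliq cl ({c} : Set C))) := by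
  have huniq : ∀ x ∈ Re (Cliq cl ({c} : Set C)), x = Pi.single (fun _ => c) 1 := by
    rintro x ⟨hx1, hx2, hx3⟩
    have h0 : ∀ τ, τ ≠ (fun _ => c) → x τ = 0 := by
      intro τ hτ
      by_contra hcon
      apply hτ
      funext j
      exact (hx3 τ hcon).1 j
    have h1 : x (fun _ => c) = 1 := by
      rw [← hx2]
      refine (Finset.sum_eq_single (fun _ => c) (fun τ _ hτ => h0 τ hτ) ?_).symm
      intro h
      exact absurd (Finset.mem_univ _) h
    funext τ
    by_cases hτ : τ = fun _ => c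
    · rw [hτ, h1]; simp
    · rw [h0 τ hτ, Pi.single_eq_of_ne hτ]
  have hmem : (Pi.single (fun _ => c) 1 : (Fin 6 → C) → ℝ) ∈ Re (Cliq cl ({c} : Set C)) := by
    refine ⟨fun τ => ?_, ?_, ?_⟩
    · by_cases hτ : τ = fun _ => c
      · rw [hτ]; simp
      · rw [Pi.single_eq_of_ne hτ]
    · simp
    · have hs : ∀ τ ∈ Function.support (Pi.single (fun _ => c) 1 : (Fin 6 → C) → ℝ),
          τ = fun _ => c := by
        intro τ hτ
        by_contra hcon
        exact hτ (Pi.single_eq_of_ne hcon _)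
      intro τ hτ
      rw [hs τ hτ]
      refine ⟨fun _ => rfl, fun τ' hτ' j j' _ => ?_⟩
      rw [hs τ' hτ']
      exact hcl
  intro g _ hgY
  refine ⟨fun _ => Pi.single (fun _ => c) 1, continuousOn_const, fun _ _ => hmem, ?_⟩
  intro x hx
  exact (huniq _ (hgY hx)).symm

theorem multi_union {κ : Type} [DecidableEq κ] (R0 : Set C) (U : κ → Set C) (n : ℕ)
    (h0 : ∀ m < n + 1, Ext m (Re (Cliq cl R0))) (s : Finset κ)
    (hU : ∀ k ∈ s, ∀ m < n + 1, Ext m (Re (Cliq cl (U k))))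
    (hI : ∀ k ∈ s, ∀ m < n, Ext m (Re (Cliq cl (R0 ∩ U k))))
    (hd : ∀ k ∈ s, ∀ k' ∈ s, k ≠ k' → U k ∩ U k' = ∅) :
    Down (Cliq cl R0 ∪ ⋃ k ∈ s, Cliq cl (U k)) ∧
      ∀ m < n + 1, Ext m (Re (Cliq cl R0 ∪ ⋃ k ∈ s, Cliq cl (U k))) := by
  induction s using Finset.induction_on with
  | empty =>
    simp only [Finset.notMem_empty, iUnion_of_empty, iUnion_empty, union_empty]
    exact ⟨down_cliq R0, h0⟩
  | insert a s ha ih =>
    obtain ⟨ih1, ih2⟩ := ih (fun k hk => hU k (Finset.mem_insert_of_mem hk))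
      (fun k hk => hI k (Finset.mem_insert_of_mem hk))
      (fun k hk k' hk' => hd k (Finset.mem_insert_of_mem hk) k' (Finset.mem_insert_of_mem hk'))
    have hset : Cliq cl R0 ∪ ⋃ k ∈ insert a s, Cliq cl (U k) =
        (Cliq cl R0 ∪ ⋃ k ∈ s, Cliq cl (U k)) ∪ Cliq cl (U a) := by
      rw [Finset.set_biUnion_insert, union_assoc]
      congr 1
      exact union_comm _ _
    rw [hset]
    refine ⟨?_, ?_⟩
    · rintro t (ht | ht) t' htt
      · exact Or.inl (ih1 t ht t' htt)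
      · exact Or.inr (down_cliq _ t ht t' htt)
    · refine union_ext _ _ ih1 (down_cliq _) n ih2 (hU a (Finset.mem_insert_self a s)) ?_
      have hint : (Cliq cl R0 ∪ ⋃ k ∈ s, Cliq cl (U k)) ∩ Cliq cl (U a) =
          Cliq cl (R0 ∩ U a) := by
        rw [union_inter_distrib_right, cliq_inter]
        refine union_eq_left.2 ?_
        rintro t ⟨ht1, ht2⟩
        simp only [mem_iUnion, exists_prop] at ht1
        obtain ⟨k, hk, hkt⟩ := ht1
        have h1 : t ∈ Cliq cl (U k ∩ U a) := by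
          rw [← cliq_inter]
          exact ⟨hkt, ht2⟩
        rw [hd k (Finset.mem_insert_of_mem hk) a (Finset.mem_insert_self a s)
          (by rintro rfl; exact ha hk)] at h1
        rw [cliq_empty h1]
        exact empty_mem_cliq _
      rw [hint]
      exact hI a (Finset.mem_insert_self a s)

end flag

end Pool.Agent.H57.Cn
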