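import Mathlib
import Pool.Agent.H57.Flag

set_option autoImplicit false
set_option linter.unusedSectionVars false

/-!
# Star trees and the connectivity of the region
-/

namespace Pool.Agent.H57.Cn

open Metric Set

section tree

variable {Γ : Type} [DecidableEq Γ] {N : ℕ}

/-- star tree with legs indexed by `Γ` of length `N` -/
abbrev Tr (Γ : Type) (N : ℕ) : Type := Option (Γ × Fin N)

/-- closeness in the tree -/
def tcl : Tr Γ N → Tr Γ N → Prop
  | none, none => True
  | none, some (_, a) => a.1 = 0
  | some (_, a), none => a.1 = 0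
  | some (g, a), some (h, b) => g = h ∧ a.1 ≤ b.1 + 1 ∧ b.1 ≤ a.1 + 1

/-- distance to the top of leg `g` -/
def D (g : Γ) : Tr Γ N → ℕ
  | none => N
  | some (h, a) => if h = g then N - 1 - a.1 else N + (a.1 + 1)

/-- one step towards the top of leg `g` -/
def stp (hN : 0 < N) (g : Γ) : Tr Γ N → Tr Γ N
  | none => some (g, ⟨0, hN⟩)
  | some (h, a) =>
    if h = g then (if ha : a.1 + 1 < N then some (h, ⟨a.1 + 1, ha⟩) else some (h, a))
    else (if a.1 = 0 then none else some (h, ⟨a.1 - 1, by omega⟩))

/-- the top of leg `g` -/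
def top (hN : 0 < N) (g : Γ) : Tr Γ N := some (g, ⟨N - 1, by omega⟩)

theorem tcl_refl (x : Tr Γ N) : tcl x x := by
  rcases x with _ | ⟨g, a⟩
  · trivial
  · exact ⟨rfl, by omega, by omega⟩

theorem tcl_symm {x y : Tr Γ N} (h : tcl x y) : tcl y x := by
  rcases x with _ | ⟨g, a⟩ <;> rcases y with _ | ⟨g', b⟩
  · trivial
  · exact h
  · exact h
  · exact ⟨h.1.symm, h.2.2, h.2.1⟩

theorem D_top (hN : 0 < N) (g : Γ) : D g (top hN g : Tr Γ N) = 0 := by
  simp only [D, top, if_true]
  omega

theorem eq_top (hN : 0 < N) (g : Γ) {x : Tr Γ N} (h : D g x = 0) : x = top hN g := by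
  rcases x with _ | ⟨h', a⟩
  · simp only [D] at h; omega
  · simp only [D] at h
    by_cases hg : h' = g
    · rw [if_pos hg] at h
      subst hg
      have : a = ⟨N - 1, by omega⟩ := by
        ext
        have := a.2
        simp only
        omega
      rw [this]
      rfl
    · rw [if_neg hg] at h
      omega

theorem D_stp (hN : 0 < N) (g : Γ) (x : Tr Γ N) : D g (stp hN g x) = D g x - 1 := by
  rcases x with _ | ⟨h, a⟩
  · simp only [D, stp, if_true]
    omega
  · have ha := a.2
    by_cases hg : h = g
    · subst hg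
      by_cases ha : a.1 + 1 < N
      · simp only [D, stp, if_true, dif_pos ha]
        omega
      · simp only [D, stp, if_true, dif_neg ha]
        omega
    · by_cases ha0 : a.1 = 0
      · simp only [D, stp, if_neg hg, if_pos ha0]
        omega
      · simp only [D, stp, if_neg hg, if_neg ha0]
        omega

theorem D_lip (g : Γ) {x y : Tr Γ N} (h : tcl x y) : D g x ≤ D g y + 1 := by
  rcases x with _ | ⟨g1, a⟩ <;> rcases y with _ | ⟨g2, b⟩
  · exact Nat.le_succ _
  · have h : b.1 = 0 := h
    have := b.2
    simp only [D]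
    split_ifs <;> omega
  · have h : a.1 = 0 := h
    have := a.2
    simp only [D]
    split_ifs <;> omega
  · obtain ⟨rfl, h1, h2⟩ := h
    have := a.2
    have := b.2
    simp only [D]
    split_ifs <;> omega

theorem eq_of_D (g : Γ) {x y : Tr Γ N} (h : tcl x y) (hD : D g x = D g y) : x = y := by
  rcases x with _ | ⟨g1, a⟩ <;> rcases y with _ | ⟨g2, b⟩
  · rfl
  · exfalso
    have h : b.1 = 0 := h
    have := b.2
    simp only [D] at hD
    split_ifs at hD <;> omega
  · exfalso
    have h : a.1 = 0 := h
    have := a.2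
    simp only [D] at hD
    split_ifs at hD <;> omega
  · obtain ⟨rfl, h1, h2⟩ := h
    have := a.2
    have := b.2
    have hab : a = b := by
      ext
      simp only [D] at hD
      split_ifs at hD <;> omega
    rw [hab]

theorem eq_stp (hN : 0 < N) (g : Γ) {x y : Tr Γ N} (h : tcl x y) (hD : D g x + 1 = D g y) :
    x = stp hN g y := by
  rcases x with _ | ⟨g1, a⟩ <;> rcases y with _ | ⟨g2, b⟩
  · exact absurd hD (by omega)
  · have h : b.1 = 0 := h
    have := b.2
    by_cases hg : g2 = g
    · exfalso
      simp only [D, if_pos hg] at hD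
      omega
    · simp only [stp, if_neg hg, if_pos h]
  · have h : a.1 = 0 := h
    have := a.2
    by_cases hg : g1 = g
    · subst hg
      simp only [stp]
      have : a = ⟨0, hN⟩ := Fin.ext h
      rw [this]
    · exfalso
      simp only [D, if_neg hg] at hD
      omega
  · obtain ⟨rfl, h1, h2⟩ := h
    have := a.2
    have := b.2
    by_cases hg : g1 = g
    · subst hg
      simp only [D, if_true] at hD
      have hb : b.1 + 1 < N := by omega
      simp only [stp, if_true, dif_pos hb]
      have : a = ⟨b.1 + 1, hb⟩ := Fin.ext (by simp only; omega)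
      rw [this]
    · simp only [D, if_neg hg] at hD
      have hb : ¬ b.1 = 0 := by omega
      simp only [stp, if_neg hg, if_neg hb]
      have : a = ⟨b.1 - 1, by omega⟩ := Fin.ext (by simp only; omega)
      rw [this]

theorem tcl_stp (hN : 0 < N) (g : Γ) (x : Tr Γ N) : tcl x (stp hN g x) := by
  rcases x with _ | ⟨h, a⟩
  · exact rfl
  · by_cases hg : h = g
    · by_cases ha : a.1 + 1 < N
      · simp only [stp, if_pos hg, dif_pos ha]
        exact ⟨rfl, by simp only; omega, by simp only; omega⟩
      · simp only [stp, if_pos hg, dif_neg ha]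
        exact tcl_refl _
    · by_cases ha : a.1 = 0
      · simp only [stp, if_neg hg, if_pos ha]
        exact ha
      · simp only [stp, if_neg hg, if_neg ha]
        exact ⟨rfl, by simp only; omega, by simp only; omega⟩

/-- the fold at level `d` -/
def fd (hN : 0 < N) (g : Γ) (d : ℕ) (x : Tr Γ N) : Tr Γ N := if D g x = d + 1 then stp hN g x else x

theorem fd_one (hN : 0 < N) (g : Γ) (d : ℕ) {x y : Tr Γ N} (hx : D g x ≤ d + 1)
    (h : tcl x y) : tcl x (fd hN g d y) := by
  unfold fd
  by_cases hy : D g y = d + 1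
  · rw [if_pos hy]
    have h1 := D_lip g (tcl_symm h)
    rcases (show D g x = D g y ∨ D g x + 1 = D g y by omega) with h2 | h2
    · rw [← eq_of_D g h h2]
      exact tcl_stp hN g x
    · rw [← eq_stp hN g h h2]
      exact tcl_refl _
  · rw [if_neg hy]
    exact h

theorem fd_two (hN : 0 < N) (g : Γ) (d : ℕ) {x y : Tr Γ N} (hx : D g x ≤ d + 1)
    (hy : D g y ≤ d + 1) (h : tcl x y) : tcl (fd hN g d x) (fd hN g d y) := by
  by_cases hx1 : D g x = d + 1
  · by_cases hy1 : D g y = d + 1
    · have : x = y := eq_of_D g h (by rw [hx1, hy1])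
      rw [this]
      exact tcl_refl _
    · have h1 := D_lip g h
      have h2 : y = stp hN g x := eq_stp hN g (tcl_symm h) (by omega)
      have h3 : fd hN g d x = stp hN g x := by unfold fd; rw [if_pos hx1]
      have h4 : fd hN g d y = y := by unfold fd; rw [if_neg hy1]
      rw [h3, h4, ← h2]
      exact tcl_refl _
  · have h4 : fd hN g d x = x := by unfold fd; rw [if_neg hx1]
    rw [h4]
    exact fd_one hN g d hx h

theorem D_le (g : Γ) (x : Tr Γ N) : D g x ≤ 2 * N := by
  rcases x with _ | ⟨h, a⟩
  · simp only [D]; omega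
  · have := a.2
    simp only [D]
    split_ifs <;> omega

end tree

section region

variable {Γ : Type} [DecidableEq Γ] [Fintype Γ] {N : ℕ}

/-- configurations -/
abbrev Cf (Γ : Type) (N : ℕ) : Type := Fin 11 → Tr Γ N

/-- closeness of configurations -/
def cl (c c' : Cf Γ N) : Prop := ∀ i, tcl (c i) (c' i)

theorem cl_refl (c : Cf Γ N) : cl c c := fun _ => tcl_refl _

theorem cl_symm (c c' : Cf Γ N) (h : cl c c') : cl c' c := fun i => tcl_symm (h i)

theorem fold_level (hN : 0 < N) (g : Γ) (l : Fin 11) (R : Set (Cf Γ N))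
    (hclosed : ∀ c ∈ R, D g (c l) ≠ 0 → Function.update c l (stp hN g (c l)) ∈ R) (d m : ℕ)
    (h : Ext m (Re (Cliq cl {c : Cf Γ N | c ∈ R ∧ D g (c l) ≤ d}))) :
    Ext m (Re (Cliq cl {c : Cf Γ N | c ∈ R ∧ D g (c l) ≤ d + 1})) := by
  refine fold_ext ?_ (fun c => Function.update c l (fd hN g d (c l))) ?_ cl_symm ?_ ?_ h
  · rintro c ⟨h1, h2⟩
    exact ⟨h1, by omega⟩
  · rintro c ⟨h1, h2⟩
    by_cases hc : D g (c l) = d + 1
    · refine ⟨?_, ?_⟩
      · simp only [fd, if_pos hc]
        exact hclosed c h1 (by omega)
      · simp only [fd, if_pos hc, Function.update_self]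
        rw [D_stp]
        omega
    · refine ⟨?_, ?_⟩
      · simp only [fd, if_neg hc, Function.update_eq_self]
        exact h1
      · simp only [fd, if_neg hc, Function.update_eq_self]
        omega
  · rintro c ⟨_, h1⟩ c' _ hcc i
    by_cases hi : i = l
    · subst hi
      rw [Function.update_self]
      exact fd_one hN g d h1 (hcc i)
    · rw [Function.update_of_ne hi]
      exact hcc i
  · rintro c ⟨_, h1⟩ c' ⟨_, h2⟩ hcc i
    by_cases hi : i = l
    · subst hi
      rw [Function.update_self, Function.update_self]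
      exact fd_two hN g d h1 h2 (hcc i)
    · rw [Function.update_of_ne hi, Function.update_of_ne hi]
      exact hcc i

theorem fold_coord (hN : 0 < N) (g : Γ) (l : Fin 11) (R R' : Set (Cf Γ N))
    (hclosed : ∀ c ∈ R, D g (c l) ≠ 0 → Function.update c l (stp hN g (c l)) ∈ R) (m : ℕ)
    (hR' : ∀ c, c ∈ R' ↔ c ∈ R ∧ c l = top hN g)
    (h : Ext m (Re (Cliq cl R'))) : Ext m (Re (Cliq cl R)) := by
  have key : ∀ d, Ext m (Re (Cliq cl {c : Cf Γ N | c ∈ R ∧ D g (c l) ≤ d})) := by
    intro d
    induction d with
    | zero =>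
      have : {c : Cf Γ N | c ∈ R ∧ D g (c l) ≤ 0} = R' := by
        ext c
        rw [hR']
        simp only [mem_ofPred_eq, Nat.le_zero]
        constructor
        · rintro ⟨h1, h2⟩
          exact ⟨h1, eq_top hN g h2⟩
        · rintro ⟨h1, h2⟩
          exact ⟨h1, by rw [h2, D_top]⟩
      rw [this]
      exact h
    | succ d ih => exact fold_level hN g l R hclosed d m ih
  have h2 := key (2 * N)
  have : {c : Cf Γ N | c ∈ R ∧ D g (c l) ≤ 2 * N} = R := by
    ext c
    simp only [mem_ofPred_eq]
    exact ⟨fun h => h.1, fun h => ⟨h, D_le g _⟩⟩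
  rwa [this] at h2

/-- boxes -/
def Bx (s : Finset (Fin 11)) (z : Cf Γ N) : Set (Cf Γ N) := {c | ∀ i ∈ s, c i = z i}

theorem box_ext (hN : 0 < N) (g : Γ) (m : ℕ) : ∀ (n : ℕ) (s : Finset (Fin 11)) (z : Cf Γ N),
    sᶜ.card = n → Ext m (Re (Cliq cl (Bx s z))) := by
  intro n
  induction n with
  | zero =>
    intro s z hs
    rw [Finset.card_eq_zero, Finset.compl_eq_empty_iff] at hs
    have : Bx s z = {z} := by
      ext c
      simp only [Bx, mem_ofPred_eq, mem_singleton_iff, hs, Finset.mem_univ, true_implies]
      exact ⟨fun h => funext h, fun h i => congrFun h i⟩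
    rw [this]
    exact point_ext z (cl_refl z) m
  | succ n ih =>
    intro s z hs
    obtain ⟨i, hi⟩ : sᶜ.Nonempty := by
      rw [← Finset.card_pos]; omega
    rw [Finset.mem_compl] at hi
    refine fold_coord hN g i _ (Bx (insert i s) (Function.update z i (top hN g))) ?_ m ?_ ?_
    · intro c hc _ j hj
      have hji : j ≠ i := by rintro rfl; exact hi hj
      rw [Function.update_of_ne hji]
      exact hc j hj
    · intro c
      constructor
      · intro h
        refine ⟨fun j hj => ?_, ?_⟩
        · have hji : j ≠ i := by rintro rfl; exact hi hj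
          have := h j (Finset.mem_insert_of_mem hj)
          rwa [Function.update_of_ne hji] at this
        · have := h i (Finset.mem_insert_self i s)
          rwa [Function.update_self] at this
      · rintro ⟨h1, h2⟩ j hj
        by_cases hji : j = i
        · subst hji
          rw [Function.update_self]
          exact h2
        · rw [Function.update_of_ne hji]
          exact h1 j (Finset.mem_of_mem_insert_of_ne hj hji)
    · refine ih _ _ ?_
      rw [Finset.compl_insert, Finset.card_erase_of_mem (Finset.mem_compl.2 hi), hs]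
      rfl

theorem exists_third : ∀ j j' : Fin 6, ∃ j'' : Fin 6, j ≠ j'' ∧ j'' ≠ j' := by decide

/-- being a top -/
def IsTop (hN : 0 < N) (x : Tr Γ N) : Prop := ∃ g, x = top hN g

/-- the region -/
def Rg (hN : 0 < N) (l : ℕ) (z : Cf Γ N) : Set (Cf Γ N) :=
  {c | (∀ i : Fin 11, l ≤ i.1 → c i = z i) ∧ ∃ i : Fin 11, i.1 < l ∧ IsTop hN (c i)}

theorem D_other (hN : 0 < N) {g g' : Γ} (h : g' ≠ g) : D g (top hN g' : Tr Γ N) = 2 * N := by
  simp only [D, top, if_neg h]
  omega

theorem leg_unique (hN3 : 3 ≤ N) {g g' : Γ} {x : Tr Γ N} (h : D g x ≤ 2) (h' : D g' x ≤ 2) :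
    g = g' := by
  rcases x with _ | ⟨k, a⟩
  · simp only [D] at h
    omega
  · simp only [D] at h h'
    by_cases h1 : k = g
    · by_cases h2 : k = g'
      · rw [← h1, ← h2]
      · rw [if_neg h2] at h'
        omega
    · rw [if_neg h1] at h
      omega

theorem region_ext (hN : 0 < N) (hN3 : 3 ≤ N) (g0 : Γ) : ∀ l : ℕ, l ≤ 11 → ∀ z : Cf Γ N,
    ∀ m < l, Ext m (Re (Cliq cl (Rg hN l z))) := by
  intro l
  induction l with
  | zero =>
    intro _ _ m hm
    exact absurd hm (Nat.not_lt_zero m)
  | succ l ih =>
    intro hl z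
    have ih := ih (by omega)
    let il : Fin 11 := ⟨l, by omega⟩
    let R0 : Set (Cf Γ N) := {c | (∀ i : Fin 11, l + 1 ≤ i.1 → c i = z i) ∧
      ((∃ i : Fin 11, i.1 < l ∧ IsTop hN (c i)) ∨ c il = top hN g0)}
    let U : Γ → Set (Cf Γ N) := fun g => {c | (∀ i : Fin 11, l + 1 ≤ i.1 → c i = z i) ∧
      ((∃ i : Fin 11, i.1 < l ∧ IsTop hN (c i)) ∨ IsTop hN (c il)) ∧ D g (c il) ≤ 2}
    let sl : Finset (Fin 11) := Finset.univ.filter fun i => l ≤ i.1
    have hupd : ∀ (c : Cf Γ N) (x : Tr Γ N), (∀ i : Fin 11, l + 1 ≤ i.1 → c i = z i) →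
        ∀ i : Fin 11, l + 1 ≤ i.1 → Function.update c il x i = z i := by
      intro c x h i hi
      have : i ≠ il := by
        rintro rfl
        simp only [il] at hi
        omega
      rw [Function.update_of_ne this]
      exact h i hi
    have hupt : ∀ (c : Cf Γ N) (x : Tr Γ N), (∃ i : Fin 11, i.1 < l ∧ IsTop hN (c i)) →
        ∃ i : Fin 11, i.1 < l ∧ IsTop hN (Function.update c il x i) := by
      rintro c x ⟨i, hi, hit⟩
      refine ⟨i, hi, ?_⟩
      have : i ≠ il := by
        rintro rfl
        simp only [il] at hi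
        omega
      rw [Function.update_of_ne this]
      exact hit
    have hbox : ∀ (g : Γ) (c : Cf Γ N), c ∈ Bx sl (Function.update z il (top hN g)) ↔
        ((∀ i : Fin 11, l + 1 ≤ i.1 → c i = z i) ∧ c il = top hN g) := by
      intro g c
      constructor
      · intro h
        refine ⟨fun i hi => ?_, ?_⟩
        · have h1 := h i (by simp only [sl, Finset.mem_filter, Finset.mem_univ, true_and]; omega)
          have : i ≠ il := by
            rintro rfl
            simp only [il] at hi
            omega
          rwa [Function.update_of_ne this] at h1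
        · have h1 := h il (by simp only [sl, il, Finset.mem_filter, Finset.mem_univ, true_and]; omega)
          rwa [Function.update_self] at h1
      · rintro ⟨h1, h2⟩ i hi
        simp only [sl, Finset.mem_filter, Finset.mem_univ, true_and] at hi
        by_cases hil : i = il
        · subst hil
          rw [Function.update_self]
          exact h2
        · rw [Function.update_of_ne hil]
          refine h1 i ?_
          have : i.1 ≠ l := fun h => hil (Fin.ext h)
          omega
    have e0 : ∀ m, Ext m (Re (Cliq cl R0)) := by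
      intro m
      refine fold_coord hN g0 il R0 (Bx sl (Function.update z il (top hN g0))) ?_ m ?_
        (box_ext hN g0 m _ _ _ rfl)
      · rintro c ⟨h1, h2⟩ hD
        refine ⟨hupd c _ h1, Or.inl ?_⟩
        rcases h2 with h2 | h2
        · exact hupt c _ h2
        · exact absurd (by rw [h2, D_top]) hD
      · intro c
        rw [hbox]
        constructor
        · rintro ⟨h1, h2⟩
          exact ⟨⟨h1, Or.inr h2⟩, h2⟩
        · rintro ⟨⟨h1, _⟩, h2⟩
          exact ⟨h1, h2⟩
    have eU : ∀ g m, Ext m (Re (Cliq cl (U g))) := by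
      intro g m
      refine fold_coord hN g il (U g) (Bx sl (Function.update z il (top hN g))) ?_ m ?_
        (box_ext hN g0 m _ _ _ rfl)
      · rintro c ⟨h1, h2, h3⟩ hD
        refine ⟨hupd c _ h1, Or.inl ?_, ?_⟩
        · rcases h2 with h2 | ⟨g', h2⟩
          · exact hupt c _ h2
          · exfalso
            have : g' = g := by
              by_contra hne
              rw [h2, D_other hN hne] at h3
              omega
            rw [h2, this, D_top] at hD
            exact hD rfl
        · rw [Function.update_self, D_stp]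
          omega
      · intro c
        rw [hbox]
        constructor
        · rintro ⟨h1, h2⟩
          exact ⟨⟨h1, Or.inr ⟨g, h2⟩, by rw [h2, D_top]; omega⟩, h2⟩
        · rintro ⟨⟨h1, _⟩, h2⟩
          exact ⟨h1, h2⟩
    have eI : ∀ g, g ≠ g0 → ∀ m < l, Ext m (Re (Cliq cl (R0 ∩ U g))) := by
      intro g hg m hm
      refine fold_coord hN g il (R0 ∩ U g) (Rg hN l (Function.update z il (top hN g))) ?_ m ?_
        (ih _ m hm)
      · rintro c ⟨⟨h1, h2⟩, ⟨_, _, h5⟩⟩ hD
        have h6 : ∃ i : Fin 11, i.1 < l ∧ IsTop hN (c i) := by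
          rcases h2 with h2 | h2
          · exact h2
          · exfalso
            rw [h2, D_other hN hg.symm] at h5
            omega
        refine ⟨⟨hupd c _ h1, Or.inl (hupt c _ h6)⟩, ⟨hupd c _ h1, Or.inl (hupt c _ h6), ?_⟩⟩
        rw [Function.update_self, D_stp]
        omega
      · intro c
        have hb := hbox g c
        constructor
        · rintro ⟨h1, h2⟩
          obtain ⟨h3, h4⟩ := hb.1 (fun i hi => h1 i (by simpa [sl] using hi))
          exact ⟨⟨⟨h3, Or.inl h2⟩, ⟨h3, Or.inl h2, by rw [h4, D_top]; omega⟩⟩, h4⟩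
        · rintro ⟨⟨⟨h1, h2⟩, _⟩, h4⟩
          refine ⟨fun i hi => hb.2 ⟨h1, h4⟩ i (by simpa [sl] using hi), ?_⟩
          rcases h2 with h2 | h2
          · exact h2
          · exfalso
            rw [h4] at h2
            apply hg
            have h5 : D g (top hN g0 : Tr Γ N) = 0 := by rw [← h2, D_top]
            by_contra hne
            rw [D_other hN (Ne.symm hne)] at h5
            omega
    have hd : ∀ g g', g ≠ g' → U g ∩ U g' = ∅ := by
      intro g g' hne
      rw [Set.eq_empty_iff_forall_notMem]
      rintro c ⟨⟨_, _, h1⟩, ⟨_, _, h2⟩⟩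
      exact hne (leg_unique hN3 h1 h2)
    have hcover : Cliq cl (Rg hN (l + 1) z) =
        Cliq cl R0 ∪ ⋃ g ∈ Finset.univ.erase g0, Cliq cl (U g) := by
      apply Subset.antisymm
      · intro S hS
        by_cases hS0 : S ∈ Cliq cl R0
        · exact Or.inl hS0
        · right
          have hex : ∃ τ ∈ S, ∃ j, τ j ∉ R0 := by
            by_contra hcon
            push Not at hcon
            exact hS0 fun τ hτ => ⟨hcon τ hτ, (hS τ hτ).2⟩
          obtain ⟨τ, hτ, j, hj⟩ := hex
          obtain ⟨h1, i, hi, g, hig⟩ := (hS τ hτ).1 j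
          have hil : i = il := by
            by_contra hne
            apply hj
            refine ⟨h1, Or.inl ⟨i, ?_, g, hig⟩⟩
            have : i.1 ≠ l := fun h => hne (Fin.ext h)
            omega
          rw [hil] at hig
          have hg : g ≠ g0 := by
            rintro rfl
            exact hj ⟨h1, Or.inr hig⟩
          simp only [mem_iUnion, exists_prop]
          refine ⟨g, Finset.mem_erase.2 ⟨hg, Finset.mem_univ _⟩, ?_⟩
          intro τ' hτ'
          refine ⟨fun j' => ?_, (hS τ' hτ').2⟩
          obtain ⟨h1', i', hi', hit'⟩ := (hS τ' hτ').1 j'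
          refine ⟨h1', ?_, ?_⟩
          · by_cases h : i' = il
            · right
              rw [← h]
              exact hit'
            · left
              refine ⟨i', ?_, hit'⟩
              have : i'.1 ≠ l := fun h' => h (Fin.ext h')
              omega
          · obtain ⟨j'', hj1, hj2⟩ := exists_third j j'
            have c1 := (hS τ hτ).2 τ hτ j j'' hj1 il
            have c2 := (hS τ hτ).2 τ' hτ' j'' j' hj2 il
            have d1 := D_lip g (tcl_symm c1)
            have d2 := D_lip g (tcl_symm c2)
            rw [hig, D_top] at d1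
            omega
      · rintro S (hS | hS)
        · refine cliq_mono ?_ hS
          rintro c ⟨h1, h2⟩
          refine ⟨h1, ?_⟩
          rcases h2 with ⟨i, hi, hit⟩ | h2
          · exact ⟨i, by omega, hit⟩
          · exact ⟨il, Nat.lt_succ_self l, g0, h2⟩
        · simp only [mem_iUnion, exists_prop] at hS
          obtain ⟨g, _, hS⟩ := hS
          refine cliq_mono ?_ hS
          rintro c ⟨h1, h2, _⟩
          refine ⟨h1, ?_⟩
          rcases h2 with ⟨i, hi, hit⟩ | h2
          · exact ⟨i, by omega, hit⟩
          · exact ⟨il, Nat.lt_succ_self l, h2⟩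
    rw [hcover]
    exact (multi_union R0 U l (fun m _ => e0 m) (Finset.univ.erase g0) (fun g _ m _ => eU g m)
      (fun g hg m hm => eI g (Finset.mem_erase.1 hg).1 m hm)
      (fun g _ g' _ hne => hd g g' hne)).2

end region

end Pool.Agent.H57.Cn
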