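import Mathlib
import Pool.Agent.H57.Tree

set_option autoImplicit false
set_option linter.unusedSectionVars false

/-!
# The hypergraph
-/

namespace Pool.Agent.H57.Cn

open Metric Set

/-- the symmetric group -/
abbrev Gp : Type := Equiv.Perm (Fin 6)

variable {N : ℕ}

/-- action on the tree -/
def actT (g : Gp) : Tr Gp N → Tr Gp N := Option.map fun p => (g * p.1, p.2)

/-- action on configurations -/
def actC (g : Gp) (c : Cf Gp N) : Cf Gp N := fun i => actT g (c i)

theorem actT_one (x : Tr Gp N) : actT 1 x = x := by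
  rcases x with _ | ⟨h, a⟩ <;> simp [actT]

theorem actT_mul (g h : Gp) (x : Tr Gp N) : actT (g * h) x = actT g (actT h x) := by
  rcases x with _ | ⟨k, a⟩ <;> simp [actT, mul_assoc]

theorem actC_one (c : Cf Gp N) : actC 1 c = c := funext fun _ => actT_one _

theorem actC_mul (g h : Gp) (c : Cf Gp N) : actC (g * h) c = actC g (actC h c) :=
  funext fun _ => actT_mul _ _ _

theorem tcl_act (g : Gp) {x y : Tr Gp N} (h : tcl x y) : tcl (actT g x) (actT g y) := by
  rcases x with _ | ⟨g1, a⟩ <;> rcases y with _ | ⟨g2, b⟩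
  · trivial
  · exact h
  · exact h
  · exact ⟨by rw [h.1], h.2.1, h.2.2⟩

theorem cl_act (g : Gp) {c c' : Cf Gp N} (h : cl c c') : cl (actC g c) (actC g c') :=
  fun i => tcl_act g (h i)

/-- the region of configurations with a top coordinate -/
def XX (hN : 0 < N) : Set (Cf Gp N) := {c | ∃ i, IsTop hN (c i)}

theorem act_top (hN : 0 < N) (g h : Gp) : actT g (top hN h) = top hN (g * h) := rfl

theorem XX_act (hN : 0 < N) (g : Gp) {c : Cf Gp N} (h : c ∈ XX hN) : actC g c ∈ XX hN := by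
  obtain ⟨i, k, hk⟩ := h
  exact ⟨i, g * k, by simp only [actC]; rw [hk, act_top]⟩

theorem rigid (hN : 0 < N) (hN2 : 2 ≤ N) {c c' : Cf Gp N} (hc : c ∈ XX hN) (h : cl c c')
    {g g' : Gp} (h' : cl (actC g c) (actC g' c')) : g = g' := by
  obtain ⟨i, k, hk⟩ := hc
  have h1 := h i
  have h2 := h' i
  simp only [actC] at h2
  rw [hk] at h1 h2
  rcases hx : c' i with _ | ⟨k', b⟩
  · exfalso
    rw [hx] at h1
    have h3 : N - 1 = 0 := h1
    omega
  · rw [hx] at h1 h2
    have h3 : k = k' := h1.1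
    have h4 : g * k = g' * k' := h2.1
    rw [← h3] at h4
    exact mul_right_cancel h4

/-- the orbit relation -/
def orb (N : ℕ) : Setoid (Cf Gp N × Fin 6) where
  r p q := ∃ g : Gp, q.1 = actC g p.1 ∧ q.2 = g p.2
  iseqv := by
    refine ⟨fun p => ⟨1, (actC_one _).symm, rfl⟩, ?_, ?_⟩
    · rintro p q ⟨g, h1, h2⟩
      refine ⟨g⁻¹, ?_, ?_⟩
      · rw [h1, ← actC_mul, inv_mul_cancel, actC_one]
      · rw [h2]; simp
    · rintro p q r ⟨g, h1, h2⟩ ⟨h, h3, h4⟩
      refine ⟨h * g, ?_, ?_⟩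
      · rw [h3, h1, actC_mul]
      · rw [h4, h2]; rfl

/-- vertices -/
def V (N : ℕ) : Type := Quotient (orb N)

noncomputable instance : DecidableEq (V N) := Classical.decEq _

instance : Finite (V N) := Quotient.finite _

noncomputable instance : Fintype (V N) := Fintype.ofFinite _

/-- the class of a pair -/
def mk (c : Cf Gp N) (j : Fin 6) : V N := Quotient.mk (orb N) (c, j)

theorem mk_eq {c c' : Cf Gp N} {j j' : Fin 6} : mk c j = mk c' j' ↔
    ∃ g : Gp, c' = actC g c ∧ j' = g j := by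
  constructor
  · intro h
    exact Quotient.exact (s := orb N) h
  · intro h
    exact Quotient.sound (s := orb N) h

/-- the ordered edge of a tuple -/
def pr (τ : Fin 6 → Cf Gp N) : Fin 6 → V N := fun j => mk (τ j) j

/-- good tuples -/
def Good (hN : 0 < N) (τ : Fin 6 → Cf Gp N) : Prop :=
  (∀ j, τ j ∈ XX hN) ∧ ∀ j j', j ≠ j' → cl (τ j) (τ j')

theorem exists_HH (hN : 0 < N) : ∃ H : Finset (Finset (V N)), ∀ e, e ∈ H ↔
    ∃ τ : Fin 6 → Cf Gp N, Good hN τ ∧ Finset.univ.image (pr τ) = e := by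
  classical
  exact ⟨(Finset.univ.filter fun τ : Fin 6 → Cf Gp N => Good hN τ).image
    fun τ => Finset.univ.image (pr τ), by simp⟩

/-- the hypergraph -/
noncomputable def HH (hN : 0 < N) : Finset (Finset (V N)) := Classical.choose (exists_HH hN)

theorem mem_HH (hN : 0 < N) (e : Finset (V N)) :
    e ∈ HH hN ↔ ∃ τ : Fin 6 → Cf Gp N, Good hN τ ∧ Finset.univ.image (pr τ) = e :=
  Classical.choose_spec (exists_HH hN) e

theorem mk_inj (hN : 0 < N) (hN2 : 2 ≤ N) {c c' : Cf Gp N} (hc : c ∈ XX hN) (h : cl c c')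
    {j j' : Fin 6} (he : mk c j = mk c' j') : j = j' := by
  obtain ⟨g, h1, h2⟩ := mk_eq.1 he
  have h3 : (1 : Gp) = g := by
    refine rigid hN hN2 hc (cl_refl c) ?_
    rw [actC_one, ← h1]
    exact h
  rw [h2, ← h3]
  rfl

theorem pr_inj (hN : 0 < N) (hN2 : 2 ≤ N) {τ : Fin 6 → Cf Gp N} (h : Good hN τ) :
    Function.Injective (pr τ) := by
  intro j j' hjj
  by_contra hne
  exact hne (mk_inj hN hN2 (h.1 j) (h.2 j j' hne) hjj)

theorem card_HH (hN : 0 < N) (hN2 : 2 ≤ N) (e : Finset (V N)) (he : e ∈ HH hN) :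
    e.card = 6 := by
  obtain ⟨τ, hτ, rfl⟩ := (mem_HH hN e).1 he
  rw [Finset.card_image_of_injective _ (pr_inj hN hN2 hτ)]
  simp

theorem exists_other : ∀ k : Fin 6, ∃ j0 : Fin 6, k ≠ j0 := by decide

/-- partial uniqueness of lifts -/
theorem lift_unique (hN : 0 < N) (hN2 : 2 ≤ N) {τ τ' : Fin 6 → Cf Gp N} (h : Good hN τ)
    (h' : Good hN τ') (j0 : Fin 6) (hpr : ∀ j, j ≠ j0 → pr τ j = pr τ' j) :
    ∀ j, j ≠ j0 → τ j = τ' j := by
  have hg : ∀ j, j ≠ j0 → ∃ g : Gp, τ' j = actC g (τ j) ∧ j = g j := fun j hj =>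
    mk_eq.1 (hpr j hj)
  choose! g hg1 hg2 using hg
  have hconst : ∀ j, j ≠ j0 → ∀ j', j' ≠ j0 → g j = g j' := by
    intro j hj j' hj'
    by_cases hjj : j = j'
    · rw [hjj]
    · refine rigid hN hN2 (h.1 j) (h.2 j j' hjj) ?_
      rw [← hg1 j hj, ← hg1 j' hj']
      exact h'.2 j j' hjj
  intro j hj
  have hfix : ∀ k, k ≠ j0 → g j k = k := by
    intro k hk
    rw [hconst j hj k hk]
    exact (hg2 k hk).symm
  have hone : g j = 1 := by
    ext k
    by_cases hk : k = j0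
    · subst hk
      by_contra hne
      have h1 : g j k ≠ k := fun h => hne (by rw [h]; rfl)
      have h2 := hfix _ h1
      exact h1 ((g j).injective h2)
    · rw [hfix k hk]; rfl
  rw [hg1 j hj, hone, actC_one]

theorem exists_lift (hN : 0 < N) (hN2 : 2 ≤ N) (t : Fin 6 → V N)
    (ht : Finset.univ.image t ∈ HH hN) : ∃ τ : Fin 6 → Cf Gp N, Good hN τ ∧ pr τ = t := by
  have hcard := card_HH hN hN2 _ ht
  obtain ⟨τ0, hτ0, he⟩ := (mem_HH hN _).1 ht
  have htinj : Function.Injective t := by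
    have h1 : (Finset.univ.image t).card = (Finset.univ : Finset (Fin 6)).card := by
      rw [hcard]; simp
    have h2 := Finset.card_image_iff.1 h1
    rwa [Finset.coe_univ, Set.injOn_univ] at h2
  have hs : ∀ j, ∃ s, pr τ0 s = t j := by
    intro j
    have : t j ∈ Finset.univ.image (pr τ0) := by
      rw [he]
      exact Finset.mem_image_of_mem t (Finset.mem_univ j)
    obtain ⟨s, _, hs⟩ := Finset.mem_image.1 this
    exact ⟨s, hs⟩
  choose s hs using hs
  have hsinj : Function.Injective s := by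
    intro j j' hjj
    apply htinj
    rw [← hs, ← hs, hjj]
  let σ : Gp := Equiv.ofBijective s (Finite.injective_iff_bijective.1 hsinj)
  have hσ : ∀ j, σ j = s j := fun j => rfl
  refine ⟨fun j => actC σ⁻¹ (τ0 (σ j)), ⟨fun j => XX_act hN _ (hτ0.1 _), fun j j' hjj => ?_⟩, ?_⟩
  · exact cl_act _ (hτ0.2 _ _ (σ.injective.ne hjj))
  · funext j
    rw [← hs j]
    simp only [pr]
    rw [mk_eq]
    refine ⟨σ, ?_, (hσ j).symm⟩
    rw [← actC_mul, mul_inv_cancel, actC_one, hσ]

/-- lifts of transversals of a box agree where the transversals agree -/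
theorem lift_agree (hN : 0 < N) (hN2 : 2 ≤ N) (W : Fin 6 → Finset (V N))
    (hW : ∀ t : Fin 6 → V N, (∀ j, t j ∈ W j) → Finset.univ.image t ∈ HH hN) :
    ∀ (n : ℕ) (τ τ' : Fin 6 → Cf Gp N), Good hN τ → Good hN τ' → (∀ j, pr τ j ∈ W j) →
      (∀ j, pr τ' j ∈ W j) → (Finset.univ.filter fun i => pr τ i ≠ pr τ' i).card = n →
      ∀ k, pr τ k = pr τ' k → τ k = τ' k := by
  intro n
  induction n with
  | zero =>
    intro τ τ' h h' _ _ hn k _
    rw [Finset.card_eq_zero, Finset.filter_eq_empty_iff] at hn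
    obtain ⟨j0, hj0⟩ := exists_other k
    refine lift_unique hN hN2 h h' j0 (fun j _ => ?_) k hj0
    have := hn (Finset.mem_univ j)
    push Not at this
    exact this
  | succ n ih =>
    intro τ τ' h h' hτ hτ' hn k hk
    have hne : (Finset.univ.filter fun i => pr τ i ≠ pr τ' i).Nonempty := by
      rw [← Finset.card_pos]; omega
    obtain ⟨i, hi⟩ := hne
    have hi2 := (Finset.mem_filter.1 hi).2
    have ht1 : ∀ j, Function.update (pr τ) i (pr τ' i) j ∈ W j := by
      intro j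
      by_cases hj : j = i
      · subst hj
        rw [Function.update_self]
        exact hτ' j
      · rw [Function.update_of_ne hj]
        exact hτ j
    obtain ⟨τ1, h1, hpr1⟩ := exists_lift hN hN2 _ (hW _ ht1)
    have hki : k ≠ i := by
      rintro rfl
      exact hi2 hk
    have e1 : pr τ1 k = pr τ k := by rw [hpr1, Function.update_of_ne hki]
    have hcard : (Finset.univ.filter fun i => pr τ1 i ≠ pr τ' i).card = n := by
      have : (Finset.univ.filter fun i => pr τ1 i ≠ pr τ' i) =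
          (Finset.univ.filter fun i => pr τ i ≠ pr τ' i).erase i := by
        ext j
        simp only [Finset.mem_filter, Finset.mem_univ, true_and, Finset.mem_erase]
        by_cases hj : j = i
        · subst hj
          simp [hpr1]
        · rw [hpr1, Function.update_of_ne hj]
          simp [hj]
      rw [this, Finset.card_erase_of_mem hi, hn]
      rfl
    have e2 := ih τ1 τ' h1 h' (by rw [hpr1]; exact ht1) hτ' hcard k (e1.trans hk)
    rw [← e2]
    refine lift_unique hN hN2 h h1 i (fun j hj => ?_) k hki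
    rw [hpr1, Function.update_of_ne hj]

theorem box_close (hN : 0 < N) (hN2 : 2 ≤ N) (W : Fin 6 → Finset (V N))
    (hW : ∀ t : Fin 6 → V N, (∀ j, t j ∈ W j) → Finset.univ.image t ∈ HH hN)
    {τ τ' : Fin 6 → Cf Gp N} (h : Good hN τ) (h' : Good hN τ') (hτ : ∀ j, pr τ j ∈ W j)
    (hτ' : ∀ j, pr τ' j ∈ W j) (j j' : Fin 6) (hjj : j ≠ j') : cl (τ j) (τ' j') := by
  have ht1 : ∀ i, Function.update (pr τ) j' (pr τ' j') i ∈ W i := by
    intro i
    by_cases hi : i = j'
    · subst hi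
      rw [Function.update_self]
      exact hτ' i
    · rw [Function.update_of_ne hi]
      exact hτ i
  obtain ⟨τ1, h1, hpr1⟩ := exists_lift hN hN2 _ (hW _ ht1)
  have e1 : τ1 j = τ j := by
    refine lift_agree hN hN2 W hW _ τ1 τ h1 h (by rw [hpr1]; exact ht1) hτ rfl j ?_
    rw [hpr1, Function.update_of_ne hjj]
  have e2 : τ1 j' = τ' j' := by
    refine lift_agree hN hN2 W hW _ τ1 τ' h1 h' (by rw [hpr1]; exact ht1) hτ' rfl j' ?_
    rw [hpr1, Function.update_self]
  rw [← e1, ← e2]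
  exact h1.2 j j' hjj

theorem good_inj (hN : 0 < N) (hN2 : 2 ≤ N) {τ τ' : Fin 6 → Cf Gp N} (h : Good hN τ)
    (h' : Good hN τ') (hpr : pr τ = pr τ') : τ = τ' := by
  funext j
  obtain ⟨j0, hj0⟩ := exists_other j
  exact lift_unique hN hN2 h h' j0 (fun j _ => by rw [hpr]) j hj0

/-- the target set of the statement -/
def XS (hN : 0 < N) : Set ((Fin 6 → V N) → ℝ) :=
  {x | (∀ f, 0 ≤ x f) ∧ (∑ f, x f) = 1 ∧
    ∃ W : Fin 6 → Finset (V N),
      (∀ i j, i ≠ j → Disjoint (W i) (W j)) ∧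
      (∀ t : Fin 6 → V N, (∀ j, t j ∈ W j) → Finset.univ.image t ∈ HH hN) ∧
      (∀ f, x f ≠ 0 → ∀ j, f j ∈ W j)}

open Classical in
/-- push forward to the quotient -/
noncomputable def Ph (x : (Fin 6 → Cf Gp N) → ℝ) : (Fin 6 → V N) → ℝ :=
  fun t => ∑ τ, if pr τ = t then x τ else 0

open Classical in
/-- pull back from the quotient -/
noncomputable def Ps (hN : 0 < N) (y : (Fin 6 → V N) → ℝ) : (Fin 6 → Cf Gp N) → ℝ :=
  fun τ => if Good hN τ then y (pr τ) else 0

theorem continuous_Ph : Continuous (Ph : ((Fin 6 → Cf Gp N) → ℝ) → _) := by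
  unfold Ph
  refine continuous_pi fun τ' => continuous_finsetSum _ fun τ _ => ?_
  split_ifs
  · exact continuous_apply τ
  · exact continuous_const

theorem continuous_Ps (hN : 0 < N) : Continuous (Ps hN) := by
  unfold Ps
  refine continuous_pi fun τ => ?_
  split_ifs
  · exact continuous_apply _
  · exact continuous_const

theorem Ph_Ps (hN : 0 < N) (hN2 : 2 ≤ N) {y : (Fin 6 → V N) → ℝ} (hy : y ∈ XS hN) :
    Ph (Ps hN y) = y := by
  classical
  obtain ⟨_, _, W, _, hW2, hW3⟩ := hy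
  funext t
  unfold Ph Ps
  by_cases ht : y t = 0
  · rw [ht]
    refine Finset.sum_eq_zero fun τ _ => ?_
    by_cases h1 : pr τ = t
    · rw [if_pos h1, h1, ht]
      simp
    · rw [if_neg h1]
  · obtain ⟨τ0, h0, hpr0⟩ := exists_lift hN hN2 t (hW2 t (hW3 t ht))
    rw [Finset.sum_eq_single τ0]
    · rw [if_pos hpr0, if_pos h0, hpr0]
    · intro τ _ hτ
      by_cases h1 : pr τ = t
      · rw [if_pos h1, if_neg]
        intro h2
        exact hτ (good_inj hN hN2 h2 h0 (h1.trans hpr0.symm))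
      · rw [if_neg h1]
    · intro h
      exact absurd (Finset.mem_univ _) h

theorem Ph_sum (x : (Fin 6 → Cf Gp N) → ℝ) : ∑ t, Ph x t = ∑ τ, x τ := by
  classical
  unfold Ph
  rw [Finset.sum_comm]
  refine Finset.sum_congr rfl fun τ _ => ?_
  simp

theorem Ps_mem (hN : 0 < N) (hN2 : 2 ≤ N) {y : (Fin 6 → V N) → ℝ} (hy : y ∈ XS hN) :
    Ps hN y ∈ Re (Cliq cl (XX hN)) := by
  classical
  have hsum : ∑ τ, Ps hN y τ = 1 := by
    rw [← Ph_sum, Ph_Ps hN hN2 hy]
    exact hy.2.1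
  obtain ⟨hy1, hy2, W, _, hW2, hW3⟩ := hy
  refine ⟨fun τ => ?_, hsum, ?_⟩
  · unfold Ps
    split_ifs
    · exact hy1 _
    · exact le_rfl
  · have hsup : ∀ τ ∈ Function.support (Ps hN y), Good hN τ ∧ ∀ j, pr τ j ∈ W j := by
      intro τ hτ
      rw [Function.mem_support] at hτ
      unfold Ps at hτ
      by_cases hg : Good hN τ
      · rw [if_pos hg] at hτ
        exact ⟨hg, hW3 _ hτ⟩
      · rw [if_neg hg] at hτ
        exact absurd rfl hτ
    intro τ hτ
    obtain ⟨h1, h2⟩ := hsup τ hτ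
    refine ⟨h1.1, fun τ' hτ' j j' hjj => ?_⟩
    obtain ⟨h3, h4⟩ := hsup τ' hτ'
    exact box_close hN hN2 W hW2 h1 h3 h2 h4 j j' hjj

theorem Ph_mem (hN : 0 < N) (hN2 : 2 ≤ N) {x : (Fin 6 → Cf Gp N) → ℝ}
    (hx : x ∈ Re (Cliq cl (XX hN))) : Ph x ∈ XS hN := by
  classical
  obtain ⟨hx1, hx2, hx3⟩ := hx
  refine ⟨fun t => ?_, by rw [Ph_sum, hx2], ?_⟩
  · refine Finset.sum_nonneg fun τ _ => ?_
    split_ifs
    · exact hx1 _
    · exact le_rfl
  · refine ⟨fun j => Finset.univ.filter fun v => ∃ τ ∈ Function.support x, mk (τ j) j = v,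
      ?_, ?_, ?_⟩
    · intro i j hij
      rw [Finset.disjoint_left]
      intro v hv1 hv2
      obtain ⟨τ, hτ, h1⟩ := (Finset.mem_filter.1 hv1).2
      obtain ⟨τ', hτ', h2⟩ := (Finset.mem_filter.1 hv2).2
      exact hij (mk_inj hN hN2 ((hx3 τ hτ).1 i) ((hx3 τ hτ).2 τ' hτ' i j hij) (h1.trans h2.symm))
    · intro t ht
      have ht' : ∀ j, ∃ τ ∈ Function.support x, mk (τ j) j = t j := fun j =>
        (Finset.mem_filter.1 (ht j)).2
      choose T hT1 hT2 using ht'
      rw [mem_HH]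
      have hpr : pr (fun j => T j j) = t := funext hT2
      refine ⟨fun j => T j j, ⟨fun j => (hx3 _ (hT1 j)).1 j, fun j j' hjj =>
        (hx3 _ (hT1 j)).2 _ (hT1 j') j j' hjj⟩, ?_⟩
      rw [hpr]
    · intro t ht j
      rw [Finset.mem_filter]
      refine ⟨Finset.mem_univ _, ?_⟩
      obtain ⟨τ, _, hτ⟩ := Finset.exists_ne_zero_of_sum_ne_zero ht
      by_cases h1 : pr τ = t
      · rw [if_pos h1] at hτ
        exact ⟨τ, hτ, congrFun h1 j⟩
      · rw [if_neg h1] at hτ
        exact absurd rfl hτ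

theorem ext_transfer {F F' : Type} [TopologicalSpace F] [TopologicalSpace F'] {Y : Set F}
    {Y' : Set F'} (Φ : F' → F) (Ψ : F → F') (hΦ : Continuous Φ) (hΨ : Continuous Ψ)
    (h1 : MapsTo Ψ Y Y') (h2 : MapsTo Φ Y' Y) (h3 : ∀ y ∈ Y, Φ (Ψ y) = y) {m : ℕ}
    (h : Ext m Y') : Ext m Y := by
  intro g hg hgX
  obtain ⟨k, hk1, hk2, hk3⟩ := h (fun x => Ψ (g x)) (hΨ.comp_continuousOn hg)
    (fun x hx => h1 (hgX hx))
  refine ⟨fun x => Φ (k x), hΦ.comp_continuousOn hk1, fun x hx => h2 (hk2 hx), fun x hx => ?_⟩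
  simp only
  rw [hk3 hx]
  exact h3 _ (hgX hx)

theorem Rg_eq (hN : 0 < N) : Rg hN 11 (fun _ => none) = XX hN := by
  ext c
  constructor
  · rintro ⟨_, i, _, h⟩
    exact ⟨i, h⟩
  · rintro ⟨i, h⟩
    exact ⟨fun i hi => absurd i.2 (by omega), i, i.2, h⟩

theorem ext_XX (hN : 0 < N) (hN3 : 3 ≤ N) (m : ℕ) (hm : m < 11) :
    Ext m (Re (Cliq cl (XX hN))) := by
  rw [← Rg_eq hN]
  exact region_ext hN hN3 (1 : Gp) 11 le_rfl (fun _ => none) m hm

/-- the complex of ordered edges is 9-connected -/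
theorem ext_XS (hN : 0 < N) (hN3 : 3 ≤ N) (m : ℕ) (hm : m < 11) : Ext m (XS hN) := by
  have hN2 : 2 ≤ N := by omega
  exact ext_transfer Ph (Ps hN) continuous_Ph (continuous_Ps hN)
    (fun y hy => Ps_mem hN hN2 hy) (fun x hx => Ph_mem hN hN2 hx)
    (fun y hy => Ph_Ps hN hN2 hy) (ext_XX hN hN3 m hm)

end Pool.Agent.H57.Cn
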