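import Mathlib
import Pool.Agent.H57.Hyper
import Pool.Agent.H57.Fam

set_option autoImplicit false
set_option linter.unusedSectionVars false

/-!
# The colouring
-/

namespace Pool.Agent.H57.Cn

open Metric Set

section colour

variable {N : ℕ}

/-- leg of a tree vertex -/
def leg : Tr Gp N → Gp
  | none => 1
  | some p => p.1

/-- relative height of a tree vertex -/
noncomputable def hgt : Tr Gp N → ℝ
  | none => 0
  | some p => ((p.2.1 : ℝ) + 1) / N

theorem hgt_nonneg (x : Tr Gp N) : 0 ≤ hgt x := by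
  rcases x with _ | ⟨h, a⟩
  · exact le_rfl
  · unfold hgt; positivity

theorem hgt_le_one (x : Tr Gp N) : hgt x ≤ 1 := by
  rcases x with _ | ⟨h, a⟩
  · exact zero_le_one
  · have ha := a.2
    have hN : (0 : ℝ) < N := by exact_mod_cast (by omega : 0 < N)
    unfold hgt
    rw [div_le_one hN]
    exact_mod_cast ha

theorem hgt_top (hN : 0 < N) (g : Gp) : hgt (top hN g : Tr Gp N) = 1 := by
  unfold hgt top
  simp only
  have h1 : (((N - 1 : ℕ) : ℝ) + 1) = N := by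
    have : N - 1 + 1 = N := by omega
    exact_mod_cast this
  rw [h1, div_self]
  exact_mod_cast hN.ne'

theorem hgt_act (g : Gp) (x : Tr Gp N) : hgt (actT g x) = hgt x := by
  rcases x with _ | ⟨h, a⟩ <;> rfl

theorem leg_act (g : Gp) (x : Tr Gp N) (hx : hgt x ≠ 0) : leg (actT g x) = g * leg x := by
  rcases x with _ | ⟨h, a⟩
  · exact absurd rfl hx
  · rfl

theorem hgt_close (hN : 0 < N) {x y : Tr Gp N} (h : tcl x y) : |hgt x - hgt y| ≤ 1 / N := by
  have hNr : (0 : ℝ) < N := by exact_mod_cast hN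
  rcases x with _ | ⟨g1, a⟩ <;> rcases y with _ | ⟨g2, b⟩
  · simp [hgt]
  · have h : b.1 = 0 := h
    simp only [hgt, h]
    rw [zero_sub, abs_neg, abs_of_nonneg (by positivity)]
    simp
  · have h : a.1 = 0 := h
    simp only [hgt, h]
    rw [sub_zero, abs_of_nonneg (by positivity)]
    simp
  · obtain ⟨_, h1, h2⟩ := h
    simp only [hgt]
    rw [← sub_div, abs_div, abs_of_pos hNr]
    refine div_le_div_of_nonneg_right ?_ hNr.le
    have h3 : (a.1 : ℝ) ≤ b.1 + 1 := by exact_mod_cast h1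
    have h4 : (b.1 : ℝ) ≤ a.1 + 1 := by exact_mod_cast h2
    rw [abs_le]
    constructor <;> linarith

theorem hgt_small (hN : 0 < N) {x y : Tr Gp N} (h : tcl x y) (hl : leg x ≠ leg y) :
    hgt x ≤ 1 / N ∧ hgt y ≤ 1 / N := by
  have hNr : (0 : ℝ) < N := by exact_mod_cast hN
  have hpos : (0 : ℝ) ≤ 1 / N := by positivity
  rcases x with _ | ⟨g1, a⟩ <;> rcases y with _ | ⟨g2, b⟩
  · exact absurd rfl hl
  · have h : b.1 = 0 := h
    simp only [hgt, h]
    exact ⟨hpos, by simp⟩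
  · have h : a.1 = 0 := h
    simp only [hgt, h]
    exact ⟨by simp, hpos⟩
  · exact absurd h.1 hl

variable (F : (Fin 11 → Gp) → (Fin 11 → ℝ) → Fin 6 → ℝ × ℝ)

/-- the family evaluated on configurations -/
noncomputable def Fc (c : Cf Gp N) (j : Fin 6) : ℝ × ℝ :=
  F (fun i => leg (c i)) (fun i => hgt (c i)) j

/-- deviation from the mean -/
noncomputable def dev (c : Cf Gp N) (j : Fin 6) : ℝ × ℝ :=
  Fc F c j - (1 / 6 : ℝ) • ∑ k, Fc F c k

variable {F}

theorem Fc_act (h2 : ∀ (h : Gp) (g : Fin 11 → Gp) (a : Fin 11 → ℝ), (∀ i, 0 ≤ a i) → ∀ j,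
      F (fun i => h * g i) a (h j) = F g a j)
    (h3 : ∀ a : Fin 11 → ℝ, (∀ i, 0 ≤ a i) → ∀ g g' : Fin 11 → Gp,
      (∀ i, a i ≠ 0 → g i = g' i) → F g a = F g' a) (h : Gp) (c : Cf Gp N) (j : Fin 6) :
    Fc F (actC h c) (h j) = Fc F c j := by
  unfold Fc
  have e1 : (fun i => hgt (actC h c i)) = fun i => hgt (c i) := funext fun i => hgt_act h (c i)
  rw [e1]
  rw [h3 (fun i => hgt (c i)) (fun i => hgt_nonneg _) (fun i => leg (actC h c i))
    (fun i => h * leg (c i)) (fun i hi => leg_act h (c i) hi)]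
  exact h2 h _ _ (fun i => hgt_nonneg _) j

theorem dev_act (h2 : ∀ (h : Gp) (g : Fin 11 → Gp) (a : Fin 11 → ℝ), (∀ i, 0 ≤ a i) → ∀ j,
      F (fun i => h * g i) a (h j) = F g a j)
    (h3 : ∀ a : Fin 11 → ℝ, (∀ i, 0 ≤ a i) → ∀ g g' : Fin 11 → Gp,
      (∀ i, a i ≠ 0 → g i = g' i) → F g a = F g' a) (h : Gp) (c : Cf Gp N) (j : Fin 6) :
    dev F (actC h c) (h j) = dev F c j := by
  unfold dev
  rw [Fc_act h2 h3]
  congr 2
  rw [← Equiv.sum_comp h]
  exact Finset.sum_congr rfl fun k _ => Fc_act h2 h3 h c k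

theorem dev_sum (c : Cf Gp N) : ∑ j, dev F c j = 0 := by
  unfold dev
  rw [Finset.sum_sub_distrib, Finset.sum_const, Finset.card_univ, Fintype.card_fin]
  rw [← Nat.cast_smul_eq_nsmul ℝ, smul_smul]
  norm_num

/-- three functionals with zero sum -/
def ph (s : Fin 3) (v : ℝ × ℝ) : ℝ := ![v.1, v.2, -v.1 - v.2] s

theorem exists_kap (v : ℝ × ℝ) : ∃ s, ∀ t, ph t v ≤ ph s v := by
  obtain ⟨s, _, hs⟩ := Finset.exists_max_image (Finset.univ : Finset (Fin 3)) (fun s => ph s v)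
    ⟨0, Finset.mem_univ _⟩
  exact ⟨s, fun t => hs t (Finset.mem_univ _)⟩

/-- index of a maximal functional -/
noncomputable def kp (v : ℝ × ℝ) : Fin 3 := Classical.choose (exists_kap v)

theorem kp_spec (v : ℝ × ℝ) (t : Fin 3) : ph t v ≤ ph (kp v) v :=
  Classical.choose_spec (exists_kap v) t

theorem fin_min {α : Type} [Finite α] [Nonempty α] (Pr : α → ℝ → Prop)
    (hmono : ∀ a δ δ', δ' ≤ δ → Pr a δ → Pr a δ') (h : ∀ a, ∃ δ > 0, Pr a δ) :
    ∃ δ > 0, ∀ a, Pr a δ := by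
  classical
  have := Fintype.ofFinite α
  choose d hd1 hd2 using h
  obtain ⟨a0, ha0⟩ := Finite.exists_min d
  exact ⟨d a0, hd1 a0, fun a => hmono a _ _ (ha0 a) (hd2 a)⟩

theorem exists_unif (h1 : ∀ g j, Continuous (fun a => F g a j)) (ε : ℝ) (hε : 0 < ε) :
    ∃ δ > 0, ∀ (p : (Fin 11 → Gp) × Fin 6), ∀ a ∈ Icc (0 : Fin 11 → ℝ) 1,
      ∀ a' ∈ Icc (0 : Fin 11 → ℝ) 1, dist a a' < δ → dist (F p.1 a p.2) (F p.1 a' p.2) < ε := by
  refine fin_min (fun (p : (Fin 11 → Gp) × Fin 6) (δ : ℝ) => ∀ a ∈ Icc (0 : Fin 11 → ℝ) 1,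
      ∀ a' ∈ Icc (0 : Fin 11 → ℝ) 1, dist a a' < δ → dist (F p.1 a p.2) (F p.1 a' p.2) < ε) ?_ ?_
  · intro p δ δ' hδ h a ha a' ha' hd
    exact h a ha a' ha' (hd.trans_le hδ)
  · intro p
    have hc : IsCompact (Icc (0 : Fin 11 → ℝ) 1) := isCompact_Icc
    have hu := hc.uniformContinuousOn_of_continuous (h1 p.1 p.2).continuousOn
    rw [Metric.uniformContinuousOn_iff] at hu
    obtain ⟨δ, hδ, h⟩ := hu ε hε
    exact ⟨δ, hδ, h⟩

theorem exists_gap (h1 : ∀ g j, Continuous (fun a => F g a j))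
    (h4 : ∀ a : Fin 11 → ℝ, (∀ i, 0 ≤ a i) → (∀ i, a i ≤ 1) → (∃ i, a i = 1) →
      ∀ g, ¬ ∃ c, ∀ j, F g a j = c) :
    ∃ δ > 0, ∀ g : Fin 11 → Gp, ∀ a ∈ Icc (0 : Fin 11 → ℝ) 1, (∃ i, a i = 1) →
      ¬ ∀ j j', dist (F g a j) (F g a j') < δ := by
  refine fin_min (fun g δ => ∀ a ∈ Icc (0 : Fin 11 → ℝ) 1, (∃ i, a i = 1) →
      ¬ ∀ j j', dist (F g a j) (F g a j') < δ) ?_ ?_
  · intro g δ δ' hδ h a ha hex hcon
    exact h a ha hex fun j j' => (hcon j j').trans_le hδ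
  · intro g
    let S : Set (Fin 11 → ℝ) := {a | a ∈ Icc (0 : Fin 11 → ℝ) 1 ∧ ∃ i, a i = 1}
    have hS : IsCompact S := by
      have : S = Icc (0 : Fin 11 → ℝ) 1 ∩ ⋃ i, {a | a i = 1} := by
        ext a; simp [S]
      rw [this]
      refine isCompact_Icc.inter_right ?_
      exact isClosed_iUnion_of_finite fun i => isClosed_eq (continuous_apply i) continuous_const
    have hne : S.Nonempty := ⟨1, ⟨fun i => zero_le_one, le_rfl⟩, 0, rfl⟩
    let M : (Fin 11 → ℝ) → ℝ := fun a => ∑ j, dist (F g a j) (F g a 0)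
    have hM : Continuous M := continuous_finsetSum _ fun j _ => (h1 g j).dist (h1 g 0)
    obtain ⟨a0, ha0, hmin⟩ := hS.exists_isMinOn hne hM.continuousOn
    have hpos : 0 < M a0 := by
      have hnn : ∀ j ∈ (Finset.univ : Finset (Fin 6)), 0 ≤ dist (F g a0 j) (F g a0 0) :=
        fun _ _ => dist_nonneg
      refine lt_of_le_of_ne (Finset.sum_nonneg hnn) ?_
      intro h0
      have h5 := (Finset.sum_eq_zero_iff_of_nonneg hnn).1 h0.symm
      refine h4 a0 (fun i => ha0.1.1 i) (fun i => ha0.1.2 i) ha0.2 g ⟨F g a0 0, fun j => ?_⟩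
      exact dist_eq_zero.1 (h5 j (Finset.mem_univ j))
    refine ⟨M a0 / 6, by positivity, ?_⟩
    intro a ha hex hcon
    have h6 : M a0 ≤ M a := hmin ⟨ha, hex⟩
    have h7 : M a < ∑ _j : Fin 6, M a0 / 6 :=
      Finset.sum_lt_sum_of_nonempty ⟨0, Finset.mem_univ _⟩ fun j _ => hcon j 0
    rw [Finset.sum_const, Finset.card_univ, Fintype.card_fin, nsmul_eq_mul] at h7
    push_cast at h7
    linarith

theorem Fc_close (hN : 0 < N)
    (h3 : ∀ a : Fin 11 → ℝ, (∀ i, 0 ≤ a i) → ∀ g g' : Fin 11 → Gp,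
      (∀ i, a i ≠ 0 → g i = g' i) → F g a = F g' a) {ε δ : ℝ}
    (hu : ∀ (p : (Fin 11 → Gp) × Fin 6), ∀ a ∈ Icc (0 : Fin 11 → ℝ) 1,
      ∀ a' ∈ Icc (0 : Fin 11 → ℝ) 1, dist a a' < δ → dist (F p.1 a p.2) (F p.1 a' p.2) < ε)
    (hNδ : (1 : ℝ) / N < δ) {c c' : Cf Gp N} (h : cl c c') (j : Fin 6) :
    dist (Fc F c j) (Fc F c' j) < 2 * ε := by
  have hpos : (0 : ℝ) ≤ 1 / N := by positivity
  let a : Fin 11 → ℝ := fun i => hgt (c i)
  let a' : Fin 11 → ℝ := fun i => hgt (c' i)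
  let a'' : Fin 11 → ℝ := fun i => if leg (c i) = leg (c' i) then hgt (c i) else 0
  have ha : a ∈ Icc (0 : Fin 11 → ℝ) 1 := ⟨fun i => hgt_nonneg _, fun i => hgt_le_one _⟩
  have ha' : a' ∈ Icc (0 : Fin 11 → ℝ) 1 := ⟨fun i => hgt_nonneg _, fun i => hgt_le_one _⟩
  have ha'' : a'' ∈ Icc (0 : Fin 11 → ℝ) 1 := by
    constructor
    · intro i
      simp only [a'']
      split_ifs
      · exact hgt_nonneg _
      · exact le_rfl
    · intro i
      simp only [a'']
      split_ifs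
      · exact hgt_le_one _
      · exact zero_le_one
  have d1 : dist a a'' < δ := by
    refine lt_of_le_of_lt ?_ hNδ
    rw [dist_pi_le_iff hpos]
    intro i
    simp only [a, a'']
    split_ifs with hl
    · rw [dist_self]; exact hpos
    · rw [Real.dist_eq, sub_zero, abs_of_nonneg (hgt_nonneg _)]
      exact (hgt_small hN (h i) hl).1
  have d2 : dist a'' a' < δ := by
    refine lt_of_le_of_lt ?_ hNδ
    rw [dist_pi_le_iff hpos]
    intro i
    simp only [a', a'']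
    split_ifs with hl
    · exact hgt_close hN (h i)
    · rw [Real.dist_eq, zero_sub, abs_neg, abs_of_nonneg (hgt_nonneg _)]
      exact (hgt_small hN (h i) hl).2
  have e1 : F (fun i => leg (c i)) a'' = F (fun i => leg (c' i)) a'' := by
    refine h3 a'' (fun i => ha''.1 i) _ _ fun i hi => ?_
    by_contra hne
    apply hi
    simp only [a'', if_neg hne]
  have c1 := hu (fun i => leg (c i), j) a ha a'' ha'' d1
  have c2 := hu (fun i => leg (c' i), j) a'' ha'' a' ha' d2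
  simp only at c1 c2
  rw [e1] at c1
  calc dist (Fc F c j) (Fc F c' j) ≤ _ := dist_triangle _ (F (fun i => leg (c' i)) a'' j) _
    _ < 2 * ε := by
      have c1' : dist (Fc F c j) (F (fun i => leg (c' i)) a'' j) < ε := c1
      have c2' : dist (F (fun i => leg (c' i)) a'' j) (Fc F c' j) < ε := c2
      linarith

theorem dev_close {c c' : Cf Gp N} {ε : ℝ}
    (h : ∀ j, dist (Fc F c j) (Fc F c' j) < ε) (j : Fin 6) :
    dist (dev F c j) (dev F c' j) < 2 * ε := by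
  unfold dev
  have h1 := h j
  have h2 : dist ((1 / 6 : ℝ) • ∑ k, Fc F c k) ((1 / 6 : ℝ) • ∑ k, Fc F c' k) ≤ ε := by
    rw [dist_smul₀]
    have h3 : dist (∑ k, Fc F c k) (∑ k, Fc F c' k) ≤ ∑ k, dist (Fc F c k) (Fc F c' k) :=
      dist_sum_sum_le _ _ _
    have h4 : ∑ k, dist (Fc F c k) (Fc F c' k) ≤ ∑ _k : Fin 6, ε :=
      Finset.sum_le_sum fun k _ => (h k).le
    rw [Finset.sum_const, Finset.card_univ, Fintype.card_fin, nsmul_eq_mul] at h4
    push_cast at h4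
    have h5 : ‖(1 / 6 : ℝ)‖ = 1 / 6 := by norm_num
    rw [h5]
    linarith
  calc _ ≤ dist (Fc F c j) (Fc F c' j) +
        dist ((1 / 6 : ℝ) • ∑ k, Fc F c k) ((1 / 6 : ℝ) • ∑ k, Fc F c' k) :=
      dist_sub_sub_le _ _ _ _
    _ < 2 * ε := by linarith

theorem ph0 (v : ℝ × ℝ) : ph 0 v = v.1 := rfl

theorem ph1 (v : ℝ × ℝ) : ph 1 v = v.2 := rfl

theorem ph2 (v : ℝ × ℝ) : ph 2 v = -v.1 - v.2 := rfl

theorem ph_lip (s : Fin 3) (v w : ℝ × ℝ) : |ph s v - ph s w| ≤ 2 * dist v w := by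
  have h1 : |v.1 - w.1| ≤ dist v w := by
    rw [Prod.dist_eq, ← Real.dist_eq]; exact le_max_left _ _
  have h2 : |v.2 - w.2| ≤ dist v w := by
    rw [Prod.dist_eq, ← Real.dist_eq]; exact le_max_right _ _
  have h3 := abs_le.1 h1
  have h4 := abs_le.1 h2
  rw [abs_le]
  have hs : s = 0 ∨ s = 1 ∨ s = 2 := by
    revert s; decide
  rcases hs with rfl | rfl | rfl
  · rw [ph0, ph0]
    constructor <;> linarith [h3.1, h3.2, abs_nonneg (v.1 - w.1)]
  · rw [ph1, ph1]
    constructor <;> linarith [h4.1, h4.2, abs_nonneg (v.2 - w.2)]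
  · rw [ph2, ph2]
    constructor <;> linarith [h3.1, h3.2, h4.1, h4.2]

theorem ph_sum (v : ℝ × ℝ) : ph 0 v + ph 1 v + ph 2 v = 0 := by
  simp [ph]

theorem ph_kp_nonneg (v : ℝ × ℝ) : 0 ≤ ph (kp v) v := by
  have h0 := kp_spec v 0
  have h1 := kp_spec v 1
  have h2 := kp_spec v 2
  have h3 := ph_sum v
  linarith

theorem small_of_kp (v : ℝ × ℝ) {e : ℝ} (h : ph (kp v) v ≤ e) : dist v 0 ≤ 2 * e := by
  have h0 := (kp_spec v 0).trans h
  have h1 := (kp_spec v 1).trans h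
  have h2 := (kp_spec v 2).trans h
  have h3 := (ph_kp_nonneg v).trans h
  simp only [ph, Matrix.cons_val_zero, Matrix.cons_val_one, Matrix.cons_val] at h0 h1 h2
  rw [Prod.dist_eq, Real.dist_eq, Real.dist_eq]
  simp only [Prod.fst_zero, Prod.snd_zero, sub_zero]
  refine max_le ?_ ?_ <;> rw [abs_le] <;> constructor <;> linarith

theorem ph_finsum {α : Type} (s : Fin 3) (t : Finset α) (w : α → ℝ × ℝ) :
    ∑ j ∈ t, ph s (w j) = ph s (∑ j ∈ t, w j) := by
  classical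
  induction t using Finset.induction_on with
  | empty =>
    fin_cases s <;> simp [ph]
  | insert a t ha ih =>
    rw [Finset.sum_insert ha, Finset.sum_insert ha, ih]
    fin_cases s
    · simp [ph]
    · simp [ph]
    · simp [ph]; ring

/-- The main statement on colourings. -/
theorem exists_colouring : ∃ (N : ℕ) (hN : 0 < N), 3 ≤ N ∧ ∃ c : V N → Fin 3,
    ∀ e ∈ HH hN, ∃ u ∈ e, ∃ v ∈ e, c u ≠ c v := by
  obtain ⟨F, h1, h2, h3, h4⟩ := Lin.exists_F
  obtain ⟨η, hη, hgap⟩ := exists_gap h1 h4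
  obtain ⟨δ, hδ, hu⟩ := exists_unif h1 (η / 1000) (by positivity)
  obtain ⟨N', hN'⟩ := exists_nat_gt (1 / δ)
  let N := N' + 3
  have hN : 0 < N := by omega
  have hNδ : (1 : ℝ) / N < δ := by
    have hNr : (0 : ℝ) < N := by exact_mod_cast hN
    have h5 : 1 / δ < N := by
      simp only [N]; push_cast; linarith
    rw [div_lt_iff₀ hNr]
    rw [div_lt_iff₀ hδ] at h5
    linarith
  let col : V N → Fin 3 := Quotient.lift (fun p : Cf Gp N × Fin 6 => kp (dev F p.1 p.2)) (by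
    rintro ⟨c, j⟩ ⟨c', j'⟩ ⟨g, hg1, hg2⟩
    simp only at hg1 hg2
    simp only
    rw [hg1, hg2, dev_act h2 h3])
  have hcol : ∀ (c : Cf Gp N) (j : Fin 6), col (mk c j) = kp (dev F c j) := fun c j => rfl
  refine ⟨N, hN, by omega, col, ?_⟩
  intro e he
  by_contra hcon
  push Not at hcon
  obtain ⟨τ, hτ, rfl⟩ := (mem_HH hN e).1 he
  have hmem : ∀ j, pr τ j ∈ Finset.univ.image (pr τ) := fun j =>
    Finset.mem_image_of_mem _ (Finset.mem_univ j)
  have hs : ∀ j, kp (dev F (τ j) j) = kp (dev F (τ 0) 0) := by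
    intro j
    have := hcon _ (hmem j) _ (hmem 0)
    exact this
  have hFc : ∀ j k, dist (Fc F (τ j) k) (Fc F (τ 0) k) < 2 * (η / 1000) := by
    intro j k
    by_cases hj : j = 0
    · rw [hj, dist_self]; positivity
    · exact Fc_close hN h3 hu hNδ (hτ.2 j 0 hj) k
  have hdev : ∀ j, dist (dev F (τ j) j) (dev F (τ 0) j) < 2 * (2 * (η / 1000)) :=
    fun j => dev_close (hFc j) j
  let s := kp (dev F (τ 0) 0)
  have hsum : ∑ j, ph s (dev F (τ 0) j) = 0 := by
    rw [ph_finsum, dev_sum]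
    have : ∀ s : Fin 3, ph s 0 = 0 := by
      intro s; fin_cases s <;> simp [ph]
    exact this s
  have hnn : ∀ j, 0 ≤ ph s (dev F (τ j) j) := by
    intro j
    have h5 := ph_kp_nonneg (dev F (τ j) j)
    rw [hs j] at h5
    exact h5
  have hle : ∀ j, ph s (dev F (τ j) j) ≤ ph s (dev F (τ 0) j) + 8 * (η / 1000) := by
    intro j
    have h5 := ph_lip s (dev F (τ j) j) (dev F (τ 0) j)
    have h6 := (abs_le.1 h5).2
    have h7 := hdev j
    linarith
  have htot : ∑ j, ph s (dev F (τ j) j) ≤ 48 * (η / 1000) := by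
    calc ∑ j, ph s (dev F (τ j) j) ≤ ∑ j, (ph s (dev F (τ 0) j) + 8 * (η / 1000)) :=
          Finset.sum_le_sum fun j _ => hle j
      _ = 48 * (η / 1000) := by
          rw [Finset.sum_add_distrib, hsum, Finset.sum_const, Finset.card_univ,
            Fintype.card_fin, nsmul_eq_mul]
          push_cast
          ring
  have hone : ∀ j, ph s (dev F (τ j) j) ≤ 48 * (η / 1000) := fun j =>
    (Finset.single_le_sum (f := fun j => ph s (dev F (τ j) j)) (fun k _ => hnn k)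
      (Finset.mem_univ j)).trans htot
  have hsmall : ∀ j, dist (dev F (τ j) j) 0 ≤ 2 * (48 * (η / 1000)) := by
    intro j
    refine small_of_kp _ ?_
    rw [hs j]
    exact hone j
  have hsmall0 : ∀ j, dist (dev F (τ 0) j) 0 ≤ 100 * (η / 1000) := by
    intro j
    have h5 := dist_triangle_left (dev F (τ 0) j) 0 (dev F (τ j) j)
    have h6 := hdev j
    have h7 := hsmall j
    linarith
  obtain ⟨i, g, hi⟩ := hτ.1 0
  refine hgap (fun i => leg (τ 0 i)) (fun i => hgt (τ 0 i))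
    ⟨fun i => hgt_nonneg _, fun i => hgt_le_one _⟩ ⟨i, by rw [hi, hgt_top]⟩ ?_
  intro j j'
  have h5 : F (fun i => leg (τ 0 i)) (fun i => hgt (τ 0 i)) j -
      F (fun i => leg (τ 0 i)) (fun i => hgt (τ 0 i)) j' = dev F (τ 0) j - dev F (τ 0) j' := by
    unfold dev Fc
    abel
  rw [dist_eq_norm, h5, ← dist_eq_norm]
  have h6 := dist_triangle_right (dev F (τ 0) j) (dev F (τ 0) j') 0
  have h7 := hsmall0 j
  have h8 := hsmall0 j'
  linarith

end colour

end Pool.Agent.H57.Cn
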